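import Pool.Agent.Lib_MP_d687bf_dom.Defs

/-!
# Piece A: the coefficient ring

`K = CyclotomicField p ℚ`, `ζ` the primitive root, `A = 𝓞 K`. `ζ - 1` is prime in `A`
(`IsPrimitiveRoot.zeta_sub_one_prime'`), `A ⧸ (ζ - 1)` has `p` elements (norm `p`; or directly:
`A = ℤ[ζ]`, so every element is congruent to an integer, hence to a natural number, mod `ζ - 1`).
`O := Localization.AtPrime (Ideal.span {ζ - 1})` is a discrete valuation ring
(`IsLocalization.AtPrime.isDiscreteValuationRing_of_dedekind_domain`), its maximal ideal is generated by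
the image of `1 - ζ`. `res`: an element of `O` is `a / s`, `s` not in `(ζ - 1)`, choose `n` with
`a ≡ n s` (`s ≡ m`, `m` prime to `p`, `a ≡ l`, `n m ≡ l mod p`, and `(ζ - 1) ∣ p`).
-/

namespace D687Dom

open NumberField

/-- every integer of the cyclotomic field is congruent to a rational integer -/
private theorem CoefRing_int (p : ℕ) [Fact p.Prime] {K : Type} [Field K] [NumberField K]
    [IsCyclotomicExtension {p} ℚ K] {ζ : K} (hζ : IsPrimitiveRoot ζ p) (a : 𝓞 K) :
    ∃ n : ℤ, (hζ.toInteger - 1) ∣ a - n := by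
  have h1 : Algebra.adjoin ℤ {hζ.toInteger} = ⊤ := by
    have h2 := hζ.integralPowerBasis.adjoin_gen_eq_top
    rwa [hζ.integralPowerBasis_gen] at h2
  have h2 : a ∈ Algebra.adjoin ℤ {hζ.toInteger} := h1 ▸ Algebra.mem_top
  induction h2 using Algebra.adjoin_induction with
  | mem x hx =>
    rw [Set.mem_singleton_iff.1 hx]
    exact ⟨1, by rw [Int.cast_one]⟩
  | algebraMap r =>
    exact ⟨r, by rw [eq_intCast, sub_self]; exact dvd_zero _⟩
  | add x y _ _ hx hy =>
    obtain ⟨n, hn⟩ := hx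
    obtain ⟨m, hm⟩ := hy
    refine ⟨n + m, ?_⟩
    rw [Int.cast_add, add_sub_add_comm]
    exact dvd_add hn hm
  | mul x y _ _ hx hy =>
    obtain ⟨n, hn⟩ := hx
    obtain ⟨m, hm⟩ := hy
    refine ⟨n * m, ?_⟩
    have h3 : x * y - ((n * m : ℤ) : 𝓞 K) = x * (y - m) + (x - n) * m := by
      rw [Int.cast_mul]
      ring
    rw [h3]
    exact dvd_add (Dvd.dvd.mul_left hm x) (Dvd.dvd.mul_right hn _)

/-- the case of a general model of the cyclotomic field -/
private theorem CoefRing_aux (p : ℕ) [Fact p.Prime] {K : Type} [Field K] [NumberField K]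
    [IsCyclotomicExtension {p} ℚ K] {ζ : K} (hζ : IsPrimitiveRoot ζ p) :
    ∃ (O : Type) (_ : CommRing O) (_ : IsDomain O) (_ : IsDiscreteValuationRing O) (ζ : O),
      IsZeta p ζ := by
  have hpr : Prime (hζ.toInteger - 1) := hζ.zeta_sub_one_prime'
  have hdp : (hζ.toInteger - 1) ∣ ((p : ℤ) : 𝓞 K) := by
    rw [Int.cast_natCast]
    exact hζ.toInteger_sub_one_dvd_prime'
  let P : Ideal (𝓞 K) := Ideal.span {hζ.toInteger - 1}
  have hP : P.IsPrime := (Ideal.span_singleton_prime hpr.ne_zero).2 hpr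
  have hP0 : P ≠ ⊥ := fun h => hpr.ne_zero (Ideal.span_singleton_eq_bot.1 h)
  have hdvr : IsDiscreteValuationRing (Localization.AtPrime P) :=
    IsLocalization.AtPrime.isDiscreteValuationRing_of_dedekind_domain
      (𝓞 K) hP0 _
  refine ⟨Localization.AtPrime P, inferInstance, inferInstance, hdvr,
    algebraMap (𝓞 K) _ hζ.toInteger, ⟨?_, ?_, ?_⟩⟩
  · rw [← map_pow, hζ.toInteger_isPrimitiveRoot.pow_eq_one, map_one]
  · rw [IsDiscreteValuationRing.irreducible_iff_uniformizer,
      ← Localization.AtPrime.map_eq_maximalIdeal, Ideal.map_span, Set.image_singleton,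
      map_sub, map_one, Ideal.span_singleton_eq_span_singleton]
    rw [← neg_sub]
    exact (Associated.refl _).neg_left
  · intro x
    obtain ⟨a, s, rfl⟩ := IsLocalization.exists_mk'_eq P.primeCompl x
    obtain ⟨l, hl⟩ := CoefRing_int p hζ a
    obtain ⟨m, hm⟩ := CoefRing_int p hζ s.1
    have hsP : ¬ (hζ.toInteger - 1) ∣ s.1 := fun h => s.2 (Ideal.mem_span_singleton.2 h)
    have hmp : ¬ (p : ℤ) ∣ m := by
      rintro ⟨k, hk⟩
      apply hsP
      have h1 : s.1 = (s.1 - (m : 𝓞 K)) + m := (sub_add_cancel _ _).symm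
      rw [h1]
      refine dvd_add hm ?_
      rw [hk, Int.cast_mul]
      exact Dvd.dvd.mul_right hdp _
    -- `n m ≡ l mod p`
    have hn : ∃ n : ℕ, (p : ℤ) ∣ l - n * m := by
      have hm0 : (m : ZMod p) ≠ 0 := fun h => hmp ((ZMod.intCast_zmod_eq_zero_iff_dvd m p).1 h)
      refine ⟨((l : ZMod p) * (m : ZMod p)⁻¹).val, ?_⟩
      rw [← ZMod.intCast_zmod_eq_zero_iff_dvd]
      push_cast
      rw [ZMod.natCast_zmod_val, mul_assoc, inv_mul_cancel₀ hm0, mul_one, sub_self]
    obtain ⟨n, hn⟩ := hn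
    refine ⟨n, ?_⟩
    have h2 : (hζ.toInteger - 1) ∣ a - (n : 𝓞 K) * s.1 := by
      have h3 : a - (n : 𝓞 K) * s.1 = (a - l) - n * (s.1 - m)
          + ((l - n * m : ℤ) : 𝓞 K) := by
        push_cast
        ring
      rw [h3]
      refine dvd_add (dvd_sub hl (Dvd.dvd.mul_left hm _)) ?_
      obtain ⟨k, hk⟩ := hn
      rw [hk, Int.cast_mul]
      exact Dvd.dvd.mul_right hdp _
    obtain ⟨c, hc⟩ := h2
    have hu : IsUnit (algebraMap (𝓞 K) (Localization.AtPrime P) s.1) :=
      IsLocalization.map_units _ s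
    refine ⟨- IsLocalization.mk' (Localization.AtPrime P) c s, ?_⟩
    refine hu.mul_right_cancel ?_
    have h4 := congrArg (algebraMap (𝓞 K) (Localization.AtPrime P)) hc
    rw [map_sub, map_mul, map_natCast, map_mul, map_sub, map_one] at h4
    rw [sub_mul, IsLocalization.mk'_spec, h4, mul_assoc, neg_mul, IsLocalization.mk'_spec]
    ring

theorem exists_coef (p : ℕ) [Fact p.Prime] (hp : p ≠ 2) :
    ∃ (O : Type) (_ : CommRing O) (_ : IsDomain O) (_ : IsDiscreteValuationRing O) (ζ : O),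
      IsZeta p ζ := by
  have : NeZero p := ⟨(Fact.out : p.Prime).ne_zero⟩
  have : IsCyclotomicExtension {p} ℚ (CyclotomicField p ℚ) :=
    CyclotomicField.isCyclotomicExtension p ℚ
  exact CoefRing_aux p (IsCyclotomicExtension.zeta_spec p ℚ (CyclotomicField p ℚ))

end D687Dom
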