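import Pool.Agent.Lib_MP_d687bf_dom.TwDomain
import Pool.Agent.Lib_MP_d687bf_dom.CoefRing

/-!
# The domain theorem
-/

open scoped nonZeroDivisors

namespace D687Dom

theorem exists_divisionRing_aux (p : ℕ) [Fact p.Prime] (hp : p ≠ 2) (Γ : Type) [Group Γ] (z : Γ)
    {r : ℕ} (j : Lam r →* Γ) (hD : DomData p z j) :
    ∃ (D : Type) (_ : DivisionRing D) (f : Γ →* Dˣ), Function.Injective f := by
  obtain ⟨O, _, _, _, ζ, hζ⟩ := exists_coef p hp
  have hprime := Fact.out (p := p.Prime)
  have := tw_noZeroDivisors p hp hζ hD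
  have := tw_noetherian p hprime hD ζ hζ.pow
  have hζ1 : ζ ≠ 1 := by
    intro h
    have := hζ.irr.ne_zero
    rw [h, sub_self] at this
    exact this rfl
  obtain ⟨h1, h2⟩ := tw_of_injective p hprime hD ζ hζ.pow hζ1
  have := h1
  have : IsDomain (Tw z ζ) := NoZeroDivisors.to_isDomain _
  obtain ⟨hO⟩ := nonempty_oreSet_of_strongRankCondition (R := Tw z ζ)
  let _ := hO
  refine ⟨OreLocalization (Tw z ζ)⁰ (Tw z ζ), inferInstance, ?_, ?_⟩
  · exact (Units.map (OreLocalization.numeratorHom : Tw z ζ →* _)).comp (Tw.of z ζ).toHomUnits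
  · intro a b hab
    apply h2
    have h3 := congrArg Units.val hab
    have h4 : (OreLocalization.numeratorHom (S := (Tw z ζ)⁰) (Tw.of z ζ a)) =
        OreLocalization.numeratorHom (S := (Tw z ζ)⁰) (Tw.of z ζ b) := h3
    exact OreLocalization.numeratorHom_inj (S := (Tw z ζ)⁰) inf_le_left h4

/-- A group `Γ` with a central element `z` of order `p` (odd prime) such that `⟨z⟩` contains all
elements with `t ^ p = 1`, and a normal subgroup `B`, free abelian of finite rank, of finite index a
power of `p`, embeds into the multiplicative group of a division ring. -/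
theorem exists_division_ring (p : ℕ) [Fact p.Prime] (hp : p ≠ 2) (Γ : Type) [Group Γ] (z : Γ)
    (hc : z ∈ Subgroup.center Γ) (hz : orderOf z = p)
    (ht : ∀ t : Γ, t ^ p = 1 → t ∈ Subgroup.zpowers z) (B : Subgroup Γ) [B.Normal]
    (hcomm : ∀ a ∈ B, ∀ b ∈ B, a * b = b * a) (htf : ∀ b ∈ B, ∀ n : ℕ, n ≠ 0 → b ^ n = 1 → b = 1)
    (hfg : B.FG) (hind : ∃ a, B.index = p ^ a) :
    ∃ (D : Type) (_ : DivisionRing D) (f : Γ →* Dˣ), Function.Injective f := by
  obtain ⟨r, ⟨e⟩⟩ := exists_lam_equiv B (fun a b => Subtype.ext (hcomm a a.2 b b.2))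
    (fun b n hn hb => Subtype.ext (htf b b.2 n hn (by
      have := congrArg Subtype.val hb
      simpa using this))) ((Group.fg_iff_subgroup_fg B).mpr hfg)
  have hr : (B.subtype.comp e.toMonoidHom).range = B := by
    rw [MonoidHom.range_comp, MonoidHom.range_eq_top.mpr e.surjective]
    rw [← MonoidHom.range_eq_map, Subgroup.range_subtype]
  refine exists_divisionRing_aux p hp Γ z (B.subtype.comp e.toMonoidHom) ⟨?_, hz, ht, ?_, ?_, ?_⟩
  · intro g
    exact (Subgroup.mem_center_iff.mp hc g)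
  · exact (Subtype.val_injective).comp e.injective
  · rw [hr]
    infer_instance
  · rw [hr]
    exact hind

end D687Dom
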