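import Pool.Agent.Lib_MP_d687bf_dom.ChainSq

/-!
# Piece L: exactness of the chain complex

Lists: `l ++ [y]` with `y` the top. `∂ (l ++ [y]) = (∂ l) ++ [y] ± l`, `∂ (w :: l) = l - w :: ∂ l`
(`List.eraseIdx`). Let `a : Y` be below all vertices of the cycle `c` (infimum of finitely many), `H` the
maximum of `ht a y` over the tops `y` of the chains of `c`. Induction on `H`. For a chain with top `y ≠ a` put
`w y := u⁻¹ y ⊔ a < y` (`sup_lt`); every other vertex `v` of a chain with top `y` satisfies
`u⁻¹ y ≤ v`, `a ≤ v`, so `w y ≤ v`, and `v ≤ y ≤ u (w y)`: `w y :: l` is a chain if the first element of `l`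
is not `w y`. Define `s` on chains with top `y ≠ a`: `s l = w y :: l` if the head is not `w y`, and `0`
otherwise. With `D` = the part of the boundary which keeps the top, `D s + s D = 1` on chains with top
`y`. If `c_H` is the part of `c` with `ht a (top) = H > 0` then `D c_H = 0` (look at the part of `∂ c = 0` with
the tops of height `H`; omitting the top lowers the height by `ht_lt`), so `c - ∂ (s c_H)` has only tops
of height `< H`. If `H` is the height of `a` itself all chains are `[a]` (`k = 0`), and `∂ c = 0` gives `c = 0`.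
(For `k + 1` elements, `k = 0` included: the empty list is the chain of length `0`.)
Work with raw lists and coefficients in `N` (`List Y →₀ N`, recursion on lists) if that is easier.
-/

namespace D687Dom

section ChainExactRaw

variable {Y : Type} {N : Type} [AddCommGroup N]

/-- prepend `y` -/
private noncomputable def ceCons (N : Type) [AddCommGroup N] (y : Y) :
    (List Y →₀ N) →+ (List Y →₀ N) :=
  Finsupp.mapDomain.addMonoidHom (fun l => y :: l)

/-- append `y` -/
private noncomputable def ceApp (N : Type) [AddCommGroup N] (y : Y) :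
    (List Y →₀ N) →+ (List Y →₀ N) :=
  Finsupp.mapDomain.addMonoidHom (fun l => l ++ [y])

private theorem ceCons_single (y : Y) (l : List Y) (n : N) :
    ceCons N y (Finsupp.single l n) = Finsupp.single (y :: l) n := Finsupp.mapDomain_single

private theorem ceApp_single (y : Y) (l : List Y) (n : N) :
    ceApp N y (Finsupp.single l n) = Finsupp.single (l ++ [y]) n := Finsupp.mapDomain_single

/-- the boundary of a list -/
private noncomputable def ceD0 (N : Type) [AddCommGroup N] : List Y → (N →+ (List Y →₀ N))
  | [] => 0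
  | y :: l => Finsupp.singleAddHom l - (ceCons N y).comp (ceD0 N l)

/-- the boundary map on raw lists -/
private noncomputable def ceD (Y N : Type) [AddCommGroup N] : (List Y →₀ N) →+ (List Y →₀ N) :=
  Finsupp.liftAddHom (ceD0 N)

private theorem ceD_single (l : List Y) (n : N) :
    ceD Y N (Finsupp.single l n) = ceD0 N l n := Finsupp.liftAddHom_apply_single _ _ _

private theorem ceD_nil (n : N) : ceD Y N (Finsupp.single [] n) = 0 := by
  rw [ceD_single]
  rfl

private theorem ceD_cons (y : Y) (l : List Y) (n : N) : ceD Y N (Finsupp.single (y :: l) n) =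
    Finsupp.single l n - ceCons N y (ceD Y N (Finsupp.single l n)) := by
  rw [ceD_single, ceD_single]
  rfl

private theorem ceD_ceCons (y : Y) (x : List Y →₀ N) :
    ceD Y N (ceCons N y x) = x - ceCons N y (ceD Y N x) := by
  induction x using Finsupp.induction_linear with
  | zero => simp only [map_zero, sub_zero]
  | add x x' hx hx' =>
    rw [map_add, map_add, hx, hx', map_add, map_add]
    abel
  | single l n => rw [ceCons_single, ceD_cons]

private theorem ceD_ceD (x : List Y →₀ N) : ceD Y N (ceD Y N x) = 0 := by
  induction x using Finsupp.induction_linear with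
  | zero => simp only [map_zero]
  | add x x' hx hx' => rw [map_add, map_add, hx, hx', add_zero]
  | single l n =>
    induction l with
    | nil => rw [ceD_nil, map_zero]
    | cons y l ih => rw [ceD_cons, map_sub, ceD_ceCons, ih, map_zero, sub_zero, sub_self]

private theorem ceD_app (y : Y) (l : List Y) (n : N) : ceD Y N (Finsupp.single (l ++ [y]) n) =
    ceApp N y (ceD Y N (Finsupp.single l n)) +
      ((-1 : ℤ) ^ l.length) • Finsupp.single l n := by
  induction l with
  | nil =>
    rw [List.nil_append, ceD_cons, ceD_nil, map_zero, map_zero, List.length_nil, pow_zero,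
      one_smul, sub_zero, zero_add]
  | cons v l ih =>
    have h1 : ceCons N v (ceApp N y (ceD Y N (Finsupp.single l n))) =
        ceApp N y (ceCons N v (ceD Y N (Finsupp.single l n))) := by
      generalize ceD Y N (Finsupp.single l n) = x
      induction x using Finsupp.induction_linear with
      | zero => simp only [map_zero]
      | add x x' hx hx' => rw [map_add, map_add, hx, hx', map_add, map_add]
      | single l n =>
        rw [ceApp_single, ceCons_single, ceCons_single, ceApp_single, List.cons_append]
    rw [List.cons_append, ceD_cons, ih, map_add, h1, ceD_cons, map_sub, ceApp_single,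
      List.length_cons, pow_succ, map_zsmul, ceCons_single]
    simp only [mul_neg, mul_one, neg_smul]
    abel

private theorem ceMap_mem {A : Type} (f : A → A) (S T : Set A) (h : ∀ l ∈ S, f l ∈ T)
    (x : A →₀ N) (hx : x ∈ Finsupp.supported N ℤ S) :
    Finsupp.mapDomain.addMonoidHom f x ∈ Finsupp.supported N ℤ T := by
  have h1 : Finsupp.supported N ℤ S ≤ Finsupp.supported N ℤ (f ⁻¹' T) :=
    Finsupp.supported_mono h
  exact Finsupp.supported_comap_lmapDomain N ℤ f T (h1 hx)

private theorem ceD_mem (l : List Y) (n : N) : ceD Y N (Finsupp.single l n) ∈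
    Finsupp.supported N ℤ {l' | l'.Sublist l ∧ l'.length + 1 = l.length} := by
  induction l with
  | nil =>
    rw [ceD_nil]
    exact zero_mem _
  | cons y l ih =>
    rw [ceD_cons]
    refine sub_mem (Finsupp.single_mem_supported _ _ ⟨List.sublist_cons_self y l, rfl⟩) ?_
    refine ceMap_mem _ _ _ ?_ _ ih
    rintro m ⟨h1, h2⟩
    exact ⟨h1.cons_cons y, by rw [List.length_cons, List.length_cons, h2]⟩

private theorem ceD0_eq (l : List Y) (n : N) : ceD0 N l n =
    ∑ i ∈ Finset.range l.length, ((-1 : ℤ) ^ i) • Finsupp.single (l.eraseIdx i) n := by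
  induction l with
  | nil => rfl
  | cons y l ih =>
    rw [List.length_cons, Finset.sum_range_succ', pow_zero, one_smul, List.eraseIdx_cons_zero]
    have h1 : ceD0 N (y :: l) n = Finsupp.single l n - ceCons N y (ceD0 N l n) := rfl
    rw [h1, ih, map_sum, sub_eq_neg_add, ← Finset.sum_neg_distrib]
    congr 1
    refine Finset.sum_congr rfl fun i _ => ?_
    rw [map_zsmul, ceCons_single, List.eraseIdx_cons_succ, pow_succ, mul_neg, mul_one, neg_smul]

open Classical in
/-- the cone operator -/
private noncomputable def ceS (N : Type) [AddCommGroup N] (w : Y) :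
    (List Y →₀ N) →+ (List Y →₀ N) :=
  Finsupp.liftAddHom fun l => if l.head? = some w then 0 else Finsupp.singleAddHom (w :: l)

private theorem ceS_pos {w : Y} {l : List Y} (h : l.head? = some w) (n : N) :
    ceS N w (Finsupp.single l n) = 0 := by
  rw [ceS, Finsupp.liftAddHom_apply_single, if_pos h]
  rfl

private theorem ceS_neg {w : Y} {l : List Y} (h : l.head? ≠ some w) (n : N) :
    ceS N w (Finsupp.single l n) = Finsupp.single (w :: l) n := by
  rw [ceS, Finsupp.liftAddHom_apply_single, if_neg h]
  rfl

private theorem ceS_ceCons (w : Y) (x : List Y →₀ N) : ceS N w (ceCons N w x) = 0 := by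
  induction x using Finsupp.induction_linear with
  | zero => simp only [map_zero]
  | add x x' hx hx' => rw [map_add, map_add, hx, hx', add_zero]
  | single l n => rw [ceCons_single, ceS_pos (List.head?_cons)]

private theorem ceS_eq {w : Y} {x : List Y →₀ N} (h : ∀ l ∈ x.support, l.head? ≠ some w) :
    ceS N w x = ceCons N w x := by
  classical
  rw [ceS, Finsupp.liftAddHom_apply, ceCons, Finsupp.mapDomain.addMonoidHom_apply,
    Finsupp.mapDomain]
  refine Finsupp.sum_congr fun l hl => ?_
  rw [if_neg (h l hl)]
  rfl

private theorem ceS_homotopy [PartialOrder Y] (w : Y) (l : List Y) (hl : l.Pairwise (· < ·))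
    (hw : ∀ v ∈ l, w ≤ v) (n : N) : ceD Y N (ceS N w (Finsupp.single l n)) +
      ceS N w (ceD Y N (Finsupp.single l n)) = Finsupp.single l n := by
  cases l with
  | nil =>
    rw [ceS_neg (by simp), ceD_nil, map_zero, add_zero, ceD_cons, ceD_nil, map_zero, sub_zero]
  | cons z m =>
    rw [List.pairwise_cons] at hl
    by_cases hz : z = w
    · subst hz
      rw [ceS_pos (List.head?_cons), map_zero, zero_add, ceD_cons, map_sub, ceS_ceCons, sub_zero,
        ceS_neg]
      cases m with
      | nil => simp
      | cons v m =>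
        rw [List.head?_cons]
        intro h
        rw [Option.some_inj] at h
        exact (hl.1 v (by simp)).ne' h
    · have hzw : w < z := lt_of_le_of_ne (hw z (by simp)) (Ne.symm hz)
      rw [ceS_neg (by rw [List.head?_cons]; intro h; exact hz (Option.some_inj.1 h)),
        ceD_cons w, ceS_eq (w := w) (x := ceD Y N (Finsupp.single (z :: m) n)), sub_add_cancel]
      intro l' hl' h
      have h1 := (Finsupp.mem_supported ℤ _).1 (ceD_mem (z :: m) n) (Finset.mem_coe.2 hl')
      have h2 : w ∈ l' := List.mem_of_mem_head? h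
      have h3 := h1.1.subset h2
      rcases List.mem_cons.1 h3 with h4 | h4
      · exact hzw.ne h4
      · exact (hzw.trans (hl.1 w h4)).ne rfl

open Classical in
/-- the homotopy at the height `H` -/
private noncomputable def ceT (N : Type) [AddCommGroup N] (f : Y → ℕ) (H : ℕ) (w : Y → Y) :
    (List Y →₀ N) →+ (List Y →₀ N) :=
  Finsupp.liftAddHom fun l => match l.getLast? with
    | none => 0
    | some y => if f y = H then
        ((ceApp N y).comp (ceS N (w y))).comp (Finsupp.singleAddHom l.dropLast) else 0

private theorem ceT_app {f : Y → ℕ} {H : ℕ} {w : Y → Y} {y : Y} (hy : f y = H) (l : List Y)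
    (n : N) : ceT N f H w (Finsupp.single (l ++ [y]) n) =
      ceApp N y (ceS N (w y) (Finsupp.single l n)) := by
  rw [ceT, Finsupp.liftAddHom_apply_single]
  simp only [List.getLast?_append, List.getLast?_singleton, Option.some_or,
    List.dropLast_append_of_ne_nil (List.cons_ne_nil y []), List.dropLast_singleton,
    List.append_nil, if_pos hy]
  rfl

private theorem ceT_zero {f : Y → ℕ} {H : ℕ} {w : Y → Y} {l : List Y} (hl : ∀ v ∈ l, f v ≠ H)
    (n : N) : ceT N f H w (Finsupp.single l n) = 0 := by
  rw [ceT, Finsupp.liftAddHom_apply_single]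
  rcases List.eq_nil_or_concat l with rfl | ⟨m, y, rfl⟩
  · rfl
  · have h1 : f y ≠ H := hl y (by simp)
    simp only [List.concat_eq_append, List.getLast?_append, List.getLast?_singleton,
      Option.some_or, if_neg h1]
    rfl

private theorem ceT_zero' {f : Y → ℕ} {H : ℕ} {w : Y → Y} {x : List Y →₀ N}
    (hx : ∀ l ∈ x.support, ∀ v ∈ l, f v ≠ H) : ceT N f H w x = 0 := by
  rw [← Finsupp.sum_single x, map_finsuppSum]
  exact Finset.sum_eq_zero fun l hl => ceT_zero (hx l hl) _

private theorem ceT_ceApp {f : Y → ℕ} {H : ℕ} {w : Y → Y} {y : Y} (hy : f y = H)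
    (x : List Y →₀ N) : ceT N f H w (ceApp N y x) = ceApp N y (ceS N (w y) x) := by
  induction x using Finsupp.induction_linear with
  | zero => simp only [map_zero]
  | add x x' hx hx' => rw [map_add, map_add, hx, hx', map_add, map_add]
  | single l n => rw [ceApp_single, ceT_app hy]

/-- the lists which are chains -/
private def ceC [PartialOrder Y] (u : Y ≃o Y) (k : ℕ) : Set (List Y) :=
  {l | l.length = k ∧ l.Pairwise fun a b => a < b ∧ b ≤ u a}

/-- the chains above `a` of height less than `H` -/
private def ceG [PartialOrder Y] (u : Y ≃o Y) (ht : Y → Y → ℕ) (a : Y) (k H : ℕ) :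
    Set (List Y) :=
  {l | l ∈ ceC u k ∧ ∀ v ∈ l, a ≤ v ∧ ht a v < H}

private theorem ceStep [Lattice Y] {u : Y ≃o Y} {ht : Y → Y → ℕ} {M : ℕ} (h : IsBox u ht M)
    (a : Y) (k H : ℕ) (hH : ht a a ≠ H) (l : List Y) (hl : l ∈ ceG u ht a (k + 1) (H + 1))
    (n : N) : Finsupp.single l n -
      ceD Y N (ceT N (ht a) H (fun y => u.symm y ⊔ a) (Finsupp.single l n)) -
      ceT N (ht a) H (fun y => u.symm y ⊔ a) (ceD Y N (Finsupp.single l n)) ∈
        Finsupp.supported N ℤ (ceG u ht a (k + 1) H) ∧
    ceT N (ht a) H (fun y => u.symm y ⊔ a) (Finsupp.single l n) ∈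
      Finsupp.supported N ℤ (ceC u (k + 2)) := by
  obtain ⟨⟨hlen, hp⟩, hlv⟩ := hl
  rcases List.eq_nil_or_concat l with rfl | ⟨m, y, rfl⟩
  · simp at hlen
  rw [List.concat_eq_append] at hlen hp hlv ⊢
  rw [List.pairwise_append] at hp
  obtain ⟨hm, -, hmy⟩ := hp
  have hmlen : m.length = k := by simpa using hlen
  have hmy' : ∀ v ∈ m, v < y ∧ y ≤ u v := fun v hv => hmy v hv y (by simp)
  have hma : ∀ v ∈ m, a ≤ v := fun v hv => (hlv v (by simp [hv])).1
  have hya : a ≤ y := (hlv y (by simp)).1
  have hyH : ht a y < H + 1 := (hlv y (by simp)).2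
  have hmH : ∀ v ∈ m, ht a v < ht a y := fun v hv => h.ht_lt a v y (hma v hv) (hmy' v hv).1
  by_cases hy : ht a y = H
  · have hay : a < y := lt_of_le_of_ne hya fun h1 => hH (by rw [← hy, ← h1])
    set w : Y := u.symm y ⊔ a with hw
    have hwy : w < y := h.sup_lt a y hay
    have haw : a ≤ w := le_sup_right
    have hyw : y ≤ u w := by
      have h1 : u.symm y ≤ w := le_sup_left
      have h2 := u.monotone h1
      rwa [u.apply_symm_apply] at h2
    have hwm : ∀ v ∈ m, w ≤ v := by
      intro v hv
      refine sup_le ?_ (hma v hv)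
      have h1 := u.symm.monotone (hmy' v hv).2
      rwa [u.symm_apply_apply] at h1
    have hmlt : m.Pairwise (· < ·) := hm.imp fun h => h.1
    have hhead : m.head? ≠ some w → ∀ v ∈ m, w < v := by
      intro h1 v hv
      refine lt_of_le_of_ne (hwm v hv) ?_
      rintro rfl
      cases m with
      | nil => simp at hv
      | cons b m =>
        rcases List.mem_cons.1 hv with h2 | h2
        · exact h1 (by rw [List.head?_cons, h2])
        · rw [List.pairwise_cons] at hmlt
          exact absurd (hwm b (by simp)) (not_le_of_gt (hmlt.1 _ h2))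
    have e1 : ceT N (ht a) H (fun y => u.symm y ⊔ a) (Finsupp.single (m ++ [y]) n) =
        ceApp N y (ceS N w (Finsupp.single m n)) := ceT_app hy m n
    have e2 : ceT N (ht a) H (fun y => u.symm y ⊔ a) (ceD Y N (Finsupp.single (m ++ [y]) n)) =
        ceApp N y (ceS N w (ceD Y N (Finsupp.single m n))) := by
      rw [ceD_app, map_add, map_zsmul, ceT_zero (l := m), smul_zero, add_zero, ceT_ceApp hy]
      intro v hv
      have := hmH v hv
      omega
    have e3 := ceS_homotopy w m hmlt hwm n
    have e4 : Finsupp.single (m ++ [y]) n = ceApp N y (Finsupp.single m n) :=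
      (ceApp_single y m n).symm
    by_cases hh : m.head? = some w
    · rw [ceS_pos hh, map_zero, zero_add] at e3
      rw [e1, e2, ceS_pos hh, map_zero, map_zero, sub_zero, e3, e4, sub_self]
      exact ⟨zero_mem _, zero_mem _⟩
    · have hwm' := hhead hh
      have hwm2 : (w :: m).Pairwise fun a b => a < b ∧ b ≤ u a := by
        rw [List.pairwise_cons]
        exact ⟨fun v hv => ⟨hwm' v hv, (hmy' v hv).1.le.trans hyw⟩, hm⟩
      rw [e1, e2, ceS_neg hh, ceApp_single]
      rw [ceS_neg hh] at e3
      have e5 : Finsupp.single (m ++ [y]) n - ceD Y N (Finsupp.single (w :: m ++ [y]) n) -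
          ceApp N y (ceS N w (ceD Y N (Finsupp.single m n))) =
          -(((-1 : ℤ) ^ (w :: m).length) • Finsupp.single (w :: m) n) := by
        rw [ceD_app, e4]
        nth_rewrite 1 [← e3]
        rw [map_add]
        abel
      rw [e5]
      constructor
      · refine neg_mem (Submodule.smul_mem _ _ (Finsupp.single_mem_supported _ _ ?_))
        refine ⟨⟨by rw [List.length_cons, hmlen], hwm2⟩, ?_⟩
        intro v hv
        rcases List.mem_cons.1 hv with rfl | hv
        · exact ⟨haw, hy ▸ h.ht_lt a _ y haw hwy⟩
        · exact ⟨hma v hv, hy ▸ hmH v hv⟩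
      · refine Finsupp.single_mem_supported _ _ ⟨by simp [hmlen], ?_⟩
        rw [List.pairwise_append]
        refine ⟨hwm2, List.pairwise_singleton _ _, ?_⟩
        intro v hv v' hv'
        rw [List.mem_singleton] at hv'
        subst hv'
        rcases List.mem_cons.1 hv with rfl | hv
        · exact ⟨hwy, hyw⟩
        · exact hmy' v hv
  · have hlt : ∀ v ∈ m ++ [y], ht a v < H := by
      intro v hv
      rcases List.mem_append.1 hv with hv | hv
      · have := hmH v hv
        omega
      · rw [List.mem_singleton] at hv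
        subst hv
        omega
    rw [ceT_zero (l := m ++ [y]) fun v hv => (hlt v hv).ne, map_zero, sub_zero, ceT_zero',
      sub_zero]
    · refine ⟨Finsupp.single_mem_supported _ _ ⟨⟨hlen, ?_⟩, fun v hv => ⟨(hlv v hv).1, hlt v hv⟩⟩,
        zero_mem _⟩
      rw [List.pairwise_append]
      exact ⟨hm, List.pairwise_singleton _ _, hmy⟩
    · intro l' hl' v hv
      have h1 := (Finsupp.mem_supported ℤ _).1 (ceD_mem (m ++ [y]) n) (Finset.mem_coe.2 hl')
      exact (hlt v (h1.1.subset hv)).ne

private theorem ceMain [Lattice Y] {u : Y ≃o Y} {ht : Y → Y → ℕ} {M : ℕ} (h : IsBox u ht M)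
    (a : Y) (k H : ℕ) : ∀ c : List Y →₀ N, c ∈ Finsupp.supported N ℤ (ceG u ht a (k + 1) H) →
      ceD Y N c = 0 → ∃ x ∈ Finsupp.supported N ℤ (ceC u (k + 2)), ceD Y N x = c := by
  induction H with
  | zero =>
    intro c hc _
    refine ⟨0, zero_mem _, ?_⟩
    rw [map_zero]
    by_contra hne
    obtain ⟨l, hl⟩ := Finsupp.support_nonempty_iff.2 (Ne.symm hne)
    have h1 := (Finsupp.mem_supported ℤ _).1 hc (Finset.mem_coe.2 hl)
    obtain ⟨⟨hlen, -⟩, hlv⟩ := h1
    cases l with
    | nil => simp at hlen
    | cons v l => exact absurd (hlv v (by simp)).2 (by omega)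
  | succ H ih =>
    intro c hc hd
    by_cases hH : ht a a = H
    · refine ⟨0, zero_mem _, ?_⟩
      rw [map_zero]
      have key : ∀ l ∈ ceG u ht a (k + 1) (H + 1), l = [a] := by
        rintro l ⟨⟨hlen, hp⟩, hlv⟩
        have h1 : ∀ v ∈ l, v = a := by
          intro v hv
          by_contra hne
          have h2 := h.ht_lt a a v le_rfl (lt_of_le_of_ne (hlv v hv).1 (Ne.symm hne))
          have h3 := (hlv v hv).2
          omega
        cases l with
        | nil => simp at hlen
        | cons b l =>
          have h2 : b = a := h1 b (by simp)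
          subst h2
          cases l with
          | nil => rfl
          | cons b' l =>
            rw [List.pairwise_cons] at hp
            have h3 := (hp.1 b' (by simp)).1
            exact absurd (h1 b' (by simp)) h3.ne'
      have h1 : c = Finsupp.single [a] (c [a]) := by
        classical
        refine Finsupp.ext fun l => ?_
        rw [Finsupp.single_apply]
        split_ifs with h2
        · rw [h2]
        · by_contra h3
          have h4 := (Finsupp.mem_supported ℤ _).1 hc
            (Finset.mem_coe.2 (Finsupp.mem_support_iff.2 h3))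
          exact h2 (key l h4).symm
      rw [h1, ceD_cons, ceD_nil, map_zero, sub_zero] at hd
      rw [Finsupp.single_eq_zero] at hd
      rw [h1, hd, Finsupp.single_zero]
    · have key : c - ceD Y N (ceT N (ht a) H (fun y => u.symm y ⊔ a) c) -
          ceT N (ht a) H (fun y => u.symm y ⊔ a) (ceD Y N c) ∈
            Finsupp.supported N ℤ (ceG u ht a (k + 1) H) ∧
          ceT N (ht a) H (fun y => u.symm y ⊔ a) c ∈
            Finsupp.supported N ℤ (ceC u (k + 2)) := by
        have h1 : c = ∑ l ∈ c.support, Finsupp.single l (c l) := (Finsupp.sum_single c).symm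
        rw [h1]
        simp only [map_sum, ← Finset.sum_sub_distrib]
        constructor
        · exact sum_mem fun l hl => (ceStep h a k H hH l
            ((Finsupp.mem_supported ℤ _).1 hc (Finset.mem_coe.2 hl)) _).1
        · exact sum_mem fun l hl => (ceStep h a k H hH l
            ((Finsupp.mem_supported ℤ _).1 hc (Finset.mem_coe.2 hl)) _).2
      rw [hd, map_zero, sub_zero] at key
      obtain ⟨x, hx, hx2⟩ := ih _ key.1 (by rw [map_sub, hd, ceD_ceD, sub_zero])
      refine ⟨x + ceT N (ht a) H (fun y => u.symm y ⊔ a) c, add_mem hx key.2, ?_⟩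
      rw [map_add, hx2, sub_add_cancel]

/-- chains as raw lists -/
private noncomputable def ceE [PartialOrder Y] (u : Y ≃o Y) (N : Type) [AddCommGroup N] (k : ℕ) :
    (Chain u k →₀ N) →+ (List Y →₀ N) :=
  Finsupp.mapDomain.addMonoidHom (fun l => l.1)

private theorem ceE_bdry [PartialOrder Y] (u : Y ≃o Y) (k : ℕ) (c : Chain u (k + 1) →₀ N) :
    ceE u N k (bdry u N k c) = ceD Y N (ceE u N (k + 1) c) := by
  induction c using Finsupp.induction_linear with
  | zero => simp only [map_zero]
  | add x x' hx hx' => rw [map_add, map_add, hx, hx', map_add, map_add]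
  | single l n =>
    have h1 : ceE u N (k + 1) (Finsupp.single l n) = Finsupp.single l.1 n :=
      Finsupp.mapDomain_single
    rw [h1, ceD_single, ceD0_eq, l.2.1, bdry, AddMonoidHom.finsetSum_apply, map_sum,
      Finset.sum_range]
    refine Finset.sum_congr rfl fun i _ => ?_
    rw [AddMonoidHom.smul_apply, Finsupp.mapDomain.addMonoidHom_apply,
      Finsupp.mapDomain_single, map_zsmul]
    congr 1
    exact Finsupp.mapDomain_single

private theorem ceE_injective [PartialOrder Y] (u : Y ≃o Y) (k : ℕ) :
    Function.Injective (ceE u N k) :=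
  Finsupp.mapDomain_injective Subtype.val_injective

private theorem ceE_mem [PartialOrder Y] (u : Y ≃o Y) (k : ℕ) (c : Chain u k →₀ N) :
    ceE u N k c ∈ Finsupp.supported N ℤ (ceC u k) := by
  induction c using Finsupp.induction_linear with
  | zero =>
    rw [map_zero]
    exact zero_mem _
  | add x x' hx hx' =>
    rw [map_add]
    exact add_mem hx hx'
  | single l n =>
    have h1 : ceE u N k (Finsupp.single l n) = Finsupp.single l.1 n := Finsupp.mapDomain_single
    rw [h1]
    exact Finsupp.single_mem_supported _ _ l.2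

private theorem ceE_surj [PartialOrder Y] (u : Y ≃o Y) (k : ℕ) (x : List Y →₀ N)
    (hx : x ∈ Finsupp.supported N ℤ (ceC u k)) : ∃ c, ceE u N k c = x := by
  have h1 : x = ∑ l ∈ x.support, Finsupp.single l (x l) := (Finsupp.sum_single x).symm
  rw [h1]
  have h2 : ∀ l ∈ x.support, Finsupp.single l (x l) ∈ (ceE u N k).range := by
    intro l hl
    have h3 := (Finsupp.mem_supported ℤ _).1 hx (Finset.mem_coe.2 hl)
    exact ⟨Finsupp.single (⟨l, h3⟩ : Chain u k) (x l), Finsupp.mapDomain_single⟩
  exact sum_mem h2

end ChainExactRaw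

theorem bdry_exact {Y : Type} [Lattice Y] {u : Y ≃o Y} {ht : Y → Y → ℕ} {M : ℕ}
    (h : IsBox u ht M) (N : Type) [AddCommGroup N] (k : ℕ) (c : Chain u (k + 1) →₀ N)
    (hc : bdry u N k c = 0) : ∃ x : Chain u (k + 2) →₀ N, bdry u N (k + 1) x = c := by
  classical
  by_cases hY : Nonempty Y
  · set V : Finset Y := (ceE u N (k + 1) c).support.biUnion fun l => l.toFinset with hV
    obtain ⟨a, ha⟩ : ∃ a : Y, ∀ v ∈ V, a ≤ v := V.finite_toSet.bddBelow
    have hmem : ceE u N (k + 1) c ∈
        Finsupp.supported N ℤ (ceG u ht a (k + 1) (V.sup (ht a) + 1)) := by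
      rw [Finsupp.mem_supported]
      intro l hl
      refine ⟨(Finsupp.mem_supported ℤ _).1 (ceE_mem u (k + 1) c) hl, fun v hv => ?_⟩
      have h1 : v ∈ V := Finset.mem_biUnion.2 ⟨l, Finset.mem_coe.1 hl, List.mem_toFinset.2 hv⟩
      exact ⟨ha v h1, Nat.lt_succ_of_le (Finset.le_sup (f := ht a) h1)⟩
    obtain ⟨x, hx, hx2⟩ := ceMain h a k _ _ hmem (by rw [← ceE_bdry, hc, map_zero])
    obtain ⟨X, rfl⟩ := ceE_surj u (k + 2) x hx
    refine ⟨X, ceE_injective u (k + 1) ?_⟩
    rw [ceE_bdry, hx2]
  · refine ⟨0, ?_⟩
    rw [map_zero]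
    symm
    refine Finsupp.ext fun l => ?_
    exfalso
    obtain ⟨l, hl, -⟩ := l
    cases l with
    | nil => simp at hl
    | cons y l => exact hY ⟨y⟩

end D687Dom
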