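import Pool.Agent.Lib_MP_d687bf_dom.Defs

/-!
# Piece K: `∂ ∂ = 0`, the top of the chain complex, surjectivity

`bdry_bdry`: `l.eraseIdx i` then `eraseIdx k`: for `k < i`: `(l.eraseIdx i).eraseIdx k =
(l.eraseIdx k).eraseIdx (i - 1)` (Mathlib `List.eraseIdx_eraseIdx...`?), signs cancel in pairs; or
by the recursion `∂ (y :: l) = l - y :: ∂ l`. `chain_empty`: `ht y_1 y_1 < ht y_1 y_2 < … < ht y_1 y_k ≤
ht y_1 (u y_1) ≤ M`, so `k ≤ M + 1`.
-/

namespace D687Dom

private theorem ChainSq_erase {A : Type} (l : List A) : ∀ i j : ℕ, i ≤ j →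
    (l.eraseIdx i).eraseIdx j = (l.eraseIdx (j + 1)).eraseIdx i := by
  induction l with
  | nil => intro i j _; simp
  | cons a l ih =>
    intro i j hij
    cases i with
    | zero => simp
    | succ i =>
      cases j with
      | zero => omega
      | succ j =>
        simp only [List.eraseIdx_cons_succ]
        rw [ih i j (by omega)]

private theorem ChainSq_single {Y : Type} [PartialOrder Y] (u : Y ≃o Y) (N : Type)
    [AddCommGroup N] (k : ℕ) (l : Chain u (k + 1)) (n : N) : bdry u N k (Finsupp.single l n) =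
    ∑ i : Fin (k + 1), ((-1 : ℤ) ^ (i : ℕ)) • Finsupp.single (Chain.face i l) n := by
  rw [bdry, AddMonoidHom.finsetSum_apply]
  refine Finset.sum_congr rfl fun i _ => ?_
  rw [AddMonoidHom.smul_apply, Finsupp.mapDomain.addMonoidHom_apply, Finsupp.mapDomain_single]

/-- the involution on pairs of indices -/
private def ChainSq_inv (k : ℕ) (p : Fin (k + 2) × Fin (k + 1)) : Fin (k + 2) × Fin (k + 1) :=
  if h : p.2.1 < p.1.1 then (⟨p.2.1, by omega⟩, ⟨p.1.1 - 1, by omega⟩)
  else (⟨p.2.1 + 1, by omega⟩, ⟨p.1.1, by omega⟩)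

private theorem ChainSq_inv_pos {k : ℕ} {p : Fin (k + 2) × Fin (k + 1)} (h : p.2.1 < p.1.1) :
    ChainSq_inv k p = (⟨p.2.1, by omega⟩, ⟨p.1.1 - 1, by omega⟩) := by
  unfold ChainSq_inv
  rw [dif_pos h]

private theorem ChainSq_inv_neg {k : ℕ} {p : Fin (k + 2) × Fin (k + 1)} (h : ¬ p.2.1 < p.1.1) :
    ChainSq_inv k p = (⟨p.2.1 + 1, by omega⟩, ⟨p.1.1, by omega⟩) := by
  unfold ChainSq_inv
  rw [dif_neg h]

theorem bdry_bdry {Y : Type} [PartialOrder Y] (u : Y ≃o Y) (N : Type) [AddCommGroup N] (k : ℕ)
    (x : Chain u (k + 2) →₀ N) : bdry u N k (bdry u N (k + 1) x) = 0 := by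
  induction x using Finsupp.induction_linear with
  | zero => rw [map_zero, map_zero]
  | add x y hx hy => rw [map_add, map_add, hx, hy, add_zero]
  | single l n =>
    rw [ChainSq_single, map_sum]
    have h1 : ∀ i : Fin (k + 2), bdry u N k (((-1 : ℤ) ^ (i : ℕ)) •
        Finsupp.single (Chain.face i l) n) = ∑ j : Fin (k + 1),
        ((-1 : ℤ) ^ ((i : ℕ) + (j : ℕ))) • Finsupp.single (Chain.face j (Chain.face i l)) n := by
      intro i
      rw [map_zsmul, ChainSq_single, Finset.smul_sum]
      refine Finset.sum_congr rfl fun j _ => ?_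
      rw [smul_smul, pow_add]
    rw [Finset.sum_congr rfl fun i _ => h1 i, ← Finset.sum_product' (s := Finset.univ)
      (t := Finset.univ) (f := fun (i : Fin (k + 2)) (j : Fin (k + 1)) =>
      ((-1 : ℤ) ^ ((i : ℕ) + (j : ℕ))) • Finsupp.single (Chain.face j (Chain.face i l)) n)]
    refine Finset.sum_involution (fun p _ => ChainSq_inv k p) ?_ ?_ ?_ ?_
    · rintro ⟨i, j⟩ -
      by_cases h : j.1 < i.1
      · rw [ChainSq_inv_pos (p := (i, j)) h]
        have h2 : Chain.face (⟨i.1 - 1, by omega⟩ : Fin (k + 1))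
            (Chain.face (⟨j.1, by omega⟩ : Fin (k + 2)) l) = Chain.face j (Chain.face i l) := by
          apply Subtype.ext
          change (l.1.eraseIdx j.1).eraseIdx (i.1 - 1) = (l.1.eraseIdx i.1).eraseIdx j.1
          rw [ChainSq_erase l.1 j.1 (i.1 - 1) (by omega)]
          congr 2
          omega
        simp only
        rw [h2, ← add_smul]
        have h3 : (-1 : ℤ) ^ (i.1 + j.1) + (-1) ^ (j.1 + (i.1 - 1)) = 0 := by
          have : i.1 + j.1 = (j.1 + (i.1 - 1)) + 1 := by omega
          rw [this, pow_succ]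
          ring
        rw [h3, zero_smul]
      · rw [ChainSq_inv_neg (p := (i, j)) h]
        have h2 : Chain.face (⟨i.1, by omega⟩ : Fin (k + 1))
            (Chain.face (⟨j.1 + 1, by omega⟩ : Fin (k + 2)) l) =
            Chain.face j (Chain.face i l) := by
          apply Subtype.ext
          change (l.1.eraseIdx (j.1 + 1)).eraseIdx i.1 = (l.1.eraseIdx i.1).eraseIdx j.1
          rw [ChainSq_erase l.1 i.1 j.1 (by omega)]
        simp only
        rw [h2, ← add_smul]
        have h3 : (-1 : ℤ) ^ (i.1 + j.1) + (-1) ^ (j.1 + 1 + i.1) = 0 := by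
          have : j.1 + 1 + i.1 = (i.1 + j.1) + 1 := by omega
          rw [this, pow_succ]
          ring
        rw [h3, zero_smul]
    · rintro ⟨i, j⟩ - - h2
      by_cases h : j.1 < i.1
      · rw [ChainSq_inv_pos (p := (i, j)) h] at h2
        have h3 := congrArg (fun q : Fin (k + 2) × Fin (k + 1) => q.1.1) h2
        simp only at h3
        omega
      · rw [ChainSq_inv_neg (p := (i, j)) h] at h2
        have h3 := congrArg (fun q : Fin (k + 2) × Fin (k + 1) => q.1.1) h2
        simp only at h3
        omega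
    · rintro p -
      exact Finset.mem_univ _
    · rintro ⟨i, j⟩ -
      by_cases h : j.1 < i.1
      · rw [ChainSq_inv_pos (p := (i, j)) h, ChainSq_inv_neg (by simp only; omega)]
        refine Prod.ext (Fin.ext ?_) (Fin.ext ?_)
        · simp only
          omega
        · rfl
      · rw [ChainSq_inv_neg (p := (i, j)) h, ChainSq_inv_pos (by simp only; omega)]
        refine Prod.ext (Fin.ext ?_) (Fin.ext ?_)
        · rfl
        · simp only
          omega

theorem chain_empty {Y : Type} [Lattice Y] {u : Y ≃o Y} {ht : Y → Y → ℕ} {M : ℕ}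
    (h : IsBox u ht M) (k : ℕ) (hk : M + 1 < k) : IsEmpty (Chain u k) := by
  have key : ∀ (a : Y) (t : List Y) (b : Y), a ≤ b → (b :: t).Pairwise (· < ·) →
      (∀ c ∈ b :: t, c ≤ u a) → t.length + ht a b ≤ M := by
    intro a t
    induction t with
    | nil =>
      intro b hab _ hu
      have h1 := hu b (by simp)
      rw [List.length_nil, zero_add]
      rcases h1.eq_or_lt with h2 | h2
      · rw [h2]
        exact h.ht_u a
      · exact (h.ht_lt a b (u a) hab h2).le.trans (h.ht_u a)
    | cons c t ih =>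
      intro b hab hp hu
      rw [List.pairwise_cons] at hp
      have h1 : b < c := hp.1 c (by simp)
      have h2 := ih c (hab.trans h1.le) hp.2 (fun d hd => hu d (List.mem_cons_of_mem _ hd))
      have h3 := h.ht_lt a b c hab h1
      rw [List.length_cons]
      omega
  refine ⟨fun l => ?_⟩
  obtain ⟨l, hl, hp⟩ := l
  cases l with
  | nil =>
    rw [List.length_nil] at hl
    omega
  | cons a t =>
    rw [List.pairwise_cons] at hp
    cases t with
    | nil =>
      simp only [List.length_cons, List.length_nil] at hl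
      omega
    | cons b t =>
      have h1 := hp.1 b (by simp)
      have h2 := key a t b h1.1.le (hp.2.imp fun h => h.1) (fun c hc => (hp.1 c hc).2)
      have h3 := h.ht_lt a a b le_rfl h1.1
      simp only [List.length_cons] at hl
      omega

theorem bdry_zero_surjective {Y : Type} [PartialOrder Y] [Nonempty Y] (u : Y ≃o Y) (N : Type)
    [AddCommGroup N] : Function.Surjective (bdry u N 0) := by
  intro F
  obtain ⟨y⟩ := ‹Nonempty Y›
  refine ⟨Finsupp.mapDomain (fun _ => (⟨[y], rfl, List.pairwise_singleton _ _⟩ : Chain u 1)) F, ?_⟩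
  have h0 : ∀ c c' : Chain u 0, c = c' := by
    rintro ⟨c, hc, hc2⟩ ⟨c', hc', hc2'⟩
    apply Subtype.ext
    change c = c'
    rw [List.length_eq_zero_iff.1 hc, List.length_eq_zero_iff.1 hc']
  rw [bdry, AddMonoidHom.finsetSum_apply, Fin.sum_univ_one, AddMonoidHom.smul_apply,
    Finsupp.mapDomain.addMonoidHom_apply, ← Finsupp.mapDomain_comp]
  have h1 : (Chain.face (u := u) (0 : Fin 1)) ∘
      (fun _ : Chain u 0 => (⟨[y], rfl, List.pairwise_singleton _ _⟩ : Chain u 1)) = id := by
    funext c
    exact h0 _ _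
  rw [h1, Finsupp.mapDomain_id]
  simp

end D687Dom
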