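import Mathlib

/-!
# Piece O: coinvariants of `p`-groups

`V` finite, `p V = 0`, the `p`-group `Q` acts. If `V ≠ 0` then the differences `g v - v` span a proper
subgroup: `V →+ ZMod p` is a finite `p`-group, non-trivial, `Q` acts on it, the number of fixed points is
divisible by `p` (`IsPGroup.card_modEq_card_fixedPoints`), so there is a fixed `f ≠ 0`, and it kills
all `g v - v`.
-/

namespace D687Dom

private theorem Coinv_dual (p : ℕ) [Fact p.Prime] (V : Type) [AddCommGroup V]
    [Module (ZMod p) V] (v0 : V) (hv0 : v0 ≠ 0) : ∃ f : V →+ ZMod p, f v0 ≠ 0 := by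
  by_contra hc
  push Not at hc
  apply hv0
  have h5 : ∀ φ : V →ₗ[ZMod p] ZMod p, φ v0 = 0 := fun φ => hc φ.toAddMonoidHom
  exact (Module.forall_dual_apply_eq_zero_iff (ZMod p) v0).1 h5

theorem coinv_ne (p : ℕ) [Fact p.Prime] (Q : Type) [Group Q] (hQ : IsPGroup p Q) (V : Type)
    [AddCommGroup V] [DistribMulAction Q V] [Finite V] (hV : ∀ v : V, p • v = 0)
    (h : AddSubgroup.closure {w : V | ∃ (g : Q) (v : V), w = g • v - v} = ⊤) : Subsingleton V := by
  classical
  by_contra hns
  rw [not_subsingleton_iff_nontrivial] at hns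
  obtain ⟨v0, hv0⟩ := exists_ne (0 : V)
  have hf0 : ∃ f : V →+ ZMod p, f v0 ≠ 0 :=
    @Coinv_dual p _ V _ (AddCommGroup.zmodModule hV) v0 hv0
  obtain ⟨f0, hf0⟩ := hf0
  have : Finite (V →+ ZMod p) :=
    Finite.of_injective (fun f : V →+ ZMod p => (f : V → ZMod p)) DFunLike.coe_injective
  letI act : MulAction Q (V →+ ZMod p) :=
    { smul := fun g f => f.comp (DistribSMul.toAddMonoidHom V g⁻¹)
      one_smul := by
        intro f
        ext v
        show f ((1 : Q)⁻¹ • v) = f v
        rw [inv_one, one_smul]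
      mul_smul := by
        intro g g' f
        ext v
        show f ((g * g')⁻¹ • v) = f (g'⁻¹ • g⁻¹ • v)
        rw [mul_inv_rev, mul_smul] }
  have hsm : ∀ (g : Q) (f : V →+ ZMod p) (v : V), (g • f) v = f (g⁻¹ • v) := fun _ _ _ => rfl
  have hdvd : p ∣ Nat.card (V →+ ZMod p) := by
    have h1 : p • f0 = 0 := by
      ext v
      show p • f0 v = 0
      rw [nsmul_eq_mul, CharP.cast_eq_zero, zero_mul]
    have h2 : addOrderOf f0 = p := by
      apply addOrderOf_eq_prime h1
      intro h3
      rw [h3] at hf0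
      exact hf0 rfl
    have h6 := addOrderOf_dvd_natCard f0
    rwa [h2] at h6
  have hz : (0 : V →+ ZMod p) ∈ MulAction.fixedPoints Q (V →+ ZMod p) := by
    intro g
    ext v
    rw [hsm]
    rfl
  obtain ⟨f, hf, hne⟩ := hQ.exists_fixed_point_of_prime_dvd_card_of_fixed_point
    (V →+ ZMod p) hdvd hz
  apply hne
  symm
  have hk : AddSubgroup.closure {w : V | ∃ (g : Q) (v : V), w = g • v - v} ≤ f.ker := by
    rw [AddSubgroup.closure_le]
    rintro w ⟨g, v, rfl⟩
    show f (g • v - v) = 0
    have h4 := congrArg (fun k : V →+ ZMod p => k v) (hf g⁻¹)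
    simp only [hsm, inv_inv] at h4
    rw [map_sub, h4, sub_self]
  rw [h] at hk
  ext v
  exact hk (AddSubgroup.mem_top v)

end D687Dom
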