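import Mathlib

/-!
# Piece G: finite `p`-groups, `p` odd, with a unique subgroup of order `p` are cyclic

Check Mathlib first. Induction on the order. If `G` is not trivial and not cyclic take a maximal subgroup
`A`, cyclic by induction, normal of index `p`, `A = ⟨a⟩` of order `p ^ n`, `n ≥ 1` (else `|G| = p`), and
`b ∉ A`. `b ^ p ∈ A`; if `b ^ p` generates `A` then `b` generates `G`; so `b ^ p = a ^ (p c)`.
`b⁻¹ a b = a ^ u`, `u ^ p ≡ 1 mod p ^ n`, so `u ≡ 1 mod p ^ (n - 1)` (`p` odd), and
`1 + u + .. + u ^ (p - 1) ≡ p mod p ^ n` (`p` odd). Hence an element `b a ^ (± c)` outside `A` has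
`p`-th power `1`, but it is not in `⟨z⟩ ≤ A`: contradiction. Then: a generator `s₀` of the cyclic group `G`
has order `p ^ (a + 1)`, `z = s₀ ^ (p ^ a c)` with `c` prime to `p`, `s := s₀ ^ c`.
-/

namespace D687Dom

private theorem Cyc_semi {G : Type} [Group G] (a b : G) (u : ℤ) (h : a * b = b * a ^ u) (k : ℤ) :
    a ^ k * b = b * a ^ (u * k) := by
  have h1 : SemiconjBy b (a ^ u) a := h.symm
  have h2 := h1.zpow_right k
  rw [← zpow_mul] at h2
  exact h2.symm

private theorem Cyc_semi_pow {G : Type} [Group G] (a b : G) (u : ℤ) (h : a * b = b * a ^ u)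
    (n : ℕ) : a * b ^ n = b ^ n * a ^ (u ^ n) := by
  induction n with
  | zero => simp
  | succ n ih =>
    rw [pow_succ b n, ← mul_assoc, ih, mul_assoc, Cyc_semi a b u h, ← mul_assoc, pow_succ u n,
      mul_comm u]

private theorem Cyc_pow {G : Type} [Group G] (a b : G) (u : ℤ) (h : a * b = b * a ^ u) (j : ℤ)
    (n : ℕ) : (b * a ^ j) ^ n = b ^ n * a ^ (j * ∑ i ∈ Finset.range n, u ^ i) := by
  induction n with
  | zero => simp
  | succ n ih =>
    have h1 : (b * a ^ j) ^ (n + 1) = b ^ n * (a ^ (j * ∑ i ∈ Finset.range n, u ^ i) * b) * a ^ j := by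
      rw [pow_succ, ih]
      group
    rw [h1, Cyc_semi a b u h, ← mul_assoc, ← pow_succ, mul_assoc, ← zpow_add,
      Finset.sum_range_succ']
    congr 2
    rw [mul_add, pow_zero, mul_one]
    congr 1
    rw [Finset.mul_sum, Finset.mul_sum, Finset.mul_sum]
    refine Finset.sum_congr rfl fun i _ => ?_
    ring

/-- the number theory -/
private theorem Cyc_num (p : ℕ) [hpf : Fact p.Prime] (hp : p ≠ 2) (m : ℕ) (u c : ℤ)
    (hu : (p : ℤ) ∣ u - 1) :
    ∃ j : ℤ, ((p : ℤ) ^ m) ∣ p * c + j * ∑ i ∈ Finset.range p, u ^ i := by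
  obtain ⟨v, hv⟩ := hu
  have hodd : Odd p := hpf.out.odd_of_ne_two hp
  have h1 := odd_sq_dvd_geom_sum₂_sub (R := ℤ) 1 v hodd
  obtain ⟨w, hw⟩ := h1
  have hu' : u = 1 + p * v := by linarith
  have hS : ∑ i ∈ Finset.range p, u ^ i = p * (1 + p * w) := by
    have h2 : ∑ i ∈ Finset.range p, ((1 : ℤ) + p * v) ^ i * 1 ^ (p - 1 - i) =
        ∑ i ∈ Finset.range p, u ^ i := by
      rw [hu']
      simp
    rw [h2] at hw
    rw [one_pow, mul_one] at hw
    linear_combination hw
  have hcop : IsCoprime (1 + p * w : ℤ) ((p : ℤ) ^ m) := by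
    refine IsCoprime.pow_right ?_
    exact ⟨1, -w, by ring⟩
  obtain ⟨x, y, hxy⟩ := hcop
  refine ⟨-c * x, ⟨p * c * y, ?_⟩⟩
  rw [hS]
  linear_combination (-(p : ℤ) * c) * hxy

private theorem Cyc_cyclic (p : ℕ) [hpf : Fact p.Prime] (hp : p ≠ 2) (N : ℕ) :
    ∀ (G : Type) [Group G] [Finite G], Nat.card G = N → IsPGroup p G → ∀ z : G, orderOf z = p →
      (∀ t : G, t ^ p = 1 → t ∈ Subgroup.zpowers z) → IsCyclic G := by
  induction N using Nat.strong_induction_on with
  | _ N ih =>
    intro G _ _ hN hG z hz h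
    obtain ⟨n, hn⟩ := IsPGroup.iff_card.1 hG
    have hp1 : 1 < p := hpf.out.one_lt
    have hn0 : n ≠ 0 := by
      rintro rfl
      rw [pow_zero] at hn
      have h1 : orderOf z ∣ Nat.card G := orderOf_dvd_natCard z
      rw [hn, hz] at h1
      have := Nat.le_of_dvd one_pos h1
      omega
    obtain ⟨m, rfl⟩ : ∃ m, n = m + 1 := ⟨n - 1, by omega⟩
    by_cases hm : m = 0
    · subst hm
      exact isCyclic_of_prime_card (p := p) (by rw [hn]; simp)
    obtain ⟨A, hA⟩ := Sylow.exists_subgroup_card_pow_prime (G := G) p (n := m) (by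
      rw [hn]; exact pow_dvd_pow p (Nat.le_succ m))
    have hAi : A.index = p := by
      have h1 := A.card_mul_index
      rw [hA, hn, pow_succ] at h1
      exact Nat.eq_of_mul_eq_mul_left (pow_pos hpf.out.pos m) h1
    have hmin : (Nat.card G).minFac = p := by
      rw [hn]
      exact hpf.out.pow_minFac (by omega)
    have hAn : A.Normal := Subgroup.normal_of_index_eq_minFac_card (by rw [hAi, hmin])
    -- `z ∈ A`
    have hAp : IsPGroup p A := hG.to_subgroup A
    have hzA : z ∈ A := by
      have h1 : p ∣ Nat.card A := by rw [hA]; exact dvd_pow_self p hm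
      obtain ⟨t, ht⟩ := exists_prime_orderOf_dvd_card' p h1
      have ht1 : orderOf (t : G) = p := by
        rw [← ht]; exact Subgroup.orderOf_coe t
      have ht2 : (t : G) ∈ Subgroup.zpowers z := h t (by
        rw [← ht1]; exact pow_orderOf_eq_one _)
      have ht3 : Subgroup.zpowers (t : G) = Subgroup.zpowers z := by
        refine Subgroup.eq_of_le_of_card_ge ?_ ?_
        · rw [Subgroup.zpowers_le]; exact ht2
        · rw [Nat.card_zpowers, Nat.card_zpowers, ht1, hz]
      have ht4 : z ∈ Subgroup.zpowers (t : G) := by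
        rw [ht3]; exact Subgroup.mem_zpowers z
      exact (Subgroup.zpowers_le.2 t.2) ht4
    have hAc : IsCyclic A := by
      refine ih (Nat.card A) ?_ A rfl hAp ⟨z, hzA⟩ ?_ ?_
      · rw [← hN, hA, hn]
        exact Nat.pow_lt_pow_right hp1 (Nat.lt_succ_self m)
      · rw [← hz, ← Subgroup.orderOf_coe]
      · intro t ht
        have h1 : (t : G) ^ p = 1 := by
          rw [← Subgroup.coe_pow, ht, Subgroup.coe_one]
        obtain ⟨k, hk⟩ := Subgroup.mem_zpowers_iff.1 (h t h1)
        refine Subgroup.mem_zpowers_iff.2 ⟨k, ?_⟩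
        ext
        rw [Subgroup.coe_zpow]
        exact hk
    obtain ⟨⟨a, haA⟩, ha⟩ := hAc.exists_generator
    have hgen : ∀ x ∈ A, ∃ k : ℤ, a ^ k = x := by
      intro x hx
      obtain ⟨k, hk⟩ := Subgroup.mem_zpowers_iff.1 (ha ⟨x, hx⟩)
      refine ⟨k, ?_⟩
      have := congrArg Subtype.val hk
      simpa using this
    have hAz : A = Subgroup.zpowers a := by
      refine le_antisymm ?_ (by rw [Subgroup.zpowers_le]; exact haA)
      intro x hx
      obtain ⟨k, hk⟩ := hgen x hx
      exact Subgroup.mem_zpowers_iff.2 ⟨k, hk⟩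
    have hao : orderOf a = p ^ m := by
      rw [← Nat.card_zpowers, ← hAz, hA]
    -- `b ∉ A`
    obtain ⟨b, hb⟩ : ∃ b, b ∉ A := by
      by_contra hcon
      push Not at hcon
      have h1 : A = ⊤ := by
        ext x; simp [hcon x]
      rw [h1, Subgroup.index_top] at hAi
      omega
    have hbp : b ^ p ∈ A := by
      have h1 : (QuotientGroup.mk b : G ⧸ A) ^ p = 1 := by
        rw [← hAi, Subgroup.index]
        exact pow_card_eq_one'
      rw [← QuotientGroup.mk_pow, QuotientGroup.eq_one_iff] at h1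
      exact h1
    obtain ⟨k, hk⟩ := hgen _ hbp
    by_cases hpk : (p : ℤ) ∣ k
    · exfalso
      obtain ⟨c, rfl⟩ := hpk
      obtain ⟨u, hu⟩ := hgen (b⁻¹ * a * b) (by
        have := hAn.conj_mem a haA b⁻¹
        simpa using this)
      have hsemi : a * b = b * a ^ u := by
        rw [hu]; group
      have hup : a ^ (u ^ p) = a ^ (1 : ℤ) := by
        have h1 := Cyc_semi_pow a b u hsemi p
        have h2 : a * b ^ p = b ^ p * a := by
          rw [← hk]
          exact (Commute.refl a).zpow_right _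
        rw [h2] at h1
        rw [zpow_one]
        exact (mul_left_cancel h1).symm
      have hpu : (p : ℤ) ∣ u - 1 := by
        have h1 : (orderOf a : ℤ) ∣ u ^ p - 1 := by
          rw [orderOf_dvd_iff_zpow_eq_one, zpow_sub, hup, mul_inv_cancel]
        have h2 : (p : ℤ) ∣ u ^ p - 1 := by
          refine dvd_trans ?_ h1
          rw [hao]
          exact_mod_cast dvd_pow_self p hm
        rw [← ZMod.intCast_zmod_eq_zero_iff_dvd] at h2 ⊢
        push_cast at h2 ⊢
        rwa [ZMod.pow_card] at h2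
      obtain ⟨j, hj⟩ := Cyc_num p hp m u c hpu
      have hx : (b * a ^ j) ^ p = 1 := by
        rw [Cyc_pow a b u hsemi, ← hk, ← zpow_add, ← orderOf_dvd_iff_zpow_eq_one, hao]
        exact_mod_cast hj
      have h1 := h _ hx
      have h2 : b * a ^ j ∈ A := (Subgroup.zpowers_le.2 hzA) h1
      exact hb ((Subgroup.mul_mem_cancel_right A (A.zpow_mem haA j)).1 h2)
    · -- `b` generates
      have h1 : IsCoprime k ((p : ℤ) ^ m) := by
        refine IsCoprime.pow_right ?_
        rw [isCoprime_comm, (Nat.prime_iff_prime_int.1 hpf.out).coprime_iff_not_dvd]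
        exact hpk
      obtain ⟨x, y, hxy⟩ := h1
      have h2 : a ∈ Subgroup.zpowers b := by
        have h3 : a = (b ^ p) ^ x := by
          rw [← hk, ← zpow_mul]
          have h4 : k * x = 1 - y * (p : ℤ) ^ m := by linear_combination hxy
          rw [h4, zpow_sub, zpow_one, mul_comm y, zpow_mul]
          have h5 : a ^ ((p : ℤ) ^ m) = 1 := by
            rw [← orderOf_dvd_iff_zpow_eq_one, hao]
            exact_mod_cast dvd_refl _
          rw [h5, one_zpow, inv_one, mul_one]
        rw [h3]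
        exact Subgroup.zpow_mem _ (Subgroup.pow_mem _ (Subgroup.mem_zpowers b) p) x
      have h3 : A ≤ Subgroup.zpowers b := by
        rw [hAz, Subgroup.zpowers_le]; exact h2
      have h4 : Subgroup.zpowers b = ⊤ := by
        have h5 : (Subgroup.zpowers b).index ∣ A.index := Subgroup.index_dvd_of_le h3
        rw [hAi] at h5
        rcases (Nat.dvd_prime hpf.out).1 h5 with h6 | h6
        · exact Subgroup.index_eq_one.1 h6
        · exfalso
          have h7 : A = Subgroup.zpowers b := by
            refine Subgroup.eq_of_le_of_card_ge h3 ?_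
            have e1 := A.card_mul_index
            have e2 := (Subgroup.zpowers b).card_mul_index
            rw [hAi] at e1
            rw [h6, ← e1] at e2
            exact (Nat.eq_of_mul_eq_mul_right hpf.out.pos e2).le
          exact hb (h7 ▸ Subgroup.mem_zpowers b)
      refine ⟨b, fun x => ?_⟩
      show x ∈ Subgroup.zpowers b
      rw [h4]; trivial

theorem exists_generator (p : ℕ) [Fact p.Prime] (hp : p ≠ 2) (G : Type) [Group G] [Finite G]
    (hG : IsPGroup p G) (z : G) (hz : orderOf z = p)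
    (h : ∀ t : G, t ^ p = 1 → t ∈ Subgroup.zpowers z) :
    ∃ (s : G) (a : ℕ), (∀ g : G, g ∈ Subgroup.zpowers s) ∧ s ^ (p ^ a) = z := by
  have hpp : p.Prime := Fact.out
  have hcyc : IsCyclic G := Cyc_cyclic p hp _ G rfl hG z hz h
  obtain ⟨g, hg⟩ := hcyc.exists_generator
  obtain ⟨n, hn⟩ := IsPGroup.iff_card.1 hG
  have hgo : orderOf g = p ^ n := by
    rw [← hn]
    exact orderOf_eq_card_of_forall_mem_zpowers hg
  have hn0 : n ≠ 0 := by
    rintro rfl
    rw [pow_zero] at hn
    have h1 : orderOf z ∣ Nat.card G := orderOf_dvd_natCard z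
    rw [hn, hz] at h1
    have := Nat.le_of_dvd one_pos h1
    have := hpp.one_lt
    omega
  obtain ⟨m, rfl⟩ : ∃ m, n = m + 1 := ⟨n - 1, by omega⟩
  obtain ⟨k, hk⟩ : ∃ k : ℕ, g ^ k = z := by
    have := hg z
    rw [← mem_powers_iff_mem_zpowers] at this
    obtain ⟨k, hk⟩ := this
    exact ⟨k, hk⟩
  have h1 : p ^ m ∣ k := by
    have h2 : g ^ (k * p) = 1 := by
      rw [pow_mul, hk, ← hz]
      exact pow_orderOf_eq_one z
    have h3 := orderOf_dvd_of_pow_eq_one h2
    rw [hgo, pow_succ] at h3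
    exact Nat.dvd_of_mul_dvd_mul_right hpp.pos h3
  obtain ⟨c, rfl⟩ := h1
  have hc : ¬ p ∣ c := by
    rintro ⟨d, rfl⟩
    have h4 : g ^ (p ^ m * (p * d)) = 1 := by
      have : p ^ m * (p * d) = orderOf g * d := by rw [hgo]; ring
      rw [this, pow_mul, pow_orderOf_eq_one, one_pow]
    rw [h4] at hk
    rw [← hk, orderOf_one] at hz
    exact hpp.one_lt.ne hz
  have hcop : (orderOf g).Coprime c := by
    rw [hgo]
    exact ((Nat.Prime.coprime_iff_not_dvd hpp).2 hc).pow_left _
  refine ⟨g ^ c, m, ?_, ?_⟩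
  · have h5 : Subgroup.zpowers (g ^ c) = ⊤ := by
      refine Subgroup.eq_top_of_card_eq _ ?_
      rw [Nat.card_zpowers, hcop.orderOf_pow, hgo, hn]
    intro x
    rw [h5]; trivial
  · rw [← pow_mul, mul_comm, hk]

end D687Dom
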