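import Mathlib

/-!
# The ring `O[Γ] / (z - ζ)`: definitions

`O` is a discrete valuation ring with uniformiser `1 - ζ`, `ζ ^ p = 1`, and residue field `ZMod p`;
`Γ` is a group with a central element `z` of order `p`. `Tw z ζ = O[Γ] / (z - ζ)`.
-/

open MonoidAlgebra

namespace D687Dom

/-- `1 - ζ` is a uniformiser, `ζ ^ p = 1`, the residue field is `ZMod p`. -/
structure IsZeta (p : ℕ) {O : Type} [CommRing O] (ζ : O) : Prop where
  pow : ζ ^ p = 1
  irr : Irreducible (1 - ζ)
  res : ∀ x : O, ∃ n : ℕ, (1 - ζ) ∣ x - n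

section

variable {O Γ : Type} [CommRing O] [Group Γ]

/-- The relation `z = ζ`. -/
inductive TwRel (z : Γ) (ζ : O) : MonoidAlgebra O Γ → MonoidAlgebra O Γ → Prop
  | mk : TwRel z ζ (MonoidAlgebra.of O Γ z) (algebraMap O (MonoidAlgebra O Γ) ζ)

/-- `O[Γ] / (z - ζ)` -/
def Tw (z : Γ) (ζ : O) : Type := RingQuot (TwRel z ζ)

noncomputable instance (z : Γ) (ζ : O) : Ring (Tw z ζ) :=
  inferInstanceAs (Ring (RingQuot (TwRel z ζ)))

noncomputable instance (z : Γ) (ζ : O) : Algebra O (Tw z ζ) :=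
  inferInstanceAs (Algebra O (RingQuot (TwRel z ζ)))

namespace Tw

variable (z : Γ) (ζ : O)

/-- the quotient map -/
noncomputable def mk : MonoidAlgebra O Γ →ₐ[O] Tw z ζ := RingQuot.mkAlgHom O (TwRel z ζ)

/-- the image of a group element -/
noncomputable def of : Γ →* Tw z ζ := (mk z ζ : MonoidAlgebra O Γ →* Tw z ζ).comp (MonoidAlgebra.of O Γ)

theorem mk_surjective : Function.Surjective (mk z ζ) := RingQuot.mkAlgHom_surjective O _

theorem of_z : of z ζ z = algebraMap O (Tw z ζ) ζ := by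
  have h := RingQuot.mkAlgHom_rel O (TwRel.mk (z := z) (ζ := ζ))
  have h2 : mk z ζ (algebraMap O (MonoidAlgebra O Γ) ζ) = algebraMap O (Tw z ζ) ζ :=
    (mk z ζ).commutes ζ
  rw [← h2]
  exact h

variable {z ζ}

/-- the universal property -/
noncomputable def lift {A : Type} [Ring A] [Algebra O A] (f : Γ →* A)
    (hf : f z = algebraMap O A ζ) : Tw z ζ →ₐ[O] A :=
  RingQuot.liftAlgHom O ⟨MonoidAlgebra.lift O A Γ f, by
    rintro _ _ ⟨⟩
    rw [MonoidAlgebra.lift_of, hf, AlgHom.commutes]⟩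

theorem lift_of {A : Type} [Ring A] [Algebra O A] (f : Γ →* A)
    (hf : f z = algebraMap O A ζ) (g : Γ) : lift f hf (of z ζ g) = f g := by
  have h := RingQuot.liftAlgHom_mkAlgHom_apply O (MonoidAlgebra.lift O A Γ f) (s := TwRel z ζ) (by
    rintro _ _ ⟨⟩
    rw [MonoidAlgebra.lift_of, hf, AlgHom.commutes]) (MonoidAlgebra.of O Γ g)
  exact h.trans (MonoidAlgebra.lift_of f g)

/-- induction -/
theorem induction {P : Tw z ζ → Prop} (h0 : P 0) (hadd : ∀ a b, P a → P b → P (a + b))
    (hsingle : ∀ (c : O) (g : Γ), P (c • of z ζ g)) (r : Tw z ζ) : P r := by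
  obtain ⟨x, rfl⟩ := mk_surjective z ζ r
  induction x using MonoidAlgebra.induction_linear with
  | zero => rw [map_zero]; exact h0
  | add a b ha hb => rw [map_add]; exact hadd _ _ ha hb
  | single g c =>
    have : (MonoidAlgebra.single g c : MonoidAlgebra O Γ) = c • MonoidAlgebra.of O Γ g := by
      rw [MonoidAlgebra.of_apply, MonoidAlgebra.smul_single, smul_eq_mul, mul_one]
    have h2 : mk z ζ (MonoidAlgebra.single g c) = c • of z ζ g := by
      rw [this, map_smul]
      rfl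
    exact h2 ▸ hsingle c g

/-- An `O`-linear map commuting with `Γ` is linear over `Tw z ζ`. -/
noncomputable def toLinear {N N' : Type} [AddCommGroup N] [AddCommGroup N'] [Module (Tw z ζ) N]
    [Module (Tw z ζ) N'] [Module O N] [Module O N'] [IsScalarTower O (Tw z ζ) N]
    [IsScalarTower O (Tw z ζ) N'] (φ : N →ₗ[O] N')
    (h : ∀ g n, φ (of z ζ g • n) = of z ζ g • φ n) : N →ₗ[Tw z ζ] N' where
  toFun := φ
  map_add' := map_add φ
  map_smul' r n := by
    rw [RingHom.id_apply]
    induction r using Tw.induction with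
    | h0 => rw [zero_smul, zero_smul, map_zero]
    | hadd a b ha hb => rw [add_smul, add_smul, map_add, ha, hb]
    | hsingle c g => rw [smul_assoc, map_smul, h, smul_assoc]

@[simp] theorem toLinear_apply {N N' : Type} [AddCommGroup N] [AddCommGroup N']
    [Module (Tw z ζ) N] [Module (Tw z ζ) N'] [Module O N] [Module O N']
    [IsScalarTower O (Tw z ζ) N] [IsScalarTower O (Tw z ζ) N'] (φ : N →ₗ[O] N')
    (h : ∀ g n, φ (of z ζ g • n) = of z ζ g • φ n) (n : N) : toLinear φ h n = φ n := rfl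

end Tw

/-! ### Twisted permutation modules -/

/-- `z` acts trivially on `X`. -/
class ZTriv (z : Γ) (X : Type) [MulAction Γ X] : Prop where
  smul_eq : ∀ x : X, z • x = x

/-- `X →₀ N` with the action `g • (n at x) = (g • n at g • x)`. -/
def TwF (X N : Type) [AddCommGroup N] : Type := X →₀ N

section TwF

variable {z : Γ} {ζ : O} {X X' N : Type} [AddCommGroup N] [Module (Tw z ζ) N] [Module O N]
  [IsScalarTower O (Tw z ζ) N] [MulAction Γ X] [MulAction Γ X']

noncomputable instance : AddCommGroup (TwF X N) := inferInstanceAs (AddCommGroup (X →₀ N))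

noncomputable instance : Module O (TwF X N) := inferInstanceAs (Module O (X →₀ N))

variable (O X N) in
/-- the underlying function -/
noncomputable def TwF.e : TwF X N ≃ₗ[O] (X →₀ N) := LinearEquiv.refl O (X →₀ N)

/-- `n` at `x` -/
noncomputable def TwF.single (x : X) (n : N) : TwF X N := (Finsupp.single x n : X →₀ N)

omit [MulAction Γ X] [MulAction Γ X'] [Module (Tw z ζ) N] [IsScalarTower O (Tw z ζ) N] in
theorem TwF.e_single (x : X) (n : N) : TwF.e O X N (TwF.single x n) = Finsupp.single x n := rfl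

omit [MulAction Γ X] [MulAction Γ X'] [Module (Tw z ζ) N] [IsScalarTower O (Tw z ζ) N] in
theorem TwF.e_symm_single (x : X) (n : N) :
    (TwF.e O X N).symm (Finsupp.single x n) = TwF.single x n := rfl

omit [MulAction Γ X] [MulAction Γ X'] [Module (Tw z ζ) N] [IsScalarTower O (Tw z ζ) N] in
theorem TwF.hom_ext {M : Type} [AddCommGroup M] [Module O M] {f g : TwF X N →ₗ[O] M}
    (h : ∀ x n, f (TwF.single x n) = g (TwF.single x n)) : f = g := by
  have h2 : f ∘ₗ (TwF.e O X N).symm.toLinearMap = g ∘ₗ (TwF.e O X N).symm.toLinearMap :=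
    Finsupp.lhom_ext h
  refine LinearMap.ext fun F => ?_
  exact LinearMap.congr_fun h2 (TwF.e O X N F)

/-- The action of `g : Γ` on `X →₀ N`. -/
noncomputable def TwF.act0 (z : Γ) (ζ : O) (X N : Type) [AddCommGroup N] [Module (Tw z ζ) N]
    [Module O N] [IsScalarTower O (Tw z ζ) N] [MulAction Γ X] (g : Γ) :
    TwF X N →ₗ[O] TwF X N :=
  (TwF.e O X N).symm.toLinearMap ∘ₗ (Finsupp.lmapDomain N O (fun x : X => g • x)) ∘ₗ
    Finsupp.mapRange.linearMap (DistribSMul.toLinearMap O N (Tw.of z ζ g)) ∘ₗ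
    (TwF.e O X N).toLinearMap

theorem TwF.act0_single (g : Γ) (x : X) (n : N) :
    TwF.act0 z ζ X N g (TwF.single x n) = TwF.single (g • x) (Tw.of z ζ g • n) := by
  change (TwF.e O X N).symm (Finsupp.lmapDomain N O (fun x : X => g • x)
    (Finsupp.mapRange.linearMap (DistribSMul.toLinearMap O N (Tw.of z ζ g)) (Finsupp.single x n))) =
    TwF.single (g • x) (Tw.of z ζ g • n)
  rw [Finsupp.mapRange.linearMap_apply, Finsupp.mapRange_single, DistribSMul.toLinearMap_apply,
    Finsupp.lmapDomain_apply, Finsupp.mapDomain_single, TwF.e_symm_single]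

/-- The action of `Γ` on `X →₀ N`. -/
noncomputable def TwF.act (z : Γ) (ζ : O) (X N : Type) [AddCommGroup N] [Module (Tw z ζ) N]
    [Module O N] [IsScalarTower O (Tw z ζ) N] [MulAction Γ X] :
    Γ →* Module.End O (TwF X N) where
  toFun g := TwF.act0 z ζ X N g
  map_one' := TwF.hom_ext fun x n => by
    rw [TwF.act0_single, one_smul, map_one, one_smul]
    rfl
  map_mul' g h := TwF.hom_ext fun x n => by
    rw [Module.End.mul_apply, TwF.act0_single, TwF.act0_single, TwF.act0_single, mul_smul,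
      map_mul, mul_smul]

theorem TwF.act_single (g : Γ) (x : X) (n : N) :
    TwF.act z ζ X N g (TwF.single x n) = TwF.single (g • x) (Tw.of z ζ g • n) :=
  TwF.act0_single g x n

omit [MulAction Γ X] [MulAction Γ X'] [Module (Tw z ζ) N] [IsScalarTower O (Tw z ζ) N] in
theorem TwF.smul_single (c : O) (x : X) (n : N) :
    c • (TwF.single x n : TwF X N) = TwF.single x (c • n) := Finsupp.smul_single c x n

theorem TwF.act_z [ZTriv z X] :
    TwF.act z ζ X N z = algebraMap O (Module.End O (TwF X N)) ζ := TwF.hom_ext fun x n => by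
  rw [TwF.act_single, ZTriv.smul_eq, Tw.of_z, algebraMap_smul, Module.algebraMap_end_apply,
    TwF.smul_single]

/-- the ring homomorphism which defines the module structure -/
noncomputable def TwF.hom (z : Γ) (ζ : O) (X N : Type) [AddCommGroup N] [Module (Tw z ζ) N]
    [Module O N] [IsScalarTower O (Tw z ζ) N] [MulAction Γ X] [ZTriv z X] :
    Tw z ζ →ₐ[O] Module.End O (TwF X N) :=
  Tw.lift (TwF.act z ζ X N) TwF.act_z

noncomputable instance [ZTriv z X] : Module (Tw z ζ) (TwF X N) :=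
  Module.compHom (TwF X N) (TwF.hom z ζ X N : Tw z ζ →+* Module.End O (TwF X N))

theorem TwF.smul_def [ZTriv z X] (r : Tw z ζ) (F : TwF X N) : r • F = TwF.hom z ζ X N r F := rfl

instance [ZTriv z X] : IsScalarTower O (Tw z ζ) (TwF X N) where
  smul_assoc c r F := by
    rw [TwF.smul_def, TwF.smul_def, map_smul, LinearMap.smul_apply]

theorem TwF.of_smul [ZTriv z X] (g : Γ) (F : TwF X N) :
    Tw.of z ζ g • F = TwF.act z ζ X N g F := by
  rw [TwF.smul_def, TwF.hom, Tw.lift_of]

theorem TwF.of_smul_single [ZTriv z X] (g : Γ) (x : X) (n : N) :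
    Tw.of z ζ g • TwF.single x n = TwF.single (g • x) (Tw.of z ζ g • n) := by
  rw [TwF.of_smul, TwF.act_single]

/-- `Finsupp.mapDomain` as an `O`-linear map -/
noncomputable def TwF.map0 (O : Type) [CommRing O] (N : Type) [AddCommGroup N] [Module O N]
    (f : X → X') : TwF X N →ₗ[O] TwF X' N :=
  (TwF.e O X' N).symm.toLinearMap ∘ₗ (Finsupp.lmapDomain N O f) ∘ₗ (TwF.e O X N).toLinearMap

omit [MulAction Γ X] [MulAction Γ X'] [Module (Tw z ζ) N] [IsScalarTower O (Tw z ζ) N] in
theorem TwF.map0_single (f : X → X') (x : X) (n : N) :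
    TwF.map0 O N f (TwF.single x n) = TwF.single (f x) n := by
  change (TwF.e O X' N).symm (Finsupp.lmapDomain N O f (Finsupp.single x n)) = _
  rw [Finsupp.lmapDomain_apply, Finsupp.mapDomain_single, TwF.e_symm_single]

/-- An equivariant map `X → X'` induces a linear map. -/
noncomputable def TwF.map (z : Γ) (ζ : O) (N : Type) [AddCommGroup N] [Module (Tw z ζ) N]
    [Module O N] [IsScalarTower O (Tw z ζ) N] [ZTriv z X] [ZTriv z X'] (f : X → X')
    (hf : ∀ (g : Γ) x, f (g • x) = g • f x) : TwF X N →ₗ[Tw z ζ] TwF X' N :=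
  Tw.toLinear (TwF.map0 O N f) (by
    intro g F
    rw [TwF.of_smul, TwF.of_smul, ← LinearMap.comp_apply, ← LinearMap.comp_apply]
    congr 1
    refine TwF.hom_ext fun x n => ?_
    rw [LinearMap.comp_apply, LinearMap.comp_apply, TwF.act_single, TwF.map0_single,
      TwF.map0_single, TwF.act_single, hf])

theorem TwF.map_apply [ZTriv z X] [ZTriv z X'] (f : X → X')
    (hf : ∀ (g : Γ) x, f (g • x) = g • f x) (F : TwF X N) :
    TwF.map z ζ N f hf F = TwF.map0 O N f F := rfl

end TwF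

/-- `S`-equivariant `O`-linear maps from `N` lift along surjections of `Tw z ζ`-modules. -/
def LiftProp (z : Γ) (ζ : O) (S : Set Γ) (N : Type) [AddCommGroup N] [Module (Tw z ζ) N]
    [Module O N] [IsScalarTower O (Tw z ζ) N] : Prop :=
  ∀ (Q Q' : Type) [AddCommGroup Q] [AddCommGroup Q'] [Module (Tw z ζ) Q] [Module (Tw z ζ) Q']
    [Module O Q] [Module O Q'] [IsScalarTower O (Tw z ζ) Q] [IsScalarTower O (Tw z ζ) Q']
    (f : Q →ₗ[Tw z ζ] Q') (_ : Function.Surjective f) (g : N →ₗ[O] Q')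
    (_ : ∀ s ∈ S, ∀ n, g (Tw.of z ζ s • n) = Tw.of z ζ s • g n),
    ∃ h : N →ₗ[O] Q, (∀ s ∈ S, ∀ n, h (Tw.of z ζ s • n) = Tw.of z ζ s • h n) ∧
      ∀ n, f (h n) = g n

end

/-! ### Chains in boxes of a lattice -/

section

variable {Y : Type} [PartialOrder Y]

/-- Chains `y_1 < … < y_k` with `y_k ≤ u y_1`, as lists. -/
def Chain (u : Y ≃o Y) (k : ℕ) : Type :=
  {l : List Y // l.length = k ∧ l.Pairwise fun a b => a < b ∧ b ≤ u a}

/-- omit the `i`-th element -/
def Chain.face {u : Y ≃o Y} {k : ℕ} (i : Fin (k + 1)) (l : Chain u (k + 1)) : Chain u k :=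
  ⟨l.1.eraseIdx i, by
    rw [List.length_eraseIdx_of_lt (by rw [l.2.1]; exact i.2), l.2.1]
    rfl, l.2.2.sublist (List.eraseIdx_sublist _ _)⟩

/-- the boundary map with coefficients in `N` -/
noncomputable def bdry (u : Y ≃o Y) (N : Type) [AddCommGroup N] (k : ℕ) :
    (Chain u (k + 1) →₀ N) →+ (Chain u k →₀ N) :=
  ∑ i : Fin (k + 1), ((-1 : ℤ) ^ (i : ℕ)) • Finsupp.mapDomain.addMonoidHom (Chain.face i)

end

/-- The properties of the lattice `ℤ ^ M` with the shift `u y = y + 1` and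
`ht a b = ∑ (b_i - a_i)⁺`. -/
structure IsBox {Y : Type} [Lattice Y] (u : Y ≃o Y) (ht : Y → Y → ℕ) (M : ℕ) : Prop where
  ht_lt : ∀ a b c, a ≤ b → b < c → ht a b < ht a c
  ht_u : ∀ a, ht a (u a) ≤ M
  sup_lt : ∀ a b, a < b → u.symm b ⊔ a < b

/-- `Γ` acts on `Y` by order automorphisms commuting with `u`. -/
class BoxAct (Γ : Type) [Group Γ] {Y : Type} [PartialOrder Y] [MulAction Γ Y] (u : Y ≃o Y) :
    Prop where
  smul_le : ∀ (g : Γ) (a b : Y), a ≤ b → g • a ≤ g • b
  smul_u : ∀ (g : Γ) (a : Y), u (g • a) = g • u a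

section

variable {Γ : Type} [Group Γ] {Y : Type} [PartialOrder Y] [MulAction Γ Y] {u : Y ≃o Y}
  [BoxAct Γ u]

theorem BoxAct.smul_lt (u : Y ≃o Y) [BoxAct Γ u] (g : Γ) (a b : Y) (h : a < b) :
    g • a < g • b :=
  lt_of_le_of_ne (BoxAct.smul_le u g a b h.le) fun h2 => h.ne (MulAction.injective g h2)

instance (k : ℕ) : MulAction Γ (Chain u k) where
  smul g l := ⟨l.1.map (g • ·), by rw [List.length_map]; exact l.2.1, by
    rw [List.pairwise_map]
    refine l.2.2.imp fun {a b} h => ⟨BoxAct.smul_lt u g a b h.1, ?_⟩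
    rw [BoxAct.smul_u]
    exact BoxAct.smul_le u g _ _ h.2⟩
  one_smul l := Subtype.ext (by
    change l.1.map ((1 : Γ) • ·) = l.1
    simp)
  mul_smul g h l := Subtype.ext (by
    change l.1.map ((g * h) • ·) = (l.1.map (h • ·)).map (g • ·)
    rw [List.map_map]
    congr 1
    funext y
    exact mul_smul g h y)

theorem Chain.smul_val (g : Γ) {k : ℕ} (l : Chain u k) : (g • l).1 = l.1.map (g • ·) := rfl

theorem Chain.face_smul {k : ℕ} (i : Fin (k + 1)) (g : Γ) (l : Chain u (k + 1)) :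
    Chain.face i (g • l) = g • Chain.face i l := by
  apply Subtype.ext
  change (l.1.map (g • ·)).eraseIdx i = (l.1.eraseIdx i).map (g • ·)
  rw [List.eraseIdx_map]

instance (z : Γ) [ZTriv z Y] (k : ℕ) : ZTriv z (Chain u k) where
  smul_eq l := Subtype.ext (by
    rw [Chain.smul_val]
    have : (fun y : Y => z • y) = id := by
      funext y
      exact ZTriv.smul_eq y
    rw [this, List.map_id])

variable {O : Type} [CommRing O]

/-- the boundary map as a linear map -/
noncomputable def bdryR (z : Γ) (ζ : O) (u : Y ≃o Y) [BoxAct Γ u] [ZTriv z Y] (N : Type)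
    [AddCommGroup N] [Module (Tw z ζ) N] [Module O N] [IsScalarTower O (Tw z ζ) N] (k : ℕ) :
    TwF (Chain u (k + 1)) N →ₗ[Tw z ζ] TwF (Chain u k) N :=
  ∑ i : Fin (k + 1), ((-1 : ℤ) ^ (i : ℕ)) • TwF.map z ζ N (Chain.face i) (Chain.face_smul i)

theorem bdryR_apply (z : Γ) (ζ : O) (u : Y ≃o Y) [BoxAct Γ u] [ZTriv z Y] (N : Type)
    [AddCommGroup N] [Module (Tw z ζ) N] [Module O N] [IsScalarTower O (Tw z ζ) N] (k : ℕ)
    (F : TwF (Chain u (k + 1)) N) : TwF.e O _ N (bdryR z ζ u N k F) =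
      bdry u N k (TwF.e O _ N F) := by
  rw [bdryR, bdry, LinearMap.sum_apply, AddMonoidHom.finsetSum_apply, map_sum]
  refine Finset.sum_congr rfl fun i _ => ?_
  rw [LinearMap.smul_apply, map_zsmul, AddMonoidHom.smul_apply]
  rfl

end

/-! ### The group -/

/-- free abelian group of rank `r`, written multiplicatively -/
abbrev Lam (r : ℕ) : Type := Multiplicative (Fin r → ℤ)

/-- The hypotheses on `Γ`, `z` and the normal subgroup `j (Lam r)`. -/
structure DomData (p : ℕ) {Γ : Type} [Group Γ] (z : Γ) {r : ℕ} (j : Lam r →* Γ) : Prop where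
  comm : ∀ g, g * z = z * g
  ord : orderOf z = p
  tor : ∀ t : Γ, t ^ p = 1 → t ∈ Subgroup.zpowers z
  inj : Function.Injective j
  normal : j.range.Normal
  index : ∃ a, j.range.index = p ^ a

/-- the group ring of `Lam r` acts on `Tw z ζ` -/
noncomputable def sigma {O Γ : Type} [CommRing O] [Group Γ] (z : Γ) (ζ : O) {r : ℕ}
    (j : Lam r →* Γ) : MonoidAlgebra O (Lam r) →ₐ[O] Tw z ζ :=
  MonoidAlgebra.lift O (Tw z ζ) (Lam r) ((Tw.of z ζ).comp j)

end D687Dom
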