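import Pool.Agent.Lib_MP_d687bf_dom.Defs

/-!
# Piece F: `O[X] / (X ^ (p ^ a) - ζ)` is a principal ideal domain

`p ∈ (1 - ζ)` in `O`: with `x = ζ - 1`, `(1 + x) ^ p = 1`, divide by `x ≠ 0`: `p + x * (..) = 0`.
Substitute `X = 1 + Y`: `(1 + Y) ^ (p ^ a) - ζ` is Eisenstein at `(1 - ζ)` (binomial coefficients
divisible by `p`, constant term `1 - ζ`), so irreducible, hence prime over the field of fractions (Gauss,
monic), so `AdjoinRoot f` is a domain. It is local with maximal ideal generated by `y = root - 1`: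
`AdjoinRoot f / (y) = O / (1 - ζ)` is a field, `1 - ζ ∈ (y)`, and `AdjoinRoot f` is integral over the local
ring `O`, so every maximal ideal contains `1 - ζ`; `AdjoinRoot f / (1 - ζ) = k[Y] / Y ^ (p ^ a)` is
local with maximal ideal `(Y)`, so every maximal ideal is `(y)`. A Noetherian local domain with principal
maximal ideal is a PID (`IsDiscreteValuationRing.TFAE`, or field).
-/

open Polynomial

namespace D687Dom

variable {O : Type} [CommRing O] [IsDomain O] [IsDiscreteValuationRing O]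

omit [IsDiscreteValuationRing O] in
private theorem Eisen_dvd_p (p : ℕ) {ζ : O} (hζ : IsZeta p ζ) : (1 - ζ) ∣ (p : O) := by
  have h1 : (∑ i ∈ Finset.range p, ζ ^ i) * (ζ - 1) = ζ ^ p - 1 := geom_sum_mul ζ p
  rw [hζ.pow, sub_self] at h1
  have h2 : ζ - 1 ≠ 0 := by
    intro h
    apply hζ.irr.ne_zero
    rw [← neg_sub, h, neg_zero]
  have h3 : ∑ i ∈ Finset.range p, ζ ^ i = 0 := (mul_eq_zero.mp h1).resolve_right h2
  have h4 : (p : O) = ∑ i ∈ Finset.range p, (1 - ζ ^ i) := by
    rw [Finset.sum_sub_distrib, h3, sub_zero]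
    simp
  rw [h4]
  refine Finset.dvd_sum fun i _ => ?_
  have := sub_dvd_pow_sub_pow (1 : O) ζ i
  rwa [one_pow] at this

private theorem Eisen_irr (p : ℕ) [Fact p.Prime] {ζ : O} (hζ : IsZeta p ζ) (a : ℕ) :
    Irreducible ((X : O[X]) ^ (p ^ a) - C ζ) := by
  have hp : p.Prime := Fact.out
  have hn : p ^ a ≠ 0 := pow_ne_zero _ hp.ne_zero
  set f : O[X] := X ^ (p ^ a) - C ζ with hf
  have hmon : f.Monic := monic_X_pow_sub_C ζ hn
  have hdeg : f.natDegree = p ^ a := natDegree_X_pow_sub_C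
  have hT : taylor 1 f = (X + 1) ^ (p ^ a) - C ζ := by
    rw [hf, map_sub, taylor_X_pow, taylor_C, C_1]
  have hirr : Irreducible (taylor 1 f) := by
    have hmonT : (taylor 1 f).Monic := by
      rw [Monic, leadingCoeff_taylor]
      exact hmon
    have hP : (Ideal.span {1 - ζ}).IsPrime :=
      (Ideal.span_singleton_prime hζ.irr.ne_zero).mpr hζ.irr.prime
    refine (hmonT.isEisensteinAt_of_mem_of_notMem hP.ne_top ?_ ?_).irreducible hP
      hmonT.isPrimitive ?_
    · intro k hk
      rw [natDegree_taylor, hdeg] at hk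
      rw [hT, coeff_sub, coeff_X_add_one_pow, coeff_C]
      by_cases h0 : k = 0
      · subst h0
        rw [if_pos rfl, Nat.choose_zero_right, Nat.cast_one]
        exact Ideal.mem_span_singleton_self _
      · rw [if_neg h0, sub_zero]
        obtain ⟨m, hm⟩ := hp.dvd_choose_pow h0 hk.ne
        rw [hm, Nat.cast_mul]
        exact Ideal.mul_mem_right _ _ (Ideal.mem_span_singleton.mpr (Eisen_dvd_p p hζ))
    · rw [taylor_coeff_zero, Ideal.span_singleton_pow, Ideal.mem_span_singleton]
      have he : eval 1 f = 1 - ζ := by simp [hf]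
      rw [he, pow_two]
      rintro ⟨c, hc⟩
      apply hζ.irr.not_isUnit
      have h1 : (1 - ζ) * ((1 - ζ) * c) = (1 - ζ) * 1 := by rw [mul_one, ← mul_assoc, ← hc]
      exact IsUnit.of_mul_eq_one _ (mul_left_cancel₀ hζ.irr.ne_zero h1)
    · rw [natDegree_taylor, hdeg]
      exact Nat.pos_of_ne_zero hn
  exact (MulEquiv.irreducible_iff (taylorEquiv (1 : O))).mp hirr

theorem adjoin_pid (p : ℕ) [Fact p.Prime] {ζ : O} (hζ : IsZeta p ζ) (a : ℕ) :
    IsDomain (AdjoinRoot ((X : O[X]) ^ (p ^ a) - C ζ)) ∧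
      IsPrincipalIdealRing (AdjoinRoot ((X : O[X]) ^ (p ^ a) - C ζ)) := by
  have hp : p.Prime := Fact.out
  have hn : p ^ a ≠ 0 := pow_ne_zero _ hp.ne_zero
  set f : O[X] := X ^ (p ^ a) - C ζ with hf
  have hmon : f.Monic := monic_X_pow_sub_C ζ hn
  have hdom : IsDomain (AdjoinRoot f) := AdjoinRoot.isDomain_of_prime (Eisen_irr p hζ a).prime
  refine ⟨hdom, ?_⟩
  have hfin : Module.Finite O (AdjoinRoot f) := hmon.finite_adjoinRoot
  have hnoeth : IsNoetherianRing (AdjoinRoot f) := IsNoetherianRing.of_finite O _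
  have hint : Algebra.IsIntegral O (AdjoinRoot f) := inferInstance
  set y : AdjoinRoot f := AdjoinRoot.root f - 1 with hy
  have hroot : AdjoinRoot.root f ^ (p ^ a) = algebraMap O (AdjoinRoot f) ζ := by
    have h1 : AdjoinRoot.mk f f = 0 := AdjoinRoot.mk_self
    rw [hf, map_sub, map_pow, AdjoinRoot.mk_X, AdjoinRoot.mk_C, sub_eq_zero] at h1
    exact h1
  -- every element is a constant modulo `y`
  have hconst : ∀ r : AdjoinRoot f, ∃ c : O, r - algebraMap O (AdjoinRoot f) c ∈ Ideal.span {y} := by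
    intro r
    obtain ⟨g, rfl⟩ := AdjoinRoot.mk_surjective r
    refine ⟨g.eval 1, ?_⟩
    have h1 : (X - C 1 : O[X]) ∣ g - C (g.eval 1) := by
      have := X_sub_C_mul_divByMonic_eq_sub_modByMonic g (1 : O)
      rw [modByMonic_X_sub_C_eq_C_eval] at this
      exact ⟨_, this.symm⟩
    obtain ⟨h, hh⟩ := h1
    rw [Ideal.mem_span_singleton]
    refine ⟨AdjoinRoot.mk f h, ?_⟩
    have h2 : algebraMap O (AdjoinRoot f) (g.eval 1) = AdjoinRoot.mk f (C (g.eval 1)) := rfl
    rw [h2, ← map_sub, hh, map_mul, map_sub, AdjoinRoot.mk_X, hy, C_1, map_one]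
  -- `1 - ζ ∈ (y)`
  have hz : algebraMap O (AdjoinRoot f) (1 - ζ) ∈ Ideal.span {y} := by
    rw [Ideal.mem_span_singleton, map_sub, map_one, ← hroot, hy]
    have h1 := sub_dvd_pow_sub_pow (AdjoinRoot.root f) 1 (p ^ a)
    rw [one_pow] at h1
    rw [← neg_sub (AdjoinRoot.root f ^ (p ^ a)) 1]
    exact (dvd_neg).mpr h1
  -- maximal ideals
  have hmax : ∀ m : Ideal (AdjoinRoot f), m.IsMaximal → m = Ideal.span {y} := by
    intro m hm
    have h1 : m.comap (algebraMap O (AdjoinRoot f)) = Ideal.span {1 - ζ} := by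
      have h2 : (m.comap (algebraMap O (AdjoinRoot f))).IsMaximal :=
        Ideal.isMaximal_comap_of_isIntegral_of_isMaximal m
      have h3 : (Ideal.span {1 - ζ}).IsMaximal :=
        PrincipalIdealRing.isMaximal_of_irreducible hζ.irr
      exact (IsLocalRing.eq_maximalIdeal h2).trans (IsLocalRing.eq_maximalIdeal h3).symm
    have h2 : y ∈ m := by
      have hq : Ideal.Quotient.mk m (p : AdjoinRoot f) = 0 := by
        rw [Ideal.Quotient.eq_zero_iff_mem]
        have h3 : (p : O) ∈ m.comap (algebraMap O (AdjoinRoot f)) := by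
          rw [h1]
          exact Ideal.mem_span_singleton.mpr (Eisen_dvd_p p hζ)
        rw [Ideal.mem_comap, map_natCast] at h3
        exact h3
      rw [map_natCast] at hq
      have hfield : Nontrivial (AdjoinRoot f ⧸ m) := Ideal.Quotient.nontrivial_iff.mpr hm.ne_top
      have hdomq : IsDomain (AdjoinRoot f ⧸ m) := Ideal.Quotient.isDomain m
      have hchar : CharP (AdjoinRoot f ⧸ m) p := (CharP.charP_iff_prime_eq_zero hp).mpr hq
      rw [← Ideal.Quotient.eq_zero_iff_mem]
      refine eq_zero_of_pow_eq_zero (n := p ^ a) ?_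
      rw [hy, map_sub, sub_pow_char_pow, map_one, one_pow, ← map_pow, hroot, ← map_one
        (Ideal.Quotient.mk m), ← map_sub, Ideal.Quotient.eq_zero_iff_mem]
      have h4 : (ζ - 1 : O) ∈ m.comap (algebraMap O (AdjoinRoot f)) := by
        rw [h1, ← neg_sub (1 : O) ζ]
        exact neg_mem (Ideal.mem_span_singleton_self _)
      rw [Ideal.mem_comap, map_sub, map_one] at h4
      exact h4
    apply le_antisymm
    · intro r hr
      obtain ⟨c, hc⟩ := hconst r
      have h3 : Ideal.span {y} ≤ m := (Ideal.span_singleton_le_iff_mem m).mpr h2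
      have h4 : c ∈ m.comap (algebraMap O (AdjoinRoot f)) := by
        rw [Ideal.mem_comap]
        have h5 := m.sub_mem hr (h3 hc)
        rwa [sub_sub_cancel] at h5
      rw [h1, Ideal.mem_span_singleton] at h4
      obtain ⟨d, rfl⟩ := h4
      have h5 : algebraMap O (AdjoinRoot f) ((1 - ζ) * d) ∈ Ideal.span {y} := by
        rw [map_mul]
        exact Ideal.mul_mem_right _ _ hz
      have h6 := (Ideal.span {y}).add_mem hc h5
      rwa [sub_add_cancel] at h6
    · exact (Ideal.span_singleton_le_iff_mem m).mpr h2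
  obtain ⟨m, hm⟩ := Ideal.exists_maximal (AdjoinRoot f)
  have hloc : IsLocalRing (AdjoinRoot f) :=
    IsLocalRing.of_unique_max_ideal ⟨m, hm, fun m' hm' => (hmax m' hm').trans (hmax m hm).symm⟩
  have hprin : (IsLocalRing.maximalIdeal (AdjoinRoot f)).IsPrincipal := by
    rw [hmax _ (IsLocalRing.maximalIdeal.isMaximal _)]
    exact ⟨⟨y, rfl⟩⟩
  exact ((tfae_of_isNoetherianRing_of_isLocalRing_of_isDomain (R := AdjoinRoot f)).out 4 0).mp hprin

end D687Dom
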