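import Pool.Agent.Lib_MP_d687bf_dom.Defs

/-!
# Piece C: the group ring of a free abelian group

`MonoidAlgebra O (Lam r)` is a Noetherian domain: no zero divisors via `UniqueProds` (look for
instances for `Multiplicative (Fin r → ℤ)`: linear order / torsion free, `Pi`), Noetherian because it is
an `O`-algebra of finite type (`Lam r` is finitely generated).
-/

namespace D687Dom

variable {O : Type} [CommRing O]

theorem lam_isDomain [IsDomain O] (r : ℕ) : IsDomain (MonoidAlgebra O (Lam r)) := by
  have h1 : UniqueProds (Lam r) := by
    unfold Lam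
    infer_instance
  have h2 : NoZeroDivisors (MonoidAlgebra O (Lam r)) := inferInstance
  have h3 : Nontrivial (MonoidAlgebra O (Lam r)) := inferInstance
  exact NoZeroDivisors.to_isDomain _

theorem lam_noetherian [IsNoetherianRing O] (r : ℕ) :
    IsNoetherianRing (MonoidAlgebra O (Lam r)) := by
  have h1 : Group.FG (Lam r) := by
    unfold Lam
    infer_instance
  have h0 : Monoid.FG (Lam r) := Group.fg_iff_monoid_fg.1 h1
  have h2 : Algebra.FiniteType O (MonoidAlgebra O (Lam r)) := inferInstance
  exact Algebra.FiniteType.isNoetherianRing O _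

/-- A finitely generated torsion-free commutative group is `Lam r`. -/
theorem exists_lam_equiv (B : Type) [Group B] (hcomm : ∀ a b : B, a * b = b * a)
    (htf : ∀ b : B, ∀ n : ℕ, n ≠ 0 → b ^ n = 1 → b = 1) (hfg : Group.FG B) :
    ∃ r : ℕ, Nonempty (Lam r ≃* B) := by
  let _ : CommGroup B := { mul_comm := hcomm }
  have h1 : AddGroup.FG (Additive B) := inferInstance
  have h2 : Module.Finite ℤ (Additive B) := Module.Finite.iff_addGroup_fg.2 h1
  have h0 : IsAddTorsionFree (Additive B) := by
    constructor
    intro n hn a b hab
    have h5 : (Additive.toMul a) ^ n = (Additive.toMul b) ^ n := hab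
    have h6 : (Additive.toMul a * (Additive.toMul b)⁻¹) ^ n = 1 := by
      rw [mul_pow, h5, inv_pow, mul_inv_cancel]
    have h7 := htf _ n hn h6
    have h8 : (Additive.toMul a : B) = Additive.toMul b := mul_inv_eq_one.1 h7
    exact h8
  have h3 : Module.IsTorsionFree ℤ (Additive B) := inferInstance
  have h4 : Module.Free ℤ (Additive B) := inferInstance
  let b := Module.finBasis ℤ (Additive B)
  refine ⟨Module.finrank ℤ (Additive B), ⟨?_⟩⟩
  exact AddEquiv.toMultiplicativeLeft b.equivFun.toAddEquiv.symm

end D687Dom
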