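import Mathlib

/-!
# Piece E: submodules of free modules over a principal ideal domain are projective

`N ≤ ι →₀ A`. Well-order `ι`. For `i` let `N_i = {x ∈ N : x supported on {j ≤ i}}` and
`c_i` a generator of the ideal `{x i : x ∈ N_i}`, `n_i ∈ N_i` with `n_i i = c_i` (`n_i = 0` if `c_i = 0`).
The `n_i` with `c_i ≠ 0` form a basis of `N`: independence by looking at the largest index, spanning by
well-founded induction on the largest element of the support.
-/

namespace D687Dom

theorem projective_of_le_finsupp {A : Type} [CommRing A] [IsDomain A] [IsPrincipalIdealRing A]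
    {ι : Type} (N : Submodule A (ι →₀ A)) : Module.Projective A N := by
  classical
  obtain ⟨_, hwf⟩ := exists_wellFoundedLT ι
  let L : ι → Submodule A (ι →₀ A) := fun i =>
    { carrier := {x | ∀ j, i < j → x j = 0}
      add_mem' := fun {x y} hx hy j hj => by rw [Finsupp.add_apply, hx j hj, hy j hj, add_zero]
      zero_mem' := fun _ _ => rfl
      smul_mem' := fun a x hx j hj => by rw [Finsupp.smul_apply, hx j hj, smul_zero] }
  let I : ι → Ideal A := fun i => Submodule.map (Finsupp.lapply i) (N ⊓ L i)
  have hI : ∀ i, ∃ c, I i = Ideal.span {c} := fun i =>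
    (IsPrincipalIdealRing.principal (I i)).principal
  choose c hc using hI
  have hn : ∀ i, ∃ n : ι →₀ A, n ∈ N ∧ (∀ j, i < j → n j = 0) ∧ n i = c i := by
    intro i
    have h1 : c i ∈ I i := by
      rw [hc i]
      exact Ideal.mem_span_singleton_self _
    obtain ⟨x, ⟨hxN, hxL⟩, hx⟩ := h1
    exact ⟨x, hxN, hxL, hx⟩
  choose n hnN hns hnc using hn
  have hdvd : ∀ i, ∀ x ∈ N, (∀ j, i < j → x j = 0) → c i ∣ x i := by
    intro i x hx hxs
    have h1 : x i ∈ I i := ⟨x, ⟨hx, hxs⟩, rfl⟩
    rw [hc i] at h1
    exact Ideal.mem_span_singleton.1 h1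
  -- the basis
  let v : {i // c i ≠ 0} → N := fun i => ⟨n i, hnN i⟩
  have hli : LinearIndependent A v := by
    refine (linearIndependent_iff (R := A) (M := N) (v := v)).2 fun a ha => ?_
    by_contra hne
    have hs : a.support.Nonempty := Finsupp.support_nonempty_iff.2 hne
    set m := a.support.max' hs with hm
    have h1 : (Finsupp.linearCombination A v a : N).1 m.1 = a m * c m.1 := by
      rw [Finsupp.linearCombination_apply, Finsupp.sum, Submodule.coe_sum, Finsupp.finsetSum_apply,
        Finset.sum_eq_single m]
      · change a m * n m.1 m.1 = _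
        rw [hnc]
      · intro i hi him
        change a i * n i.1 m.1 = 0
        have h2 : i < m := lt_of_le_of_ne (Finset.le_max' _ i hi) him
        rw [hns i.1 m.1 h2, mul_zero]
      · intro h
        exact absurd (Finset.max'_mem _ hs) h
    rw [ha] at h1
    have h3 : a m * c m.1 = 0 := h1.symm
    rcases mul_eq_zero.1 h3 with h4 | h4
    · exact (Finsupp.mem_support_iff.1 (Finset.max'_mem _ hs)) h4
    · exact m.2 h4
  have hind : ∀ i, ∀ x (hx : x ∈ N), (∀ j, i < j → x j = 0) →
      (⟨x, hx⟩ : N) ∈ Submodule.span A (Set.range v) := by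
    intro i
    induction i using hwf.wf.induction with
    | _ i ih =>
    -- elements vanishing also at `i`
    have hzero : ∀ x (hx : x ∈ N), (∀ j, i < j → x j = 0) → x i = 0 →
        (⟨x, hx⟩ : N) ∈ Submodule.span A (Set.range v) := by
      intro x hx hxs hxi
      by_cases h0 : x = 0
      · subst h0
        exact Submodule.zero_mem _
      · have hs : x.support.Nonempty := Finsupp.support_nonempty_iff.2 h0
        have hm := Finset.max'_mem _ hs
        have h1 : x (x.support.max' hs) ≠ 0 := Finsupp.mem_support_iff.1 hm
        refine ih (x.support.max' hs) ?_ x hx fun j hj => ?_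
        · rcases lt_trichotomy (x.support.max' hs) i with h | h | h
          · exact h
          · exact absurd (h ▸ hxi) h1
          · exact absurd (hxs _ h) h1
        · by_contra hj0
          exact absurd (Finset.le_max' _ j (Finsupp.mem_support_iff.2 hj0)) (not_le.2 hj)
    intro x hx hxs
    obtain ⟨r, hr⟩ := hdvd i x hx hxs
    by_cases hci : c i = 0
    · exact hzero x hx hxs (by rw [hr, hci, zero_mul])
    · have h1 := hzero (x - r • n i) (N.sub_mem hx (N.smul_mem r (hnN i)))
        (fun j hj => by rw [Finsupp.sub_apply, Finsupp.smul_apply, hxs j hj, hns i j hj, smul_zero,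
          sub_zero])
        (by rw [Finsupp.sub_apply, Finsupp.smul_apply, hnc, hr, smul_eq_mul]; ring)
      have h2 : (⟨x, hx⟩ : N) = ⟨x - r • n i, N.sub_mem hx (N.smul_mem r (hnN i))⟩ +
          r • v ⟨i, hci⟩ := by
        ext1
        change x = (x - r • n i) + r • n i
        rw [sub_add_cancel]
      rw [h2]
      exact Submodule.add_mem _ h1 (Submodule.smul_mem _ _ (Submodule.subset_span ⟨_, rfl⟩))
  have hspan : ⊤ ≤ Submodule.span A (Set.range v) := by
    rintro ⟨x, hx⟩ -
    by_cases h0 : x = 0
    · subst h0
      exact Submodule.zero_mem _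
    · have hs : x.support.Nonempty := Finsupp.support_nonempty_iff.2 h0
      refine hind (x.support.max' hs) x hx fun j hj => ?_
      by_contra hj0
      exact absurd (Finset.le_max' _ j (Finsupp.mem_support_iff.2 hj0)) (not_le.2 hj)
  exact Module.Projective.of_basis (Module.Basis.mk hli hspan)

/-- a module which embeds into a free module is projective -/
theorem projective_of_injective {A : Type} [CommRing A] [IsDomain A] [IsPrincipalIdealRing A]
    {M N : Type} [AddCommGroup M] [AddCommGroup N] [Module A M] [Module A N] [Module.Free A M]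
    (f : N →ₗ[A] M) (hf : Function.Injective f) : Module.Projective A N := by
  obtain ⟨⟨ι, b⟩⟩ := Module.Free.exists_basis (R := A) (M := M)
  let g : N →ₗ[A] (ι →₀ A) := b.repr.toLinearMap ∘ₗ f
  have hg : Function.Injective g := b.repr.injective.comp hf
  have h := projective_of_le_finsupp (LinearMap.range g)
  exact Module.Projective.of_equiv (LinearEquiv.ofInjective g hg).symm

end D687Dom
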