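import Pool.Agent.Lib_MP_d687bf_dom.TwBasis
import Pool.Agent.Lib_MP_d687bf_dom.PidSub
import Pool.Agent.Lib_MP_d687bf_dom.Eisen
import Pool.Agent.Lib_MP_d687bf_dom.Cyc

/-!
# Piece H: the lifting property for finite subgroups

`A = O[X] / (X ^ (p ^ a) - ζ)` acts on every `Tw z ζ`-module, `X` as `of s` (`s ^ (p ^ a) = z`, `of z = ζ`).
`Tw` is free over `A`: choose representatives `t_i` of `⟨s⟩ \ Γ`; `e (l, i) = s ^ l * t_i`,
`l < p ^ a`, satisfies the hypothesis of `tw_basis`, and `X ^ l`, `l < p ^ a`, is an `O`-basis of `A`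
(`AdjoinRoot.powerBasis'`, monic). So a left ideal `N` of `Tw` is projective over `A`
(`projective_of_injective`, `adjoin_pid`). An `O`-linear map is `A`-linear iff it commutes with
`of s`, i.e. with `of` of all elements of `⟨s⟩`; lift with `Module.projective_lifting_property`.
-/

namespace D687Dom

variable {O Γ : Type} [CommRing O] [IsDomain O] [IsDiscreteValuationRing O] [Group Γ]

open Polynomial in
/-- the polynomial -/
private noncomputable def LiftS_f (p a : ℕ) (ζ : O) : O[X] := X ^ (p ^ a) - C ζ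

open Polynomial in
omit [IsDomain O] [IsDiscreteValuationRing O] in
private theorem LiftS_aeval (p : ℕ) (a : ℕ) {z : Γ} {ζ : O} (s : Γ) (hs : s ^ (p ^ a) = z) :
    Polynomial.aeval (Tw.of z ζ s) (LiftS_f p a ζ) = 0 := by
  rw [LiftS_f, map_sub, map_pow, Polynomial.aeval_X, Polynomial.aeval_C, ← map_pow, hs, Tw.of_z,
    sub_self]

omit [IsDomain O] [IsDiscreteValuationRing O] in
/-- the homomorphism `A → Tw` -/
private theorem LiftS_theta (p : ℕ) (a : ℕ) {z : Γ} {ζ : O} (s : Γ) (hs : s ^ (p ^ a) = z) :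
    ∃ θ : AdjoinRoot (LiftS_f p a ζ) →+* Tw z ζ,
      ∀ q : Polynomial O, θ (AdjoinRoot.mk _ q) = Polynomial.aeval (Tw.of z ζ s) q := by
  refine ⟨Ideal.Quotient.lift _ (Polynomial.aeval (Tw.of z ζ s)).toRingHom ?_, fun q => rfl⟩
  intro q hq
  rw [Ideal.mem_span_singleton] at hq
  obtain ⟨r, rfl⟩ := hq
  change Polynomial.aeval (Tw.of z ζ s) (LiftS_f p a ζ * r) = 0
  rw [map_mul, LiftS_aeval p a s hs, zero_mul]

/-- representatives -/
private theorem LiftS_reps (p : ℕ) [Fact p.Prime] (z : Γ)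
    (hc : ∀ g, g * z = z * g) (hz : orderOf z = p) (s : Γ) (a : ℕ) (hs : s ^ (p ^ a) = z) :
    ∃ (I : Type) (t : I → Γ), ∀ g : Γ, ∃! i : Fin (p ^ a) × I, ∃ k : ℕ,
      g = s ^ (i.1 : ℕ) * t i.2 * z ^ k := by
  have hp : p.Prime := Fact.out
  have hord : orderOf s = p ^ (a + 1) := by
    refine orderOf_eq_prime_pow ?_ ?_
    · intro h
      rw [hs] at h
      rw [h, orderOf_one] at hz
      exact hp.one_lt.ne hz
    · rw [pow_succ, pow_mul, hs, ← hz, pow_orderOf_eq_one]
  have hfin : IsOfFinOrder s := by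
    rw [← orderOf_pos_iff, hord]
    exact pow_pos hp.pos _
  have hzk : ∀ (g : Γ) (k : ℕ), g * z ^ k = z ^ k * g := by
    intro g k
    have h1 : Commute g z := hc g
    exact h1.pow_right k
  refine ⟨Quotient (QuotientGroup.rightRel (Subgroup.zpowers s)), Quotient.out, fun g => ?_⟩
  have h1 : (QuotientGroup.rightRel (Subgroup.zpowers s)).r
      (Quotient.out (Quotient.mk (QuotientGroup.rightRel (Subgroup.zpowers s)) g)) g :=
    Quotient.exact (Quotient.out_eq _)
  have h2 := QuotientGroup.rightRel_apply.1 h1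
  rw [← hfin.mem_powers_iff_mem_zpowers] at h2
  obtain ⟨m, hm⟩ := h2
  change s ^ m = _ at hm
  have hpa : 0 < p ^ a := pow_pos hp.pos a
  have hg : g = s ^ (m % p ^ a) *
      Quotient.out (Quotient.mk (QuotientGroup.rightRel (Subgroup.zpowers s)) g) *
        z ^ (m / p ^ a) := by
    rw [mul_assoc, hzk, ← mul_assoc, ← hs, ← pow_mul, ← pow_add, Nat.mod_add_div, hm,
      inv_mul_cancel_right]
  refine ⟨(⟨m % p ^ a, Nat.mod_lt _ hpa⟩,
    Quotient.mk (QuotientGroup.rightRel (Subgroup.zpowers s)) g), ⟨m / p ^ a, hg⟩, ?_⟩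
  rintro ⟨l', i'⟩ ⟨k', hk'⟩
  simp only at hk'
  have h3 : g * (Quotient.out i')⁻¹ = s ^ ((l' : ℕ) + p ^ a * k') := by
    rw [pow_add, pow_mul, hs]
    conv_lhs => rw [hk']
    rw [mul_assoc (s ^ (l' : ℕ)), hzk, ← mul_assoc, mul_inv_cancel_right]
  have h4 : i' = Quotient.mk (QuotientGroup.rightRel (Subgroup.zpowers s)) g := by
    rw [← Quotient.out_eq i']
    refine Quotient.sound ?_
    refine QuotientGroup.rightRel_apply.2 ?_
    rw [h3]
    exact Subgroup.npow_mem_zpowers s _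
  subst h4
  have h5 : s ^ ((l' : ℕ) + p ^ a * k') = s ^ m := by rw [← h3, hm]
  have h6 : (l' : ℕ) + p ^ a * k' ≡ m [MOD p ^ a] := by
    have h7 := pow_eq_pow_iff_modEq.1 h5
    rw [hord] at h7
    exact h7.of_dvd (pow_dvd_pow p (Nat.le_succ a))
  have h7 : (l' : ℕ) = m % p ^ a := by
    have h8 : ((l' : ℕ) + p ^ a * k') % p ^ a = m % p ^ a := h6
    rwa [Nat.add_mul_mod_self_left, Nat.mod_eq_of_lt l'.2] at h8
  exact Prod.ext (Fin.ext h7) rfl

/-- `Tw` is free over `A` -/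
private theorem LiftS_free (p : ℕ) [Fact p.Prime] {ζ : O} (hζ : IsZeta p ζ) (z : Γ)
    (hc : ∀ g, g * z = z * g) (hz : orderOf z = p) (s : Γ) (a : ℕ) (hs : s ^ (p ^ a) = z)
    (θ : AdjoinRoot (LiftS_f p a ζ) →+* Tw z ζ)
    (hθ : ∀ q : Polynomial O, θ (AdjoinRoot.mk _ q) = Polynomial.aeval (Tw.of z ζ s) q) :
    ∃ (I : Type) (Φ : (I →₀ AdjoinRoot (LiftS_f p a ζ)) →+ Tw z ζ), Function.Bijective Φ ∧
      ∀ x F, Φ (x • F) = θ x * Φ F := by
  classical
  have hp : p.Prime := Fact.out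
  have hpa : p ^ a ≠ 0 := pow_ne_zero _ hp.ne_zero
  have hmon : (LiftS_f p a ζ).Monic := Polynomial.monic_X_pow_sub_C ζ hpa
  have hdeg : (LiftS_f p a ζ).natDegree = p ^ a := Polynomial.natDegree_X_pow_sub_C
  obtain ⟨I, t, ht⟩ := LiftS_reps p z hc hz s a hs
  obtain ⟨b, hb⟩ := tw_basis p hp.pos z hc hz ζ hζ.pow
    (fun i : Fin (p ^ a) × I => s ^ (i.1 : ℕ) * t i.2) ht
  have hθC : ∀ c : O, θ (algebraMap O _ c) = algebraMap O (Tw z ζ) c := by
    intro c
    have h1 : algebraMap O (AdjoinRoot (LiftS_f p a ζ)) c = AdjoinRoot.mk _ (Polynomial.C c) := rfl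
    rw [h1, hθ, Polynomial.aeval_C]
  let θl : AdjoinRoot (LiftS_f p a ζ) →ₗ[O] Tw z ζ :=
    { toFun := θ
      map_add' := map_add θ
      map_smul' := fun c x => by
        rw [Algebra.smul_def, map_mul, hθC, RingHom.id_apply, Algebra.smul_def] }
  let Φ : (I →₀ AdjoinRoot (LiftS_f p a ζ)) →ₗ[O] Tw z ζ :=
    Finsupp.lsum O fun i => (LinearMap.mulRight O (Tw.of z ζ (t i))) ∘ₗ θl
  have hΦ : ∀ i x, Φ (Finsupp.single i x) = θ x * Tw.of z ζ (t i) := by
    intro i x
    change (Finsupp.lsum O _) (Finsupp.single i x) = _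
    rw [Finsupp.lsum_single]
    rfl
  have hΦs : ∀ x F, Φ (x • F) = θ x * Φ F := by
    intro x F
    induction F using Finsupp.induction_linear with
    | zero => rw [smul_zero, map_zero, mul_zero]
    | add F G hF hG => rw [smul_add, map_add, hF, hG, map_add, mul_add]
    | single i y => rw [Finsupp.smul_single, hΦ, hΦ, smul_eq_mul, map_mul, mul_assoc]
  refine ⟨I, Φ.toAddMonoidHom, ?_, hΦs⟩
  -- bases
  let pb := AdjoinRoot.powerBasis' hmon
  have hpb : ∀ l, pb.basis l = AdjoinRoot.root (LiftS_f p a ζ) ^ (l : ℕ) := by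
    intro l
    rw [PowerBasis.coe_basis]
    rfl
  let B1 : Module.Basis (Σ _ : I, Fin pb.dim) O (I →₀ AdjoinRoot (LiftS_f p a ζ)) :=
    Finsupp.basis fun _ => pb.basis
  have hdim : pb.dim = p ^ a := hdeg
  let e : (Σ _ : I, Fin pb.dim) ≃ Fin (p ^ a) × I :=
    (Equiv.sigmaEquivProd I (Fin pb.dim)).trans
      ((Equiv.prodComm I (Fin pb.dim)).trans
        (Equiv.prodCongr (finCongr hdim) (Equiv.refl I)))
  have hB : ∀ i, Φ (B1 i) = b (e i) := by
    rintro ⟨i, l⟩
    have h1 : B1 ⟨i, l⟩ = Finsupp.single i (pb.basis l) := by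
      rw [Finsupp.coe_basis]
    have h2 : θ (pb.basis l) = Tw.of z ζ (s ^ (l : ℕ)) := by
      rw [hpb, ← AdjoinRoot.mk_X, ← map_pow, hθ, map_pow, Polynomial.aeval_X, ← map_pow]
    rw [h1, hΦ, h2, hb, ← map_mul]
    rfl
  have hEq : Φ = (B1.equiv b e).toLinearMap := by
    refine B1.ext fun i => ?_
    rw [hB, LinearEquiv.coe_coe, Module.Basis.equiv_apply]
  have hbij : Function.Bijective Φ := by
    rw [hEq]
    exact (B1.equiv b e).bijective
  exact hbij

/-- cyclic case -/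
theorem liftProp_cyclic (p : ℕ) [Fact p.Prime] {ζ : O} (hζ : IsZeta p ζ) (z : Γ)
    (hc : ∀ g, g * z = z * g) (hz : orderOf z = p) (s : Γ) (a : ℕ) (hs : s ^ (p ^ a) = z)
    (N : Submodule (Tw z ζ) (Tw z ζ)) : LiftProp z ζ (Subgroup.zpowers s : Set Γ) N := by
  have hp : p.Prime := Fact.out
  obtain ⟨θ, hθ⟩ := LiftS_theta (ζ := ζ) p a s hs
  obtain ⟨I, Φ, hΦ, hΦs⟩ := LiftS_free p hζ z hc hz s a hs θ hθ
  obtain ⟨hdom, hpid⟩ := adjoin_pid p hζ a
  have hdom' : IsDomain (AdjoinRoot (LiftS_f p a ζ)) := hdom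
  have hpid' : IsPrincipalIdealRing (AdjoinRoot (LiftS_f p a ζ)) := hpid
  have hfin : IsOfFinOrder s := by
    have h1 : IsOfFinOrder z := by
      rw [← orderOf_pos_iff, hz]
      exact hp.pos
    rw [← hs] at h1
    exact (isOfFinOrder_pow.1 h1).resolve_right (pow_ne_zero _ hp.ne_zero)
  intro Q Q' _ _ _ _ _ _ _ _ f hf g hg
  -- modules over `A`
  let mT : Module (AdjoinRoot (LiftS_f p a ζ)) (Tw z ζ) := Module.compHom (Tw z ζ) θ
  let mN : Module (AdjoinRoot (LiftS_f p a ζ)) N := Module.compHom N θ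
  let mQ : Module (AdjoinRoot (LiftS_f p a ζ)) Q := Module.compHom Q θ
  let mQ' : Module (AdjoinRoot (LiftS_f p a ζ)) Q' := Module.compHom Q' θ
  have hfree : Module.Free (AdjoinRoot (LiftS_f p a ζ)) (Tw z ζ) := by
    let Φ' : (I →₀ AdjoinRoot (LiftS_f p a ζ)) →ₗ[AdjoinRoot (LiftS_f p a ζ)] Tw z ζ :=
      { toFun := Φ
        map_add' := map_add Φ
        map_smul' := hΦs }
    exact Module.Free.of_equiv (LinearEquiv.ofBijective Φ' hΦ)
  let incl : N →ₗ[AdjoinRoot (LiftS_f p a ζ)] Tw z ζ :=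
    { toFun := fun n => (n : Tw z ζ)
      map_add' := fun _ _ => rfl
      map_smul' := fun _ _ => rfl }
  have hproj : Module.Projective (AdjoinRoot (LiftS_f p a ζ)) N :=
    projective_of_injective incl Subtype.val_injective
  -- `g` is `A`-linear
  have hgq : ∀ (q : Polynomial O) (n : N), g (Polynomial.aeval (Tw.of z ζ s) q • n) =
      Polynomial.aeval (Tw.of z ζ s) q • g n := by
    intro q n
    induction q using Polynomial.induction_on' with
    | add q r hq hr => rw [map_add, add_smul, map_add, hq, hr, add_smul]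
    | monomial k c =>
      have h1 : Polynomial.aeval (Tw.of z ζ s) (Polynomial.monomial k c) =
          c • Tw.of z ζ (s ^ k) := by
        rw [Polynomial.aeval_monomial, ← map_pow, ← Algebra.smul_def]
      rw [h1, smul_assoc, map_smul, hg _ (Subgroup.npow_mem_zpowers s k), smul_assoc]
  let gA : N →ₗ[AdjoinRoot (LiftS_f p a ζ)] Q' :=
    { toFun := g
      map_add' := map_add g
      map_smul' := fun x n => by
        obtain ⟨q, rfl⟩ := AdjoinRoot.mk_surjective x
        change g (θ (AdjoinRoot.mk _ q) • n) = θ (AdjoinRoot.mk _ q) • g n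
        rw [hθ]
        exact hgq q n }
  let fA : Q →ₗ[AdjoinRoot (LiftS_f p a ζ)] Q' :=
    { toFun := f
      map_add' := map_add f
      map_smul' := fun x n => map_smul f (θ x) n }
  obtain ⟨hA, hhA⟩ := Module.projective_lifting_property fA gA hf
  have hθC : ∀ c : O, θ (algebraMap O _ c) = algebraMap O (Tw z ζ) c := by
    intro c
    have h1 : algebraMap O (AdjoinRoot (LiftS_f p a ζ)) c = AdjoinRoot.mk _ (Polynomial.C c) := rfl
    rw [h1, hθ, Polynomial.aeval_C]
  have hAθ : ∀ (x : AdjoinRoot (LiftS_f p a ζ)) (n : N), hA (θ x • n) = θ x • hA n :=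
    fun x n => map_smul hA x n
  refine ⟨{ toFun := hA
            map_add' := map_add hA
            map_smul' := fun c n => ?_ }, ?_, ?_⟩
  · have h1 := hAθ (algebraMap O _ c) n
    rw [hθC, algebraMap_smul, algebraMap_smul] at h1
    exact h1
  · intro u hu n
    obtain ⟨k, hk⟩ := hfin.mem_powers_iff_mem_zpowers.2 hu
    change s ^ k = u at hk
    have h1 := hAθ (AdjoinRoot.mk _ (Polynomial.X ^ k)) n
    rw [hθ, map_pow, Polynomial.aeval_X, ← map_pow, hk] at h1
    exact h1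
  · intro n
    exact LinearMap.congr_fun hhA n

theorem liftProp_finite (p : ℕ) [Fact p.Prime] (hp : p ≠ 2) {ζ : O} (hζ : IsZeta p ζ) (z : Γ)
    (hc : ∀ g, g * z = z * g) (hz : orderOf z = p)
    (htor : ∀ t : Γ, t ^ p = 1 → t ∈ Subgroup.zpowers z) (S : Subgroup Γ) [Finite S]
    (hS : IsPGroup p S) (hzS : z ∈ S) (N : Submodule (Tw z ζ) (Tw z ζ)) :
    LiftProp z ζ (S : Set Γ) N := by
  obtain ⟨s, a, hs1, hs2⟩ := exists_generator p hp S hS ⟨z, hzS⟩
    (by rw [← hz, ← Subgroup.orderOf_coe]) (by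
      intro t ht
      have h1 : (t : Γ) ^ p = 1 := by
        rw [← Subgroup.coe_pow, ht, Subgroup.coe_one]
      obtain ⟨k, hk⟩ := Subgroup.mem_zpowers_iff.1 (htor t h1)
      refine Subgroup.mem_zpowers_iff.2 ⟨k, ?_⟩
      ext
      rw [Subgroup.coe_zpow]
      exact hk)
  have h1 : (S : Set Γ) = (Subgroup.zpowers (s : Γ) : Set Γ) := by
    ext x
    constructor
    · intro hx
      obtain ⟨k, hk⟩ := Subgroup.mem_zpowers_iff.1 (hs1 ⟨x, hx⟩)
      refine Subgroup.mem_zpowers_iff.2 ⟨k, ?_⟩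
      have := congrArg Subtype.val hk
      simpa using this
    · intro hx
      exact (Subgroup.zpowers_le.2 s.2) hx
  rw [h1]
  refine liftProp_cyclic p hζ z hc hz (s : Γ) a ?_ N
  have := congrArg Subtype.val hs2
  simpa using this

end D687Dom
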