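import Mathlib

/-!
# Piece M: projective dimension from a finite resolution

`K k := ker (d k)`, short exact sequences `0 → K (k + 1) → C (k + 2) → K k → 0` and
`0 → K 0 → C 1 → C 0 → 0`; `K k = 0` for large `k`; descending induction with
`ShortComplex.ShortExact.hasProjectiveDimensionLT_X₃` in `ModuleCat.{0} R`.
-/

open CategoryTheory

namespace D687Dom

private theorem PdComplex_equiv {R : Type} [Ring R] {M N : Type} [AddCommGroup M]
    [AddCommGroup N] [Module R M] [Module R N] (e : M ≃ₗ[R] N) (n : ℕ)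
    (h : HasProjectiveDimensionLT (ModuleCat.of R M) n) :
    HasProjectiveDimensionLT (ModuleCat.of R N) n :=
  hasProjectiveDimensionLT_of_iso (LinearEquiv.toModuleIso e) n

private theorem PdComplex_surj {R : Type} [Ring R] {M N : Type} [AddCommGroup M]
    [AddCommGroup N] [Module R M] [Module R N] (f : M →ₗ[R] N) (hf : Function.Surjective f)
    (hM : Module.Projective R M) (n : ℕ)
    (h : HasProjectiveDimensionLT (ModuleCat.of R (LinearMap.ker f)) n) :
    HasProjectiveDimensionLT (ModuleCat.of R N) (n + 1) := by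
  have hS := LinearMap.shortExact_shortComplexKer hf
  have hP : Projective (ModuleCat.of R M) := (IsProjective.iff_projective M).1 hM
  have h1 : HasProjectiveDimensionLT (ModuleCat.of R M) 1 :=
    projective_iff_hasProjectiveDimensionLT_one.1 hP
  have h2 : HasProjectiveDimensionLT (ModuleCat.of R M) (n + 1) :=
    hasProjectiveDimensionLT_of_ge _ 1 (n + 1) (by omega)
  exact hS.hasProjectiveDimensionLT_X₃ n h h2

private theorem PdComplex_ker {R : Type} [Ring R] (C : ℕ → Type) [∀ k, AddCommGroup (C k)]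
    [∀ k, Module R (C k)] (d : ∀ k, C (k + 1) →ₗ[R] C k)
    (hdd : ∀ k x, d k (d (k + 1) x) = 0)
    (hex : ∀ k x, d k x = 0 → ∃ y, d (k + 1) y = x)
    (hproj : ∀ k, Module.Projective R (C (k + 1))) (m : ℕ)
    (hfin : ∀ k, m < k → Subsingleton (C k)) (j : ℕ) :
    ∀ k, m ≤ k + j → ∃ n, HasProjectiveDimensionLT (ModuleCat.of R (LinearMap.ker (d k))) n := by
  induction j with
  | zero =>
    intro k hk
    have h1 : Subsingleton (C (k + 1)) := hfin (k + 1) (by omega)
    have h2 : Subsingleton (LinearMap.ker (d k)) := inferInstance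
    refine ⟨0, ?_⟩
    rw [hasProjectiveDimensionLT_zero_iff_isZero]
    exact ModuleCat.isZero_of_subsingleton _
  | succ j ih =>
    intro k hk
    obtain ⟨n, hn⟩ := ih (k + 1) (by omega)
    refine ⟨n + 1, ?_⟩
    set f : C (k + 1 + 1) →ₗ[R] LinearMap.ker (d k) :=
      (d (k + 1)).codRestrict (LinearMap.ker (d k)) (fun x => hdd k x) with hf
    refine PdComplex_surj f ?_ (hproj (k + 1)) n ?_
    · rintro ⟨x, hx⟩
      obtain ⟨y, hy⟩ := hex k x hx
      exact ⟨y, Subtype.ext hy⟩
    · have h3 : LinearMap.ker f = LinearMap.ker (d (k + 1)) := LinearMap.ker_codRestrict _ _ _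
      exact PdComplex_equiv (LinearEquiv.ofEq _ _ h3.symm) n hn

theorem pd_of_complex {R : Type} [Ring R] (C : ℕ → Type) [∀ k, AddCommGroup (C k)]
    [∀ k, Module R (C k)] (d : ∀ k, C (k + 1) →ₗ[R] C k)
    (hdd : ∀ k x, d k (d (k + 1) x) = 0)
    (hex : ∀ k x, d k x = 0 → ∃ y, d (k + 1) y = x) (hsurj : Function.Surjective (d 0))
    (hproj : ∀ k, Module.Projective R (C (k + 1))) (m : ℕ) (hfin : ∀ k, m < k → Subsingleton (C k)) :
    ∃ n, HasProjectiveDimensionLT (ModuleCat.of R (C 0)) n := by
  obtain ⟨n, hn⟩ := PdComplex_ker C d hdd hex hproj m hfin m 0 (by omega)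
  exact ⟨n + 1, PdComplex_surj (d 0) hsurj (hproj 0) n hn⟩

/-- isomorphic modules -/
theorem pd_of_equiv {R : Type} [Ring R] {M N : Type} [AddCommGroup M] [AddCommGroup N] [Module R M]
    [Module R N] (e : M ≃ₗ[R] N) (n : ℕ) (h : HasProjectiveDimensionLT (ModuleCat.of R M) n) :
    HasProjectiveDimensionLT (ModuleCat.of R N) n := by
  exact PdComplex_equiv e n h

end D687Dom
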