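import Pool.Agent.Lib_MP_d687bf_dom.RankProj

/-!
# Piece Q: elementary properties of the rank

`rank_quotient_add_rank_of_isDomain` for the domain `S = MonoidAlgebra O (Lam r)` (`lam_isDomain`); all
modules here are finitely generated over `Tw`, hence over `S` (`tw_free`), so ranks are finite.
-/

namespace D687Dom

variable {O Γ : Type} [CommRing O] [IsDomain O] [IsDiscreteValuationRing O] [Group Γ]

section RankAddAux

variable {O Γ : Type} [CommRing O] [Group Γ]

private theorem RankAdd_finTw (p : ℕ) (hp : p.Prime) {ζ : O} (hζ : ζ ^ p = 1) {z : Γ} {r : ℕ}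
    {j : Lam r →* Γ} (hD : DomData p z j) :
    @Module.Finite (MonoidAlgebra O (Lam r)) (Tw z ζ) _ _ (modS z ζ j (Tw z ζ)) := by
  classical
  let := modS z ζ j (Tw z ζ)
  obtain ⟨m, c, hc⟩ := tw_free p hp hD ζ hζ
  refine ⟨⟨Finset.univ.image c, ?_⟩⟩
  rw [eq_top_iff]
  intro x _
  obtain ⟨a, ha, -⟩ := hc x
  rw [ha]
  refine Submodule.sum_mem _ fun i _ => ?_
  have h1 : c i ∈ Submodule.span (MonoidAlgebra O (Lam r))
      ((Finset.univ.image c : Finset (Tw z ζ)) : Set (Tw z ζ)) :=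
    Submodule.subset_span (by simp)
  exact Submodule.smul_mem _ (a i) h1

private theorem RankAdd_freeTw (p : ℕ) (hp : p.Prime) {ζ : O} (hζ : ζ ^ p = 1) {z : Γ} {r : ℕ}
    {j : Lam r →* Γ} (hD : DomData p z j) :
    @Module.Free (MonoidAlgebra O (Lam r)) (Tw z ζ) _ _ (modS z ζ j (Tw z ζ)) := by
  classical
  let := modS z ζ j (Tw z ζ)
  obtain ⟨m, c, hc⟩ := tw_free p hp hD ζ hζ
  have hli : LinearIndependent (MonoidAlgebra O (Lam r)) c := by
    rw [Fintype.linearIndependent_iff]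
    intro g hg
    obtain ⟨a, -, hu⟩ := hc 0
    have h1 : g = a := hu g hg.symm
    have h2 : (0 : Fin m → MonoidAlgebra O (Lam r)) = a := hu 0 (by simp)
    intro i
    rw [h1, ← h2]
    rfl
  have hsp : ⊤ ≤ Submodule.span (MonoidAlgebra O (Lam r)) (Set.range c) := by
    intro x _
    obtain ⟨a, ha, -⟩ := hc x
    rw [ha]
    refine Submodule.sum_mem _ fun i _ => ?_
    exact Submodule.smul_mem _ (a i) (Submodule.subset_span ⟨i, rfl⟩)
  exact Module.Free.of_basis (Module.Basis.mk hli hsp)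

private theorem RankAdd_tower (z : Γ) (ζ : O) {r : ℕ} (j : Lam r →* Γ) (N : Type)
    [AddCommGroup N] [Module (Tw z ζ) N] :
    @IsScalarTower (MonoidAlgebra O (Lam r)) (Tw z ζ) N
      (modS z ζ j (Tw z ζ)).toSMul _ (modS z ζ j N).toSMul := by
  let := modS z ζ j (Tw z ζ)
  let := modS z ζ j N
  exact ⟨fun s x n => mul_smul (sigma z ζ j s) x n⟩

private theorem RankAdd_fin (p : ℕ) (hp : p.Prime) {ζ : O} (hζ : ζ ^ p = 1) {z : Γ} {r : ℕ}
    {j : Lam r →* Γ} (hD : DomData p z j) (N : Type) [AddCommGroup N] [Module (Tw z ζ) N]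
    [Module.Finite (Tw z ζ) N] :
    @Module.Finite (MonoidAlgebra O (Lam r)) N _ _ (modS z ζ j N) := by
  let := modS z ζ j (Tw z ζ)
  let := modS z ζ j N
  have := RankAdd_tower z ζ j N
  have := RankAdd_finTw p hp hζ hD
  exact Module.Finite.trans (Tw z ζ) N

end RankAddAux

/-- additivity -/
theorem rk_add (p : ℕ) (hp : p.Prime) {ζ : O} (hζ : ζ ^ p = 1) {z : Γ} {r : ℕ}
    {j : Lam r →* Γ} (hD : DomData p z j) {N N' : Type} [AddCommGroup N] [AddCommGroup N']
    [Module (Tw z ζ) N] [Module (Tw z ζ) N'] [Module.Finite (Tw z ζ) N] (f : N →ₗ[Tw z ζ] N')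
    (hf : Function.Surjective f) :
    rk z ζ j N = rk z ζ j (LinearMap.ker f) + rk z ζ j N' := by
  let iN := modS z ζ j N
  let iN' := modS z ζ j N'
  let iK := modS z ζ j (LinearMap.ker f)
  have := lam_isDomain (O := O) r
  have := RankAdd_fin p hp hζ hD N
  let g : N →ₗ[MonoidAlgebra O (Lam r)] N' :=
    { toFun := f
      map_add' := f.map_add
      map_smul' := fun s n => f.map_smul (sigma z ζ j s) n }
  have h := Submodule.finrank_quotient_add_finrank (LinearMap.ker g)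
  have e1 : (N ⧸ LinearMap.ker g) ≃ₗ[MonoidAlgebra O (Lam r)] N' :=
    g.quotKerEquivOfSurjective hf
  have e2 : LinearMap.ker g ≃ₗ[MonoidAlgebra O (Lam r)] LinearMap.ker f :=
    { toFun := fun x => ⟨x.1, x.2⟩
      invFun := fun x => ⟨x.1, x.2⟩
      left_inv := fun _ => rfl
      right_inv := fun _ => rfl
      map_add' := fun _ _ => rfl
      map_smul' := fun _ _ => rfl }
  rw [e1.finrank_eq, e2.finrank_eq] at h
  unfold rk
  rw [← h, add_comm]

/-- free modules -/
theorem rk_pi (p : ℕ) (hp : p.Prime) {ζ : O} (hζ : ζ ^ p = 1) {z : Γ} {r : ℕ}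
    {j : Lam r →* Γ} (hD : DomData p z j) (k : ℕ) :
    rk z ζ j (Fin k → Tw z ζ) = k * rk z ζ j (Tw z ζ) := by
  let iR := modS z ζ j (Tw z ζ)
  have := lam_isDomain (O := O) r
  have := RankAdd_finTw p hp hζ hD
  have := RankAdd_freeTw p hp hζ hD
  have h := Module.finrank_pi_fintype (MonoidAlgebra O (Lam r)) (M := fun _ : Fin k => Tw z ζ)
  rw [Finset.sum_const, Finset.card_univ, Fintype.card_fin, smul_eq_mul] at h
  have e : modS z ζ j (Fin k → Tw z ζ) = Pi.module (Fin k) (fun _ => Tw z ζ) _ :=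
    Module.ext (by rfl)
  unfold rk
  rw [e]
  exact h

/-- left ideals: positive rank -/
theorem rk_pos (p : ℕ) (hp : p.Prime) {ζ : O} (hζ : ζ ^ p = 1) {z : Γ} {r : ℕ}
    {j : Lam r →* Γ} (hD : DomData p z j) (N : Submodule (Tw z ζ) (Tw z ζ)) (hN : N ≠ ⊥) :
    0 < rk z ζ j N := by
  let iR := modS z ζ j (Tw z ζ)
  let iN := modS z ζ j N
  have := lam_isDomain (O := O) r
  have := lam_noetherian (O := O) r
  have := RankAdd_finTw p hp hζ hD
  have : IsNoetherianRing (Tw z ζ) := tw_noetherian p hp hD ζ hζ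
  have := RankAdd_fin p hp hζ hD N
  obtain ⟨x, hxN, hx⟩ := (Submodule.ne_bot_iff N).1 hN
  have : Nontrivial N := ⟨⟨⟨x, hxN⟩, 0, fun h => hx (congrArg Subtype.val h)⟩⟩
  have : Module.IsTorsionFree (MonoidAlgebra O (Lam r)) N := by
    refine ⟨fun s hs m₁ m₂ h => ?_⟩
    have hs0 : s ≠ 0 := hs.left.ne_zero
    have h1 : sigma z ζ j s * (m₁ : Tw z ζ) = sigma z ζ j s * (m₂ : Tw z ζ) :=
      congrArg Subtype.val h
    have h2 : sigma z ζ j s * ((m₁ : Tw z ζ) - m₂) = 0 := by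
      rw [mul_sub, h1, sub_self]
    have h3 := tw_torsionFree p hp hD ζ hζ s hs0 _ h2
    exact Subtype.ext (sub_eq_zero.1 h3)
  exact Module.finrank_pos (R := MonoidAlgebra O (Lam r)) (M := N)

/-- submodules -/
theorem rk_le (p : ℕ) (hp : p.Prime) {ζ : O} (hζ : ζ ^ p = 1) {z : Γ} {r : ℕ}
    {j : Lam r →* Γ} (hD : DomData p z j) (N : Submodule (Tw z ζ) (Tw z ζ)) :
    rk z ζ j N ≤ rk z ζ j (Tw z ζ) := by
  let iR := modS z ζ j (Tw z ζ)
  let iN := modS z ζ j N
  have := lam_isDomain (O := O) r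
  have := RankAdd_finTw p hp hζ hD
  let N₁ : Submodule (MonoidAlgebra O (Lam r)) (Tw z ζ) :=
    { carrier := N
      add_mem' := N.add_mem
      zero_mem' := N.zero_mem
      smul_mem' := fun s x hx => N.smul_mem (sigma z ζ j s) hx }
  have e : N₁ ≃ₗ[MonoidAlgebra O (Lam r)] N :=
    { toFun := fun x => ⟨x.1, x.2⟩
      invFun := fun x => ⟨x.1, x.2⟩
      left_inv := fun _ => rfl
      right_inv := fun _ => rfl
      map_add' := fun _ _ => rfl
      map_smul' := fun _ _ => rfl }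
  have h := Submodule.finrank_le N₁
  rw [e.finrank_eq] at h
  exact h

end D687Dom
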