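import Pool.Agent.Lib_MP_d687bf_dom.TwFree
import Pool.Agent.Lib_MP_d687bf_dom.Coinv

/-!
# Piece P: ranks of projective modules

`S = MonoidAlgebra O (Lam r)`, `R = Tw z ζ`, `S → R` is `sigma`. `ε : R → ZMod p`, `g ↦ 1`
(`O → ZMod p` the residue map). For a finitely generated `R`-module `N` let `c(N)` be the dimension of
`N / 𝔪 N`, `𝔪 = ker ε`. (1) `rank_S N ≤ c(N) * rank_S R`: choose `n_1 .. n_c` in `N` generating `N / 𝔪 N`,
`N₁ = ∑ R n_i`; `V = N / (N₁ + mm N)`, `mm = (1 - ζ, b - 1) ⊆ S`, is a finite `p`-torsion group on which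
`Γ / (j Λ ⟨z⟩)` acts and `V = 𝔪 V` is spanned by the `g v - v`: `V = 0` by `coinv_ne`; so
`N = N₁ + mm N`, Nakayama over `S` (`Submodule.exists_sub_one_mem_and_smul_le_of_fg_of_le_sup`) gives
`s ∈ S`, `s - 1 ∈ mm` (so `s ≠ 0`), `s N ⊆ N₁`, hence `rank_S N = rank_S N₁ ≤ c rank_S R`.
(2) If `N ⊕ N' = R ^ k`: `rank N + rank N' = k rank R` and `c(N) + c(N') ≤ k`, so equality in (1).
The statement is for modules with compatible `S`-structure.
-/

namespace D687Dom

variable {O Γ : Type} [CommRing O] [IsDomain O] [IsDiscreteValuationRing O] [Group Γ]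

/-- the module structure over the group ring of `Lam r` -/
noncomputable abbrev modS (z : Γ) (ζ : O) {r : ℕ} (j : Lam r →* Γ) (N : Type) [AddCommGroup N]
    [Module (Tw z ζ) N] : Module (MonoidAlgebra O (Lam r)) N :=
  Module.compHom N (sigma z ζ j : MonoidAlgebra O (Lam r) →+* Tw z ζ)

/-- the rank over the group ring of `Lam r` -/
noncomputable def rk (z : Γ) (ζ : O) {r : ℕ} (j : Lam r →* Γ) (N : Type) [AddCommGroup N]
    [Module (Tw z ζ) N] : ℕ :=
  @Module.finrank (MonoidAlgebra O (Lam r)) N _ _ (modS z ζ j N)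

/-! ### linear algebra over a domain -/

private theorem RankProj_torsion {S M : Type} [CommRing S] [IsDomain S] [AddCommGroup M]
    [Module S M] [Module.Finite S M] (N₁ : Submodule S M) (s : S) (hs : s ≠ 0)
    (h : ∀ m : M, s • m ∈ N₁) : Module.finrank S M ≤ Module.finrank S N₁ := by
  have h1 := Submodule.finrank_quotient_add_finrank (R := S) N₁
  have h2 : Module.finrank S (M ⧸ N₁) = 0 := by
    apply Module.finrank_eq_zero_of_rank_eq_zero
    rw [Module.rank_eq_zero_iff_isTorsion]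
    intro x
    obtain ⟨m, rfl⟩ := Submodule.mkQ_surjective N₁ x
    refine ⟨⟨s, mem_nonZeroDivisors_of_ne_zero hs⟩, ?_⟩
    change s • N₁.mkQ m = 0
    rw [← map_smul, Submodule.mkQ_apply, Submodule.Quotient.mk_eq_zero]
    exact h m
  omega

/-! ### submodules generated by stable sets -/

/-- the additive subgroup generated by a stable set is a submodule -/
private def RankProj_cl (z : Γ) (ζ : O) {M : Type} [AddCommGroup M] [Module (Tw z ζ) M]
    (G : Set M) (hg : ∀ g : Γ, ∀ x ∈ G, Tw.of z ζ g • x ∈ AddSubgroup.closure G)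
    (hc : ∀ c : O, ∀ x ∈ G, algebraMap O (Tw z ζ) c • x ∈ AddSubgroup.closure G) :
    Submodule (Tw z ζ) M where
  carrier := AddSubgroup.closure G
  add_mem' := fun ha hb => AddSubgroup.add_mem _ ha hb
  zero_mem' := AddSubgroup.zero_mem _
  smul_mem' := by
    intro r x hx
    have h1 : ∀ g : Γ, ∀ x ∈ AddSubgroup.closure G, Tw.of z ζ g • x ∈ AddSubgroup.closure G := by
      intro g x hx
      induction hx using AddSubgroup.closure_induction with
      | mem x hx => exact hg g x hx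
      | zero => rw [smul_zero]; exact AddSubgroup.zero_mem _
      | add x y _ _ hx hy => rw [smul_add]; exact AddSubgroup.add_mem _ hx hy
      | neg x _ hx => rw [smul_neg]; exact AddSubgroup.neg_mem _ hx
    have h2 : ∀ c : O, ∀ x ∈ AddSubgroup.closure G,
        algebraMap O (Tw z ζ) c • x ∈ AddSubgroup.closure G := by
      intro c x hx
      induction hx using AddSubgroup.closure_induction with
      | mem x hx => exact hc c x hx
      | zero => rw [smul_zero]; exact AddSubgroup.zero_mem _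
      | add x y _ _ hx hy => rw [smul_add]; exact AddSubgroup.add_mem _ hx hy
      | neg x _ hx => rw [smul_neg]; exact AddSubgroup.neg_mem _ hx
    change r • x ∈ AddSubgroup.closure G
    induction r using Tw.induction with
    | h0 => rw [zero_smul]; exact AddSubgroup.zero_mem _
    | hadd a b ha hb => rw [add_smul]; exact AddSubgroup.add_mem _ ha hb
    | hsingle c g =>
      rw [Algebra.smul_def, mul_smul]
      exact h2 c _ (h1 g x hx)

private theorem RankProj_mem_cl {z : Γ} {ζ : O} {M : Type} [AddCommGroup M] [Module (Tw z ζ) M]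
    {G : Set M} {hg : ∀ g : Γ, ∀ x ∈ G, Tw.of z ζ g • x ∈ AddSubgroup.closure G}
    {hc : ∀ c : O, ∀ x ∈ G, algebraMap O (Tw z ζ) c • x ∈ AddSubgroup.closure G} {x : M} :
    x ∈ RankProj_cl z ζ G hg hc ↔ x ∈ AddSubgroup.closure G := Iff.rfl

private theorem RankProj_alg_comm (z : Γ) (ζ : O) {M : Type} [AddCommGroup M]
    [Module (Tw z ζ) M] (c : O) (r : Tw z ζ) (m : M) :
    r • (algebraMap O (Tw z ζ) c • m) = algebraMap O (Tw z ζ) c • (r • m) := by
  rw [← mul_smul, ← mul_smul, Algebra.commutes]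

/-- the generators of `𝔪 M` -/
private def RankProj_GU (z : Γ) (ζ : O) (M : Type) [AddCommGroup M] [Module (Tw z ζ) M] :
    Set M :=
  {w | (∃ (g : Γ) (n : M), w = Tw.of z ζ g • n - n) ∨
    ∃ n : M, w = algebraMap O (Tw z ζ) (1 - ζ) • n}

/-- `𝔪 M` -/
private def RankProj_U (z : Γ) (ζ : O) (M : Type) [AddCommGroup M] [Module (Tw z ζ) M] :
    Submodule (Tw z ζ) M :=
  RankProj_cl z ζ (RankProj_GU z ζ M) (by
    rintro h x (⟨g, n, rfl⟩ | ⟨n, rfl⟩)
    · apply AddSubgroup.subset_closure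
      refine Or.inl ⟨h * g * h⁻¹, Tw.of z ζ h • n, ?_⟩
      rw [← mul_smul, ← map_mul, inv_mul_cancel_right, smul_sub, ← mul_smul, ← map_mul]
    · apply AddSubgroup.subset_closure
      exact Or.inr ⟨Tw.of z ζ h • n, RankProj_alg_comm z ζ _ _ _⟩) (by
    rintro c x (⟨g, n, rfl⟩ | ⟨n, rfl⟩)
    · apply AddSubgroup.subset_closure
      refine Or.inl ⟨g, algebraMap O (Tw z ζ) c • n, ?_⟩
      rw [RankProj_alg_comm, smul_sub]
    · apply AddSubgroup.subset_closure
      refine Or.inr ⟨algebraMap O (Tw z ζ) c • n, ?_⟩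
      rw [RankProj_alg_comm])

private theorem RankProj_U_smul_sub {z : Γ} {ζ : O} {M : Type} [AddCommGroup M]
    [Module (Tw z ζ) M] (g : Γ) (n : M) : Tw.of z ζ g • n - n ∈ RankProj_U z ζ M :=
  AddSubgroup.subset_closure (Or.inl ⟨g, n, rfl⟩)

private theorem RankProj_U_alg {z : Γ} {ζ : O} {M : Type} [AddCommGroup M]
    [Module (Tw z ζ) M] (n : M) :
    algebraMap O (Tw z ζ) (1 - ζ) • n ∈ RankProj_U z ζ M :=
  AddSubgroup.subset_closure (Or.inr ⟨n, rfl⟩)

private theorem RankProj_U_map {z : Γ} {ζ : O} {M M' : Type} [AddCommGroup M]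
    [Module (Tw z ζ) M] [AddCommGroup M'] [Module (Tw z ζ) M'] (f : M →ₗ[Tw z ζ] M') {x : M}
    (hx : x ∈ RankProj_U z ζ M) : f x ∈ RankProj_U z ζ M' := by
  have hx' : x ∈ AddSubgroup.closure (RankProj_GU z ζ M) := hx
  clear hx
  induction hx' using AddSubgroup.closure_induction with
  | mem x hx =>
    rcases hx with ⟨g, n, rfl⟩ | ⟨n, rfl⟩
    · rw [map_sub, map_smul]
      exact RankProj_U_smul_sub g (f n)
    · rw [map_smul]
      exact RankProj_U_alg (f n)
  | zero => rw [map_zero]; exact Submodule.zero_mem _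
  | add x y _ _ h1 h2 => rw [map_add]; exact Submodule.add_mem _ h1 h2
  | neg x _ h1 => rw [map_neg]; exact Submodule.neg_mem _ h1

/-- `r - n` kills `M / 𝔪 M` -/
private theorem RankProj_red {p : ℕ} {ζ : O} (hζ : IsZeta p ζ) {z : Γ} (r : Tw z ζ) :
    ∃ n : ℤ, ∀ (M : Type) [AddCommGroup M] [Module (Tw z ζ) M] (m : M),
      r • m - n • m ∈ RankProj_U z ζ M := by
  induction r using Tw.induction with
  | h0 => exact ⟨0, fun M _ _ m => by rw [zero_smul, zero_smul, sub_zero]; exact Submodule.zero_mem _⟩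
  | hadd a b ha hb =>
    obtain ⟨n, hn⟩ := ha
    obtain ⟨n', hn'⟩ := hb
    refine ⟨n + n', fun M _ _ m => ?_⟩
    have : (a + b) • m - (n + n') • m = (a • m - n • m) + (b • m - n' • m) := by
      rw [add_smul, add_smul]; abel
    rw [this]
    exact Submodule.add_mem _ (hn M m) (hn' M m)
  | hsingle c g =>
    obtain ⟨n, d, hd⟩ := hζ.res c
    refine ⟨n, fun M _ _ m => ?_⟩
    have hc : c = n + (1 - ζ) * d := by rw [← hd]; ring
    have h1 : (c • Tw.of z ζ g) • m - (n : ℤ) • m = (n : ℤ) • (Tw.of z ζ g • m - m) +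
        algebraMap O (Tw z ζ) (1 - ζ) • (algebraMap O (Tw z ζ) d • (Tw.of z ζ g • m)) := by
      rw [Algebra.smul_def, mul_smul]
      nth_rewrite 1 [hc]
      rw [map_add, map_natCast, map_mul, add_smul, mul_smul, smul_sub, natCast_zsmul,
        natCast_zsmul, Nat.cast_smul_eq_nsmul]
      abel
    rw [h1]
    exact Submodule.add_mem _ (zsmul_mem (RankProj_U_smul_sub g m) _) (RankProj_U_alg _)

private theorem RankProj_dvd {p : ℕ} {ζ : O} (hζ : IsZeta p ζ) : (1 - ζ) ∣ (p : O) := by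
  have h1 := mul_neg_geom_sum ζ p
  rw [hζ.pow, sub_self] at h1
  have h2 : ∑ i ∈ Finset.range p, ζ ^ i = 0 := by
    rcases mul_eq_zero.1 h1 with h | h
    · exact absurd h hζ.irr.ne_zero
    · exact h
  have h3 : (p : O) = ∑ i ∈ Finset.range p, (1 - ζ ^ i) := by
    rw [Finset.sum_sub_distrib, h2, Finset.sum_const, Finset.card_range, nsmul_eq_mul, mul_one,
      sub_zero]
  rw [h3]
  refine Finset.dvd_sum fun i _ => ?_
  have := sub_dvd_pow_sub_pow (1 : O) ζ i
  rwa [one_pow] at this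

private theorem RankProj_p_smul {p : ℕ} {ζ : O} (hζ : IsZeta p ζ) {z : Γ} {M : Type}
    [AddCommGroup M] [Module (Tw z ζ) M] (m : M) :
    ∃ n : M, p • m = algebraMap O (Tw z ζ) (1 - ζ) • n := by
  obtain ⟨d, hd⟩ := RankProj_dvd hζ
  refine ⟨algebraMap O (Tw z ζ) d • m, ?_⟩
  rw [← mul_smul, ← map_mul, ← hd, map_natCast, Nat.cast_smul_eq_nsmul]

private theorem RankProj_p_quot {p : ℕ} {ζ : O} (hζ : IsZeta p ζ) (z : Γ) (M : Type)
    [AddCommGroup M] [Module (Tw z ζ) M] (x : M ⧸ RankProj_U z ζ M) : p • x = 0 := by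
  obtain ⟨m, rfl⟩ := Submodule.mkQ_surjective _ x
  obtain ⟨n, hn⟩ := RankProj_p_smul hζ (z := z) m
  rw [← map_nsmul, hn, Submodule.mkQ_apply, Submodule.Quotient.mk_eq_zero]
  exact RankProj_U_alg n

/-- `M / 𝔪 M` is spanned over `ZMod p` by the generators of `M` -/
private theorem RankProj_span {p : ℕ} {ζ : O} (hζ : IsZeta p ζ) {z : Γ} {M : Type}
    [AddCommGroup M] [Module (Tw z ζ) M] {ι : Type} (v : ι → M)
    (hv : Submodule.span (Tw z ζ) (Set.range v) = ⊤) {W : Type} [AddCommGroup W]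
    [Module (ZMod p) W] (q : M →+ W) (hq : Function.Surjective q)
    (hU : ∀ x ∈ RankProj_U z ζ M, q x = 0) :
    Submodule.span (ZMod p) (Set.range fun i => q (v i)) = ⊤ := by
  rw [eq_top_iff]
  rintro w -
  obtain ⟨m, rfl⟩ := hq w
  have hm : m ∈ Submodule.span (Tw z ζ) (Set.range v) := by rw [hv]; trivial
  induction hm using Submodule.span_induction with
  | mem x hx =>
    obtain ⟨i, rfl⟩ := hx
    exact Submodule.subset_span ⟨i, rfl⟩
  | zero => rw [map_zero]; exact Submodule.zero_mem _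
  | add x y _ _ hx hy => rw [map_add]; exact Submodule.add_mem _ hx hy
  | smul r x _ hx =>
    obtain ⟨n, hn⟩ := RankProj_red hζ r
    have h1 := hU _ (hn M x)
    rw [map_sub, sub_eq_zero, map_zsmul] at h1
    rw [h1]
    exact zsmul_mem hx n

/-! ### the augmentation ideal of the group ring of `Lam r` -/

/-- the generators of `mm M` -/
private def RankProj_GT (z : Γ) (ζ : O) {r : ℕ} (j : Lam r →* Γ) (M : Type) [AddCommGroup M]
    [Module (Tw z ζ) M] : Set M :=
  {w | (∃ (b : Lam r) (n : M), w = Tw.of z ζ (j b) • n - n) ∨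
    ∃ n : M, w = algebraMap O (Tw z ζ) (1 - ζ) • n}

/-- `mm M` -/
private def RankProj_T (z : Γ) (ζ : O) {r : ℕ} (j : Lam r →* Γ) (hn : j.range.Normal) (M : Type)
    [AddCommGroup M] [Module (Tw z ζ) M] : Submodule (Tw z ζ) M :=
  RankProj_cl z ζ (RankProj_GT z ζ j M) (by
    rintro h x (⟨b, n, rfl⟩ | ⟨n, rfl⟩)
    · apply AddSubgroup.subset_closure
      obtain ⟨b', hb'⟩ := hn.conj_mem (j b) ⟨b, rfl⟩ h
      refine Or.inl ⟨b', Tw.of z ζ h • n, ?_⟩
      rw [hb', ← mul_smul, ← map_mul, inv_mul_cancel_right, smul_sub, ← mul_smul, ← map_mul]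
    · apply AddSubgroup.subset_closure
      exact Or.inr ⟨Tw.of z ζ h • n, RankProj_alg_comm z ζ _ _ _⟩) (by
    rintro c x (⟨b, n, rfl⟩ | ⟨n, rfl⟩)
    · apply AddSubgroup.subset_closure
      refine Or.inl ⟨b, algebraMap O (Tw z ζ) c • n, ?_⟩
      rw [RankProj_alg_comm, smul_sub]
    · apply AddSubgroup.subset_closure
      refine Or.inr ⟨algebraMap O (Tw z ζ) c • n, ?_⟩
      rw [RankProj_alg_comm])

private theorem RankProj_sigma_single (z : Γ) (ζ : O) {r : ℕ} (j : Lam r →* Γ) (b : Lam r) :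
    sigma z ζ j (MonoidAlgebra.single b 1) = Tw.of z ζ (j b) := by
  have := MonoidAlgebra.lift_of ((Tw.of z ζ).comp j) b (R := O)
  exact this

/-- first step: `V = M / (N₁ + mm M)` is zero -/
private theorem RankProj_top (p : ℕ) [Fact p.Prime] {ζ : O} (hζ : IsZeta p ζ) {z : Γ} {r : ℕ}
    {j : Lam r →* Γ} (hD : DomData p z j) (M : Type) [AddCommGroup M] [Module (Tw z ζ) M]
    [Module.Finite (Tw z ζ) M] (N₁ : Submodule (Tw z ζ) M)
    (h : N₁ ⊔ RankProj_U z ζ M = ⊤) : N₁ ⊔ RankProj_T z ζ j hD.normal M = ⊤ := by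
  set P := N₁ ⊔ RankProj_T z ζ j hD.normal M with hP
  let V := M ⧸ P
  have hnorm : j.range.Normal := hD.normal
  have hTb : ∀ (b : Lam r) (v : V), Tw.of z ζ (j b) • v = v := by
    intro b v
    obtain ⟨m, rfl⟩ := Submodule.mkQ_surjective P v
    rw [← map_smul, ← sub_eq_zero, ← map_sub, Submodule.mkQ_apply, Submodule.Quotient.mk_eq_zero]
    exact Submodule.mem_sup_right (AddSubgroup.subset_closure (Or.inl ⟨b, m, rfl⟩))
  have hTz : ∀ v : V, algebraMap O (Tw z ζ) (1 - ζ) • v = 0 := by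
    intro v
    obtain ⟨m, rfl⟩ := Submodule.mkQ_surjective P v
    rw [← map_smul, Submodule.mkQ_apply, Submodule.Quotient.mk_eq_zero]
    exact Submodule.mem_sup_right (AddSubgroup.subset_closure (Or.inr ⟨m, rfl⟩))
  have hpV : ∀ v : V, p • v = 0 := by
    intro v
    obtain ⟨n, hn⟩ := RankProj_p_smul hζ (z := z) v
    rw [hn, hTz]
  let f0 : Γ →* AddMonoid.End V :=
    ((Module.toAddMonoidEnd (Tw z ζ) V) : Tw z ζ →* AddMonoid.End V).comp (Tw.of z ζ)
  have hf0 : ∀ (g : Γ) (v : V), f0 g v = Tw.of z ζ g • v := fun _ _ => rfl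
  have hker : j.range ≤ f0.ker := by
    rintro _ ⟨b, rfl⟩
    rw [MonoidHom.mem_ker]
    ext v
    exact hTb b v
  let f1 : Γ ⧸ j.range →* AddMonoid.End V := QuotientGroup.lift j.range f0 hker
  let _ : DistribMulAction (Γ ⧸ j.range) V := DistribMulAction.compHom V f1
  have hact : ∀ (g : Γ) (v : V), (QuotientGroup.mk g : Γ ⧸ j.range) • v = Tw.of z ζ g • v :=
    fun _ _ => rfl
  obtain ⟨a, ha⟩ := hD.index
  have hcard : Nat.card (Γ ⧸ j.range) = p ^ a := ha
  have hfin : Finite (Γ ⧸ j.range) :=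
    Nat.finite_of_card_ne_zero (by rw [hcard]; exact pow_ne_zero _ (Fact.out (p := p.Prime)).ne_zero)
  -- finiteness of `V`
  obtain ⟨n, v, hv⟩ := Module.Finite.exists_fin (R := Tw z ζ) (M := M)
  let E : (Γ ⧸ j.range) × Fin n → V := fun x => x.1 • (P.mkQ (v x.2))
  have hcO : ∀ (c : O) (v : V), ∃ k : ℕ, algebraMap O (Tw z ζ) c • v = k • v := by
    intro c v
    obtain ⟨k, d, hd⟩ := hζ.res c
    refine ⟨k, ?_⟩
    have hc : c = k + (1 - ζ) * d := by rw [← hd]; ring
    rw [hc, map_add, map_natCast, map_mul, add_smul, mul_smul, hTz, add_zero,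
      Nat.cast_smul_eq_nsmul]
  have hE : AddSubgroup.closure (Set.range E) = ⊤ := by
    let K : Submodule (Tw z ζ) V := RankProj_cl z ζ (Set.range E) (by
      rintro g _ ⟨⟨q, i⟩, rfl⟩
      apply AddSubgroup.subset_closure
      refine ⟨(QuotientGroup.mk g * q, i), ?_⟩
      change (QuotientGroup.mk g * q : Γ ⧸ j.range) • (P.mkQ (v i)) =
        Tw.of z ζ g • (q • P.mkQ (v i))
      rw [mul_smul, hact]) (by
      rintro c x hx
      obtain ⟨k, hk⟩ := hcO c x
      rw [hk]
      exact nsmul_mem (AddSubgroup.subset_closure hx) k)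
    have hK : K = ⊤ := by
      rw [eq_top_iff]
      rintro x -
      obtain ⟨m, rfl⟩ := Submodule.mkQ_surjective P x
      have hm : m ∈ Submodule.span (Tw z ζ) (Set.range v) := by rw [hv]; trivial
      induction hm using Submodule.span_induction with
      | mem x hx =>
        obtain ⟨i, rfl⟩ := hx
        refine AddSubgroup.subset_closure ⟨(1, i), ?_⟩
        exact one_smul _ _
      | zero => rw [map_zero]; exact Submodule.zero_mem _
      | add x y _ _ hx hy => rw [map_add]; exact Submodule.add_mem _ hx hy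
      | smul r x _ hx => rw [map_smul]; exact Submodule.smul_mem _ _ hx
    rw [eq_top_iff]
    rintro x -
    have : x ∈ K := by rw [hK]; trivial
    exact this
  have hfg : Module.Finite ℤ V := by
    rw [Module.Finite.iff_addGroup_fg]
    exact ⟨(AddSubgroup.fg_iff _).2 ⟨Set.range E, hE, Set.finite_range E⟩⟩
  have hfinV : Finite V := by
    apply Module.finite_of_fg_torsion V
    intro x
    refine ⟨⟨(p : ℤ), mem_nonZeroDivisors_of_ne_zero
      (Nat.cast_ne_zero.2 (Fact.out (p := p.Prime)).ne_zero)⟩, ?_⟩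
    change (p : ℤ) • x = 0
    rw [natCast_zsmul, hpV]
  have hcl : AddSubgroup.closure {w : V | ∃ (g : Γ ⧸ j.range) (v : V), w = g • v - v} = ⊤ := by
    rw [eq_top_iff]
    rintro x -
    obtain ⟨m, rfl⟩ := Submodule.mkQ_surjective P x
    have hm : m ∈ N₁ ⊔ RankProj_U z ζ M := by rw [h]; trivial
    obtain ⟨y, hy, w, hw, rfl⟩ := Submodule.mem_sup.1 hm
    have hy0 : P.mkQ y = 0 := by
      rw [Submodule.mkQ_apply, Submodule.Quotient.mk_eq_zero]
      exact Submodule.mem_sup_left hy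
    rw [map_add, hy0, zero_add]
    have hw' : w ∈ AddSubgroup.closure (RankProj_GU z ζ M) := hw
    clear hw hm
    induction hw' using AddSubgroup.closure_induction with
    | mem x hx =>
      rcases hx with ⟨g, n, rfl⟩ | ⟨n, rfl⟩
      · apply AddSubgroup.subset_closure
        refine ⟨QuotientGroup.mk g, P.mkQ n, ?_⟩
        rw [map_sub, map_smul, hact]
      · rw [map_smul, hTz]
        exact AddSubgroup.zero_mem _
    | zero => rw [map_zero]; exact AddSubgroup.zero_mem _
    | add x y _ _ hx hy => rw [map_add]; exact AddSubgroup.add_mem _ hx hy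
    | neg x _ hx => rw [map_neg]; exact AddSubgroup.neg_mem _ hx
  have hsub : Subsingleton V :=
    coinv_ne p (Γ ⧸ j.range) (IsPGroup.of_card hcard) V hpV hcl
  exact (Submodule.Quotient.subsingleton_iff (p := P)).1 hsub

/-- second step: Nakayama -/
private theorem RankProj_key (p : ℕ) [Fact p.Prime] {ζ : O} (hζ : IsZeta p ζ) {z : Γ} {r : ℕ}
    {j : Lam r →* Γ} (hD : DomData p z j) (M : Type) [AddCommGroup M] [Module (Tw z ζ) M]
    [Module.Finite (Tw z ζ) M] (hfin : @Module.Finite (MonoidAlgebra O (Lam r)) M _ _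
      (modS z ζ j M)) (N₁ : Submodule (Tw z ζ) M) (h : N₁ ⊔ RankProj_U z ζ M = ⊤) :
    ∃ s : MonoidAlgebra O (Lam r), s ≠ 0 ∧ ∀ m : M, sigma z ζ j s • m ∈ N₁ := by
  have htop := RankProj_top p hζ hD M N₁ h
  let _ : Module (MonoidAlgebra O (Lam r)) M := modS z ζ j M
  have hsm : ∀ (s : MonoidAlgebra O (Lam r)) (m : M), s • m = sigma z ζ j s • m := fun _ _ => rfl
  let N₂ : Submodule (MonoidAlgebra O (Lam r)) M :=
    { carrier := N₁
      add_mem' := fun ha hb => N₁.add_mem ha hb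
      zero_mem' := N₁.zero_mem
      smul_mem' := fun s m hm => N₁.smul_mem (sigma z ζ j s) hm }
  let I : Ideal (MonoidAlgebra O (Lam r)) := Ideal.span
    ({x | ∃ b : Lam r, x = MonoidAlgebra.single b 1 - 1} ∪
      {algebraMap O (MonoidAlgebra O (Lam r)) (1 - ζ)})
  have hI : (⊤ : Submodule (MonoidAlgebra O (Lam r)) M) ≤
      N₂ ⊔ I • (⊤ : Submodule (MonoidAlgebra O (Lam r)) M) := by
    rintro m -
    have hm : m ∈ N₁ ⊔ RankProj_T z ζ j hD.normal M := by rw [htop]; trivial
    obtain ⟨y, hy, w, hw, rfl⟩ := Submodule.mem_sup.1 hm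
    refine Submodule.add_mem_sup (show y ∈ N₂ from hy) ?_
    have hw' : w ∈ AddSubgroup.closure (RankProj_GT z ζ j M) := hw
    clear hw hm
    induction hw' using AddSubgroup.closure_induction with
    | mem x hx =>
      rcases hx with ⟨b, n, rfl⟩ | ⟨n, rfl⟩
      · have h1 : Tw.of z ζ (j b) • n - n =
            ((MonoidAlgebra.single b 1 - 1 : MonoidAlgebra O (Lam r))) • n := by
          rw [hsm, map_sub, RankProj_sigma_single, map_one, sub_smul, one_smul]
        rw [h1]
        exact Submodule.smul_mem_smul (Ideal.subset_span (Or.inl ⟨b, rfl⟩)) trivial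
      · have h1 : algebraMap O (Tw z ζ) (1 - ζ) • n =
            (algebraMap O (MonoidAlgebra O (Lam r)) (1 - ζ)) • n := by
          rw [hsm, AlgHom.commutes]
        rw [h1]
        exact Submodule.smul_mem_smul (Ideal.subset_span (Or.inr rfl)) trivial
    | zero => exact Submodule.zero_mem _
    | add x y _ _ hx hy => exact Submodule.add_mem _ hx hy
    | neg x _ hx => exact Submodule.neg_mem _ hx
  have hfg : (⊤ : Submodule (MonoidAlgebra O (Lam r)) M).FG := Module.finite_def.1 hfin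
  obtain ⟨s, hs, hsN⟩ := Submodule.exists_sub_one_mem_and_smul_le_of_fg_of_le_sup hfg le_rfl hI
  refine ⟨s, ?_, fun m => ?_⟩
  · rintro rfl
    let k := O ⧸ Ideal.span {1 - ζ}
    let aug : MonoidAlgebra O (Lam r) →ₐ[O] k := MonoidAlgebra.lift O k (Lam r) 1
    have hI0 : I ≤ RingHom.ker aug := by
      rw [Ideal.span_le]
      rintro x (⟨b, rfl⟩ | rfl)
      · change aug _ = 0
        rw [map_sub, map_one, ← MonoidAlgebra.of_apply, MonoidAlgebra.lift_of, MonoidHom.one_apply,
          sub_self]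
      · change aug _ = 0
        rw [AlgHom.commutes]
        change Ideal.Quotient.mk _ (1 - ζ) = 0
        rw [Ideal.Quotient.eq_zero_iff_mem]
        exact Ideal.subset_span rfl
    have h1 := hI0 hs
    rw [RingHom.mem_ker, map_sub, map_zero, map_one, zero_sub, neg_eq_zero] at h1
    have h2 : (1 : O) ∈ Ideal.span {1 - ζ} := by
      rw [← Ideal.Quotient.eq_zero_iff_mem, map_one]
      exact h1
    rw [Ideal.mem_span_singleton] at h2
    exact hζ.irr.not_isUnit (isUnit_of_dvd_one h2)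
  · exact hsN (Submodule.smul_mem_pointwise_smul m s ⊤ trivial)

private theorem RankProj_basis (p : ℕ) [Fact p.Prime] {ζ : O} (hζ : IsZeta p ζ) {z : Γ} {r : ℕ}
    {j : Lam r →* Γ} (hD : DomData p z j) :
    @Module.Finite (MonoidAlgebra O (Lam r)) (Tw z ζ) _ _ (modS z ζ j (Tw z ζ)) ∧
      @Module.Free (MonoidAlgebra O (Lam r)) (Tw z ζ) _ _ (modS z ζ j (Tw z ζ)) := by
  obtain ⟨m, c, hc⟩ := tw_free p (Fact.out (p := p.Prime)) hD ζ hζ.pow
  let _ : Module (MonoidAlgebra O (Lam r)) (Tw z ζ) := modS z ζ j (Tw z ζ)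
  let f : (Fin m → MonoidAlgebra O (Lam r)) →ₗ[MonoidAlgebra O (Lam r)] Tw z ζ :=
    Fintype.linearCombination (MonoidAlgebra O (Lam r)) c
  have hf : ∀ a, f a = ∑ i, sigma z ζ j (a i) * c i := by
    intro a
    rw [Fintype.linearCombination_apply]
    rfl
  have hbij : Function.Bijective f := by
    constructor
    · intro a b hab
      obtain ⟨a', _, ha'⟩ := hc (f a)
      rw [ha' a (hf a), ha' b (by rw [hab]; exact hf b)]
    · intro x
      obtain ⟨a, ha, _⟩ := hc x
      exact ⟨a, by rw [hf, ← ha]⟩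
  let e := LinearEquiv.ofBijective f hbij
  exact ⟨Module.Finite.equiv e, Module.Free.of_equiv e⟩

private theorem RankProj_finS (p : ℕ) [Fact p.Prime] {ζ : O} (hζ : IsZeta p ζ) {z : Γ} {r : ℕ}
    {j : Lam r →* Γ} (hD : DomData p z j) (M : Type) [AddCommGroup M] [Module (Tw z ζ) M]
    [Module.Finite (Tw z ζ) M] :
    @Module.Finite (MonoidAlgebra O (Lam r)) M _ _ (modS z ζ j M) := by
  let _ : Module (MonoidAlgebra O (Lam r)) M := modS z ζ j M
  let _ : Module (MonoidAlgebra O (Lam r)) (Tw z ζ) := modS z ζ j (Tw z ζ)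
  have _ : IsScalarTower (MonoidAlgebra O (Lam r)) (Tw z ζ) M :=
    ⟨fun s x m => mul_smul (sigma z ζ j s) x m⟩
  have _ : Module.Finite (MonoidAlgebra O (Lam r)) (Tw z ζ) := (RankProj_basis p hζ hD).1
  exact Module.Finite.trans (Tw z ζ) M

/-- the inequality `(1)` -/
private theorem RankProj_le (p : ℕ) [Fact p.Prime] {ζ : O} (hζ : IsZeta p ζ) {z : Γ} {r : ℕ}
    {j : Lam r →* Γ} (hD : DomData p z j) (M : Type) [AddCommGroup M] [Module (Tw z ζ) M]
    [Module.Finite (Tw z ζ) M] {c : ℕ} (v : Fin c → M)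
    (hv : Submodule.span (Tw z ζ) (Set.range v) ⊔ RankProj_U z ζ M = ⊤) :
    rk z ζ j M ≤ c * rk z ζ j (Tw z ζ) := by
  obtain ⟨s, hs, hsN⟩ := RankProj_key p hζ hD M (RankProj_finS p hζ hD M) _ hv
  have hSdom : IsDomain (MonoidAlgebra O (Lam r)) := lam_isDomain r
  let _ : Module (MonoidAlgebra O (Lam r)) M := modS z ζ j M
  let _ : Module (MonoidAlgebra O (Lam r)) (Tw z ζ) := modS z ζ j (Tw z ζ)
  have _ : IsScalarTower (MonoidAlgebra O (Lam r)) (Tw z ζ) M :=
    ⟨fun s x m => mul_smul (sigma z ζ j s) x m⟩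
  have _ : IsScalarTower (MonoidAlgebra O (Lam r)) (Tw z ζ) (Tw z ζ) :=
    ⟨fun s x m => mul_smul (sigma z ζ j s) x m⟩
  have _ : Module.Finite (MonoidAlgebra O (Lam r)) M := RankProj_finS p hζ hD M
  have _ : Module.Finite (MonoidAlgebra O (Lam r)) (Tw z ζ) := (RankProj_basis p hζ hD).1
  have _ : Module.Free (MonoidAlgebra O (Lam r)) (Tw z ζ) := (RankProj_basis p hζ hD).2
  let f : (Fin c → Tw z ζ) →ₗ[Tw z ζ] M := Fintype.linearCombination (Tw z ζ) v
  let f' : (Fin c → Tw z ζ) →ₗ[MonoidAlgebra O (Lam r)] M :=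
    { toFun := f
      map_add' := map_add f
      map_smul' := fun s x => by
        rw [RingHom.id_apply]
        exact f.map_smul (sigma z ζ j s) x }
  have h1 : Module.finrank (MonoidAlgebra O (Lam r)) M ≤
      Module.finrank (MonoidAlgebra O (Lam r)) (LinearMap.range f') := by
    apply RankProj_torsion _ s hs
    intro m
    have h2 := hsN m
    rw [← Fintype.range_linearCombination] at h2
    obtain ⟨x, hx⟩ := h2
    exact ⟨x, hx⟩
  have h2 : Module.finrank (MonoidAlgebra O (Lam r)) (LinearMap.range f') ≤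
      Module.finrank (MonoidAlgebra O (Lam r)) (Fin c → Tw z ζ) := LinearMap.finrank_range_le f'
  have h3 : Module.finrank (MonoidAlgebra O (Lam r)) (Fin c → Tw z ζ) =
      c * Module.finrank (MonoidAlgebra O (Lam r)) (Tw z ζ) := by
    rw [Module.finrank_pi_fintype, Finset.sum_const, Finset.card_univ, Fintype.card_fin,
      smul_eq_mul]
  change Module.finrank (MonoidAlgebra O (Lam r)) M ≤
    c * Module.finrank (MonoidAlgebra O (Lam r)) (Tw z ζ)
  omega

/-- generators modulo `𝔪 M` -/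
private theorem RankProj_gens (p : ℕ) [Fact p.Prime] {ζ : O} {z : Γ} (M : Type)
    [AddCommGroup M] [Module (Tw z ζ) M] [Module (ZMod p) (M ⧸ RankProj_U z ζ M)]
    [Module.Finite (ZMod p) (M ⧸ RankProj_U z ζ M)] :
    ∃ v : Fin (Module.finrank (ZMod p) (M ⧸ RankProj_U z ζ M)) → M,
      Submodule.span (Tw z ζ) (Set.range v) ⊔ RankProj_U z ζ M = ⊤ := by
  let b := Module.finBasis (ZMod p) (M ⧸ RankProj_U z ζ M)
  choose v hv using fun i => Submodule.mkQ_surjective (RankProj_U z ζ M) (b i)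
  refine ⟨v, ?_⟩
  rw [eq_top_iff]
  rintro x -
  let K : AddSubgroup (M ⧸ RankProj_U z ζ M) :=
    (Submodule.map (RankProj_U z ζ M).mkQ (Submodule.span (Tw z ζ) (Set.range v))).toAddSubgroup
  have hK : AddSubgroup.toZModSubmodule p K = ⊤ := by
    rw [eq_top_iff, ← b.span_eq, Submodule.span_le]
    rintro _ ⟨i, rfl⟩
    rw [← hv]
    exact ⟨v i, Submodule.subset_span ⟨i, rfl⟩, rfl⟩
  have hx : (RankProj_U z ζ M).mkQ x ∈ AddSubgroup.toZModSubmodule p K := by rw [hK]; trivial
  obtain ⟨y, hy, hyx⟩ := hx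
  have h1 : x - y ∈ RankProj_U z ζ M := by
    rw [← Submodule.Quotient.mk_eq_zero, ← Submodule.mkQ_apply, map_sub, hyx, sub_self]
  have h2 : x = y + (x - y) := by abel
  rw [h2]
  exact Submodule.add_mem_sup hy h1

theorem rk_projective (p : ℕ) [Fact p.Prime] {ζ : O} (hζ : IsZeta p ζ) {z : Γ} {r : ℕ}
    {j : Lam r →* Γ} (hD : DomData p z j) (N : Type) [AddCommGroup N] [Module (Tw z ζ) N]
    [Module.Finite (Tw z ζ) N] [Module.Projective (Tw z ζ) N] :
    rk z ζ j (Tw z ζ) ∣ rk z ζ j N := by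
  obtain ⟨k, f, hf⟩ := Module.Finite.exists_fin' (Tw z ζ) N
  obtain ⟨g, hg⟩ := Module.projective_lifting_property f LinearMap.id hf
  have hfg : ∀ x, f (g x) = x := fun x => LinearMap.congr_fun hg x
  let K := LinearMap.ker f
  let q : (Fin k → Tw z ζ) →ₗ[Tw z ζ] K := (LinearMap.id - g ∘ₗ f).codRestrict K (by
    intro x
    rw [LinearMap.mem_ker, LinearMap.sub_apply, map_sub, LinearMap.comp_apply, hfg,
      LinearMap.id_apply, sub_self])
  have hq : ∀ x, (q x : Fin k → Tw z ζ) = x - g (f x) := fun _ => rfl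
  have hqs : Function.Surjective q := by
    intro x
    refine ⟨x, Subtype.ext ?_⟩
    rw [hq, LinearMap.mem_ker.1 x.2, map_zero, sub_zero]
  have hKfin : Module.Finite (Tw z ζ) K := Module.Finite.of_surjective q hqs
  -- the quotients
  let iN : Module (ZMod p) (N ⧸ RankProj_U z ζ N) :=
    AddCommGroup.zmodModule (RankProj_p_quot hζ z N)
  let iK : Module (ZMod p) (K ⧸ RankProj_U z ζ K) :=
    AddCommGroup.zmodModule (RankProj_p_quot hζ z K)
  have hfin : ∀ (M : Type) [AddCommGroup M] [Module (Tw z ζ) M] [Module.Finite (Tw z ζ) M]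
      [Module (ZMod p) (M ⧸ RankProj_U z ζ M)],
      Module.Finite (ZMod p) (M ⧸ RankProj_U z ζ M) := by
    intro M _ _ _ _
    obtain ⟨n, v, hv⟩ := Module.Finite.exists_fin (R := Tw z ζ) (M := M)
    have h1 := RankProj_span hζ v hv (RankProj_U z ζ M).mkQ.toAddMonoidHom
      (Submodule.mkQ_surjective _) (fun x hx => (Submodule.Quotient.mk_eq_zero _).2 hx)
    exact ⟨Submodule.fg_def.2 ⟨_, Set.finite_range _, h1⟩⟩
  have hN1 : Module.Finite (ZMod p) (N ⧸ RankProj_U z ζ N) := hfin N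
  have hK1 : Module.Finite (ZMod p) (K ⧸ RankProj_U z ζ K) := hfin K
  obtain ⟨v, hv⟩ := @RankProj_gens O Γ _ _ _ _ p _ ζ z N _ _ iN hN1
  obtain ⟨w, hw⟩ := @RankProj_gens O Γ _ _ _ _ p _ ζ z K _ _ iK hK1
  have h1 := RankProj_le p hζ hD N v hv
  have h2 := RankProj_le p hζ hD K w hw
  -- the dimensions
  have h3 : Module.finrank (ZMod p) (N ⧸ RankProj_U z ζ N) +
      Module.finrank (ZMod p) (K ⧸ RankProj_U z ζ K) ≤ k := by
    let Q : (Fin k → Tw z ζ) →+ (N ⧸ RankProj_U z ζ N) × (K ⧸ RankProj_U z ζ K) :=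
      (((RankProj_U z ζ N).mkQ ∘ₗ f).toAddMonoidHom).prod
        (((RankProj_U z ζ K).mkQ ∘ₗ q).toAddMonoidHom)
    have hQ : Function.Surjective Q := by
      rintro ⟨a, b⟩
      obtain ⟨a, rfl⟩ := Submodule.mkQ_surjective _ a
      obtain ⟨b, rfl⟩ := Submodule.mkQ_surjective _ b
      refine ⟨g a + b, ?_⟩
      have e1 : f (g a + b) = a := by
        rw [map_add, hfg, LinearMap.mem_ker.1 b.2, add_zero]
      have e2 : q (g a + b) = b := by
        apply Subtype.ext
        rw [hq, e1]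
        abel
      change ((RankProj_U z ζ N).mkQ (f (g a + b)), (RankProj_U z ζ K).mkQ (q (g a + b))) = _
      rw [e1, e2]
    have h4 := RankProj_span hζ (fun i : Fin k => (Pi.single i 1 : Fin k → Tw z ζ)) (by
      rw [← (Pi.basisFun (Tw z ζ) (Fin k)).span_eq]
      congr 1
      ext x
      simp [Pi.basisFun_apply]) Q hQ (by
      intro x hx
      change ((RankProj_U z ζ N).mkQ (f x), (RankProj_U z ζ K).mkQ (q x)) = 0
      rw [Submodule.mkQ_apply, Submodule.mkQ_apply,
        (Submodule.Quotient.mk_eq_zero _).2 (RankProj_U_map f hx),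
        (Submodule.Quotient.mk_eq_zero _).2 (RankProj_U_map q hx)]
      rfl)
    have h5 := finrank_range_le_card (R := ZMod p)
      (fun i : Fin k => Q (Pi.single i 1 : Fin k → Tw z ζ))
    have h6 : Module.finrank (ZMod p) ((N ⧸ RankProj_U z ζ N) × (K ⧸ RankProj_U z ζ K)) =
        Module.finrank (ZMod p) (N ⧸ RankProj_U z ζ N) +
          Module.finrank (ZMod p) (K ⧸ RankProj_U z ζ K) :=
      @Module.finrank_prod (ZMod p) _ _ _ _ _ iN iK _
        (@Module.Free.of_divisionRing (ZMod p) _ _ _ iN)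
        (@Module.Free.of_divisionRing (ZMod p) _ _ _ iK) hN1 hK1
    rw [Set.finrank, h4, finrank_top, h6, Fintype.card_fin] at h5
    exact h5
  -- additivity
  have h6 : rk z ζ j N + rk z ζ j K = k * rk z ζ j (Tw z ζ) := by
    have hSdom : IsDomain (MonoidAlgebra O (Lam r)) := lam_isDomain r
    let _ : Module (MonoidAlgebra O (Lam r)) N := modS z ζ j N
    let _ : Module (MonoidAlgebra O (Lam r)) K := modS z ζ j K
    let _ : Module (MonoidAlgebra O (Lam r)) (Tw z ζ) := modS z ζ j (Tw z ζ)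
    have _ : Module.Finite (MonoidAlgebra O (Lam r)) (Tw z ζ) := (RankProj_basis p hζ hD).1
    have _ : Module.Free (MonoidAlgebra O (Lam r)) (Tw z ζ) := (RankProj_basis p hζ hD).2
    let f' : (Fin k → Tw z ζ) →ₗ[MonoidAlgebra O (Lam r)] N :=
      { toFun := f
        map_add' := map_add f
        map_smul' := fun s x => by
          rw [RingHom.id_apply]
          exact f.map_smul (sigma z ζ j s) x }
    have h7 := Submodule.finrank_quotient_add_finrank (R := MonoidAlgebra O (Lam r))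
      (LinearMap.ker f')
    have h8 : Module.finrank (MonoidAlgebra O (Lam r)) (Fin k → Tw z ζ) =
        k * Module.finrank (MonoidAlgebra O (Lam r)) (Tw z ζ) := by
      rw [Module.finrank_pi_fintype, Finset.sum_const, Finset.card_univ, Fintype.card_fin,
        smul_eq_mul]
    have h9 : Module.finrank (MonoidAlgebra O (Lam r)) ((Fin k → Tw z ζ) ⧸ LinearMap.ker f') =
        Module.finrank (MonoidAlgebra O (Lam r)) N :=
      (f'.quotKerEquivOfSurjective hf).finrank_eq
    have h10 : Module.finrank (MonoidAlgebra O (Lam r)) (LinearMap.ker f') =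
        Module.finrank (MonoidAlgebra O (Lam r)) K :=
      LinearEquiv.finrank_eq
        { toFun := fun x => ⟨x.1, x.2⟩
          invFun := fun x => ⟨x.1, x.2⟩
          left_inv := fun _ => rfl
          right_inv := fun _ => rfl
          map_add' := fun _ _ => rfl
          map_smul' := fun _ _ => rfl }
    change Module.finrank (MonoidAlgebra O (Lam r)) N + Module.finrank (MonoidAlgebra O (Lam r)) K =
      k * Module.finrank (MonoidAlgebra O (Lam r)) (Tw z ζ)
    omega
  refine ⟨Module.finrank (ZMod p) (N ⧸ RankProj_U z ζ N), ?_⟩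
  have h11 := Nat.mul_le_mul_right (rk z ζ j (Tw z ζ)) h3
  rw [add_mul] at h11
  have h12 : rk z ζ j N = Module.finrank (ZMod p) (N ⧸ RankProj_U z ζ N) * rk z ζ j (Tw z ζ) := by
    omega
  rw [h12, mul_comm]

end D687Dom
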