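import Pool.Agent.Lib_MP_d687bf_dom.Defs

/-!
# Piece B: representatives of `Γ ⧸ ⟨z⟩` form a basis of `Tw z ζ`

Every `g : Γ` is `e i * z ^ k` with a unique `i =: π g` and `k` unique mod `p`; `θ g := ζ ^ k` is well
defined (`ζ ^ p = 1`, `orderOf z = p`), `θ (g z) = ζ θ g`, `π (g z) = π g`. `Γ` acts on `I →₀ O` by
`f g (δ_i) := θ (g e_i) δ_{π (g e_i)}` (a homomorphism, `f z = ζ`, because `z` is central). Let
`v := θ 1 δ_{π 1}`; then `f g v = θ g δ_{π g}`. The `O`-linear maps `I →₀ O → Tw`, `δ_i ↦ of (e_i)`, and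
`Tw → (I →₀ O)`, `r ↦ lift f r v`, are inverse to each other (check on `of g`, `Tw.induction`:
`of g = of (e_{π g}) of z ^ k = θ g • of (e_{π g})`).
-/

namespace D687Dom

variable {O Γ : Type} [CommRing O] [Group Γ]

private theorem TwBasis_lift (z : Γ) (ζ : O) {M : Type} [AddCommGroup M] [Module O M]
    (f : Γ →* Module.End O M) (hf : f z = algebraMap O (Module.End O M) ζ) :
    ∃ F : Tw z ζ →ₗ[O] Module.End O M, ∀ g, F (Tw.of z ζ g) = f g :=
  ⟨(Tw.lift f hf).toLinearMap, fun g => Tw.lift_of f hf g⟩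

theorem tw_basis (p : ℕ) (hp : 0 < p) (z : Γ) (hc : ∀ g, g * z = z * g) (hz : orderOf z = p) (ζ : O)
    (hζ : ζ ^ p = 1) {I : Type} (e : I → Γ)
    (he : ∀ g : Γ, ∃! i, ∃ k : ℕ, g = e i * z ^ k) :
    ∃ b : Module.Basis I O (Tw z ζ), ∀ i, b i = Tw.of z ζ (e i) := by
  classical
  choose π hπ huniq using he
  choose κ hκ using hπ
  -- uniqueness
  have key : ∀ (g : Γ) (i : I) (k : ℕ), g = e i * z ^ k → π g = i ∧ ζ ^ κ g = ζ ^ k := by
    intro g i k hg
    have h1 : i = π g := huniq g i ⟨k, hg⟩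
    refine ⟨h1.symm, ?_⟩
    have h2 : z ^ κ g = z ^ k := by
      have h3 := hκ g
      rw [← h1] at h3
      exact mul_left_cancel (h3.symm.trans hg)
    have h4 : κ g ≡ k [MOD p] := by
      rw [← hz]
      exact pow_eq_pow_iff_modEq.1 h2
    rw [pow_eq_pow_mod (κ g) hζ, pow_eq_pow_mod k hζ]
    exact congrArg (ζ ^ ·) h4
  have hmul : ∀ g h : Γ, π (g * h) = π (g * e (π h)) ∧
      ζ ^ κ (g * h) = ζ ^ κ (g * e (π h)) * ζ ^ κ h := by
    intro g h
    have h1 := key (g * h) (π (g * e (π h))) (κ (g * e (π h)) + κ h) (by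
      rw [pow_add, ← mul_assoc, ← hκ (g * e (π h)), mul_assoc, ← hκ h])
    rw [pow_add] at h1
    exact h1
  have hei : ∀ i, π (e i) = i ∧ ζ ^ κ (e i) = 1 := by
    intro i
    have h1 := key (e i) i 0 (by rw [pow_zero, mul_one])
    rwa [pow_zero] at h1
  -- the action
  let f0 : Γ → Module.End O (I →₀ O) := fun g =>
    Finsupp.linearCombination O fun i => ζ ^ κ (g * e i) • Finsupp.single (π (g * e i)) (1 : O)
  have hf0 : ∀ g i, f0 g (Finsupp.single i 1) =
      ζ ^ κ (g * e i) • Finsupp.single (π (g * e i)) (1 : O) := by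
    intro g i
    rw [Finsupp.linearCombination_single, one_smul]
  have hext : ∀ {N : Type} [AddCommGroup N] [Module O N] (F G : (I →₀ O) →ₗ[O] N),
      (∀ i, F (Finsupp.single i 1) = G (Finsupp.single i 1)) → F = G := by
    intro N _ _ F G h
    refine Finsupp.lhom_ext fun i c => ?_
    have h1 : (Finsupp.single i c : I →₀ O) = c • Finsupp.single i 1 := by
      rw [Finsupp.smul_single, smul_eq_mul, mul_one]
    rw [h1, map_smul, map_smul, h]
  obtain ⟨f, hf⟩ : ∃ f : Γ →* Module.End O (I →₀ O), ∀ g i, f g (Finsupp.single i 1) =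
      ζ ^ κ (g * e i) • Finsupp.single (π (g * e i)) (1 : O) := ⟨
    { toFun := f0
      map_one' := by
        refine hext _ _ fun i => ?_
        rw [hf0, one_mul, (hei i).1, (hei i).2, one_smul]
        rfl
      map_mul' := by
        intro g h
        refine hext _ _ fun i => ?_
        rw [Module.End.mul_apply, hf0, hf0, map_smul, hf0, mul_assoc, (hmul g (h * e i)).1,
          (hmul g (h * e i)).2, mul_comm, mul_smul] }, hf0⟩
  have hfz : f z = algebraMap O (Module.End O (I →₀ O)) ζ := by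
    refine hext _ _ fun i => ?_
    have h1 := key (z * e i) i 1 (by rw [pow_one, hc])
    rw [hf, h1.1, h1.2, pow_one, Module.algebraMap_end_apply]
  obtain ⟨v, hv⟩ : ∃ v : I →₀ O, v = ζ ^ κ 1 • Finsupp.single (π 1) 1 := ⟨_, rfl⟩
  have hfv : ∀ g, f g v = ζ ^ κ g • Finsupp.single (π g) 1 := by
    intro g
    have h1 := hmul g 1
    rw [mul_one] at h1
    rw [hv, map_smul, hf, h1.1, h1.2, mul_comm, mul_smul]
  obtain ⟨F, hF⟩ := TwBasis_lift z ζ f hfz
  let Φ : Tw z ζ →ₗ[O] (I →₀ O) :=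
    { toFun := fun r => F r v
      map_add' := fun a b => by rw [map_add, LinearMap.add_apply]
      map_smul' := fun c a => by rw [map_smul, LinearMap.smul_apply, RingHom.id_apply] }
  have hΦ : ∀ g, Φ (Tw.of z ζ g) = ζ ^ κ g • Finsupp.single (π g) 1 := by
    intro g
    change F (Tw.of z ζ g) v = _
    rw [hF, hfv]
  let Ψ : (I →₀ O) →ₗ[O] Tw z ζ := Finsupp.linearCombination O fun i => Tw.of z ζ (e i)
  have hΨ : ∀ i, Ψ (Finsupp.single i 1) = Tw.of z ζ (e i) := by
    intro i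
    rw [Finsupp.linearCombination_single, one_smul]
  have h12 : Φ ∘ₗ Ψ = LinearMap.id := by
    refine hext _ _ fun i => ?_
    rw [LinearMap.comp_apply, hΨ, hΦ, (hei i).1, (hei i).2, one_smul, LinearMap.id_apply]
  have h21 : Ψ ∘ₗ Φ = LinearMap.id := by
    refine LinearMap.ext fun r => ?_
    rw [LinearMap.comp_apply, LinearMap.id_apply]
    induction r using Tw.induction with
    | h0 => rw [map_zero, map_zero]
    | hadd a b ha hb => rw [map_add, map_add, ha, hb]
    | hsingle c g =>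
      rw [map_smul, map_smul, hΦ, map_smul, hΨ]
      congr 1
      have h1 : Tw.of z ζ g = Tw.of z ζ (e (π g)) * Tw.of z ζ z ^ κ g := by
        rw [← map_pow, ← map_mul, ← hκ g]
      rw [h1, Tw.of_z, ← map_pow, ← Algebra.commutes, ← Algebra.smul_def]
  refine ⟨Module.Basis.ofRepr (LinearEquiv.ofLinearMap Φ Ψ h12 h21), fun i => ?_⟩
  exact hΨ i

end D687Dom
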