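import Pool.Agent.Lib_MP_d687bf_dom.Defs

/-!
# Piece I: twisted permutation modules are projective

Use `Module.Projective.of_lifting_property''` (or a version for surjections of modules in `Type`).
Given a surjection `f : Q → Q'` of `Tw`-modules and `φ : TwF X N → Q'` linear, choose for every orbit a
representative `x₀` and, by `LiftProp` for its stabiliser, an equivariant lift `g_{x₀} : N → Q` of
`n ↦ φ (n at x₀)`. Define `ψ (n at γ x₀) = γ g_{x₀} (γ⁻¹ n)` (independent of `γ`), extend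
`O`-linearly (`Finsupp.lsum`), `ψ` commutes with `Γ`, so it is `Tw`-linear (`Tw.toLinear`), and `f ψ = φ`.
`Q`, `Q'` are `O`-modules by `Module.compHom _ (algebraMap O (Tw z ζ))`.
-/

namespace D687Dom

variable {O Γ : Type} [CommRing O] [Group Γ]

/-- `n ↦ n at x` as a linear map -/
private noncomputable def TwProj_single (O : Type) [CommRing O] {X N : Type} [AddCommGroup N]
    [Module O N] (x : X) : N →ₗ[O] TwF X N :=
  (TwF.e O X N).symm.toLinearMap ∘ₗ Finsupp.lsingle x

private theorem TwProj_single_apply (O : Type) [CommRing O] {X N : Type} [AddCommGroup N]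
    [Module O N] (x : X) (n : N) : TwProj_single O x n = (TwF.single x n : TwF X N) := rfl

/-- representatives of the orbits -/
private theorem TwProj_rep (Γ X : Type) [Group Γ] [MulAction Γ X] :
    ∃ (rep : X → X) (γ : X → Γ), (∀ (g : Γ) x, rep (g • x) = rep x) ∧ ∀ x, γ x • rep x = x := by
  have h1 : ∀ x : X, ∃ g : Γ,
      g • (Quotient.out (Quotient.mk (MulAction.orbitRel Γ X) x)) = x := by
    intro x
    have h2 : (MulAction.orbitRel Γ X).r
        (Quotient.out (Quotient.mk (MulAction.orbitRel Γ X) x)) x := Quotient.exact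
        (Quotient.out_eq (Quotient.mk (MulAction.orbitRel Γ X) x))
    have h3 : x ∈ MulAction.orbit Γ (Quotient.out (Quotient.mk (MulAction.orbitRel Γ X) x)) :=
      MulAction.orbitRel_apply.1 (Setoid.symm' _ h2)
    obtain ⟨g, hg⟩ := h3
    exact ⟨g, hg⟩
  choose γ hγ using h1
  refine ⟨fun x => Quotient.out (Quotient.mk (MulAction.orbitRel Γ X) x), γ, fun g x => ?_, hγ⟩
  have h2 : Quotient.mk (MulAction.orbitRel Γ X) (g • x) =
      Quotient.mk (MulAction.orbitRel Γ X) x := Quotient.sound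
        (MulAction.orbitRel_apply.2 ⟨g, rfl⟩)
  simp only [h2]

theorem twF_projective (z : Γ) (ζ : O) (X N : Type) [AddCommGroup N] [Module (Tw z ζ) N]
    [Module O N] [IsScalarTower O (Tw z ζ) N] [MulAction Γ X] [ZTriv z X]
    (h : ∀ x : X, LiftProp z ζ (MulAction.stabilizer Γ x : Set Γ) N) :
    Module.Projective (Tw z ζ) (TwF X N) := by
  refine Module.Projective.of_lifting_property'' fun f hf => ?_
  obtain ⟨rep, γ, hrep, hγ⟩ := TwProj_rep Γ X
  have hlift : ∀ x : X, ∃ k : N →ₗ[O] (TwF X N →₀ Tw z ζ),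
      (∀ s ∈ (MulAction.stabilizer Γ x : Set Γ), ∀ n,
        k (Tw.of z ζ s • n) = Tw.of z ζ s • k n) ∧ ∀ n, f (k n) = TwF.single x n := by
    intro x
    obtain ⟨k, hk1, hk2⟩ := h x (TwF X N →₀ Tw z ζ) (TwF X N) f hf (TwProj_single O x)
      (by
        intro s hs n
        rw [TwProj_single_apply, TwProj_single_apply, TwF.of_smul_single]
        have h1 : s • x = x := hs
        rw [h1])
    exact ⟨k, hk1, hk2⟩
  choose k hk1 hk2 using hlift
  have hinv : ∀ (g : Γ) {M : Type} [AddCommGroup M] [Module (Tw z ζ) M] (m : M),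
      Tw.of z ζ g⁻¹ • Tw.of z ζ g • m = m := by
    intro g M _ _ m
    rw [← mul_smul, ← map_mul, inv_mul_cancel, map_one, one_smul]
  have hinv2 : ∀ (g : Γ) {M : Type} [AddCommGroup M] [Module (Tw z ζ) M] (m : M),
      Tw.of z ζ g • Tw.of z ζ g⁻¹ • m = m := by
    intro g M _ _ m
    rw [← mul_smul, ← map_mul, mul_inv_cancel, map_one, one_smul]
  obtain ⟨ψ, hψ⟩ : ∃ ψ : TwF X N →ₗ[O] (TwF X N →₀ Tw z ζ), ∀ x n, ψ (TwF.single x n) =
      Tw.of z ζ (γ x) • k (rep x) (Tw.of z ζ (γ x)⁻¹ • n) := by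
    refine ⟨(Finsupp.lsum O fun x : X =>
      (DistribSMul.toLinearMap O (TwF X N →₀ Tw z ζ) (Tw.of z ζ (γ x))) ∘ₗ (k (rep x)) ∘ₗ
        (DistribSMul.toLinearMap O N (Tw.of z ζ (γ x)⁻¹))) ∘ₗ (TwF.e O X N).toLinearMap, ?_⟩
    intro x n
    change (Finsupp.lsum O _) (Finsupp.single x n) = _
    rw [Finsupp.lsum_single]
    rfl
  have hψ2 : ∀ (x : X) (g : Γ) (n : N), g • rep x = x →
      ψ (TwF.single x n) = Tw.of z ζ g • k (rep x) (Tw.of z ζ g⁻¹ • n) := by
    intro x g n hg
    have hs : (γ x)⁻¹ * g ∈ (MulAction.stabilizer Γ (rep x) : Set Γ) := by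
      change ((γ x)⁻¹ * g) • rep x = rep x
      rw [mul_smul, hg, inv_smul_eq_iff]
      exact (hγ x).symm
    have h1 := hk1 (rep x) _ hs (Tw.of z ζ g⁻¹ • n)
    have h2 : Tw.of z ζ ((γ x)⁻¹ * g) • Tw.of z ζ g⁻¹ • n = Tw.of z ζ (γ x)⁻¹ • n := by
      rw [← mul_smul, ← map_mul, mul_assoc, mul_inv_cancel, mul_one]
    rw [h2] at h1
    rw [hψ, h1, ← mul_smul, ← map_mul, mul_inv_cancel_left]
  have hcomm : ∀ (g : Γ) (F : TwF X N), ψ (Tw.of z ζ g • F) = Tw.of z ζ g • ψ F := by
    intro g F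
    have h1 : ψ ∘ₗ (DistribSMul.toLinearMap O (TwF X N) (Tw.of z ζ g)) =
        (DistribSMul.toLinearMap O (TwF X N →₀ Tw z ζ) (Tw.of z ζ g)) ∘ₗ ψ := by
      refine TwF.hom_ext fun x n => ?_
      rw [LinearMap.comp_apply, LinearMap.comp_apply, DistribSMul.toLinearMap_apply,
        DistribSMul.toLinearMap_apply, TwF.of_smul_single,
        hψ2 (g • x) (g * γ x) _ (by rw [hrep, mul_smul, hγ]), hrep, hψ, map_mul, mul_smul,
        mul_inv_rev, map_mul, mul_smul, hinv]
    exact LinearMap.congr_fun h1 F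
  refine ⟨Tw.toLinear ψ hcomm, ?_⟩
  refine LinearMap.ext fun F => ?_
  rw [LinearMap.comp_apply, Tw.toLinear_apply, LinearMap.id_apply]
  have h1 : (f.restrictScalars O) ∘ₗ ψ = LinearMap.id := by
    refine TwF.hom_ext fun x n => ?_
    rw [LinearMap.comp_apply, LinearMap.id_apply, hψ, LinearMap.restrictScalars_apply, map_smul,
      hk2, TwF.of_smul_single, hγ, hinv2]
  exact LinearMap.congr_fun h1 F

end D687Dom
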