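import Pool.Agent.Lib_MP_d687bf_dom.Defs

/-!
# Piece J: the lattice `Y`

`Y = {φ : Γ → ℤ ^ r : φ (j b g) = b + φ g, φ (z g) = φ g}` with the pointwise order, the action
`(γ φ) g = φ (g γ)`, the shift `u φ = φ + 1` and `ht φ ψ = ∑_{t} ∑_i (ψ t i - φ t i)⁺` over
representatives `t` of `(j Λ ⟨z⟩) \ Γ`.
-/

namespace D687Dom

variable {Γ : Type} [Group Γ]

/-- equivariant functions `Γ → ℤ ^ r` -/
def YY {r : ℕ} (z : Γ) (j : Lam r →* Γ) : Type :=
  {φ : Γ → Fin r → ℤ // (∀ (b : Lam r) (g : Γ), φ (j b * g) = Multiplicative.toAdd b + φ g) ∧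
    ∀ g, φ (z * g) = φ g}

variable {r : ℕ} {z : Γ} {j : Lam r →* Γ}

namespace YY

/-- pointwise order, supremum, infimum -/
instance : Lattice (YY z j) :=
  Subtype.lattice (fun {φ ψ} hφ hψ => by
      refine ⟨fun b g => ?_, fun g => ?_⟩
      · rw [Pi.sup_apply, Pi.sup_apply, hφ.1, hψ.1]
        funext i
        simp only [Pi.sup_apply, Pi.add_apply]
        exact max_add_add_left _ _ _
      · rw [Pi.sup_apply, Pi.sup_apply, hφ.2, hψ.2]) (fun {φ ψ} hφ hψ => by
      refine ⟨fun b g => ?_, fun g => ?_⟩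
      · rw [Pi.inf_apply, Pi.inf_apply, hφ.1, hψ.1]
        funext i
        simp only [Pi.inf_apply, Pi.add_apply]
        exact min_add_add_left _ _ _
      · rw [Pi.inf_apply, Pi.inf_apply, hφ.2, hψ.2])

theorem val_j (φ : YY z j) (b : Lam r) (g : Γ) : φ.1 (j b * g) = Multiplicative.toAdd b + φ.1 g :=
  φ.2.1 b g

theorem val_z (φ : YY z j) (g : Γ) : φ.1 (z * g) = φ.1 g := φ.2.2 g

/-- `φ ↦ φ + 1` -/
def u (z : Γ) (j : Lam r →* Γ) : YY z j ≃o YY z j where
  toFun φ := ⟨fun g => φ.1 g + 1, fun b g => by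
    have := val_j φ b g
    change φ.1 (j b * g) + 1 = Multiplicative.toAdd b + (φ.1 g + 1)
    rw [this, add_assoc], fun g => by
    have := val_z φ g
    change φ.1 (z * g) + 1 = φ.1 g + 1
    rw [this]⟩
  invFun φ := ⟨fun g => φ.1 g - 1, fun b g => by
    have := val_j φ b g
    change φ.1 (j b * g) - 1 = Multiplicative.toAdd b + (φ.1 g - 1)
    rw [this, add_sub_assoc], fun g => by
    have := val_z φ g
    change φ.1 (z * g) - 1 = φ.1 g - 1
    rw [this]⟩
  left_inv φ := Subtype.ext (funext fun g => by simp)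
  right_inv φ := Subtype.ext (funext fun g => by simp)
  map_rel_iff' {φ ψ} := by
    constructor
    · intro h g i
      have := h g i
      simpa using this
    · intro h g i
      have := h g i
      simpa using this

instance : MulAction Γ (YY z j) where
  smul γ φ := ⟨fun g => φ.1 (g * γ), fun b g => by
    change φ.1 (j b * g * γ) = Multiplicative.toAdd b + φ.1 (g * γ)
    rw [mul_assoc]
    exact val_j φ b (g * γ), fun g => by
    change φ.1 (z * g * γ) = φ.1 (g * γ)
    rw [mul_assoc]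
    exact val_z φ (g * γ)⟩
  one_smul φ := Subtype.ext (funext fun g => by
    change φ.1 (g * 1) = φ.1 g
    rw [mul_one])
  mul_smul γ γ' φ := Subtype.ext (funext fun g => by
    change φ.1 (g * (γ * γ')) = φ.1 (g * γ * γ')
    rw [mul_assoc])

theorem smul_val (γ : Γ) (φ : YY z j) (g : Γ) : (γ • φ).1 g = φ.1 (g * γ) := rfl

instance : BoxAct Γ (u z j) where
  smul_le γ φ ψ h g := h (g * γ)
  smul_u γ φ := rfl

theorem ztriv (hc : ∀ g, g * z = z * g) : ZTriv z (YY z j) where
  smul_eq φ := Subtype.ext (funext fun g => by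
    rw [smul_val, hc]
    exact val_z φ g)

/-- the subgroup `j Λ ⟨z⟩` -/
private def YBox_H (z : Γ) (j : Lam r →* Γ) (hc : ∀ g, g * z = z * g) : Subgroup Γ where
  carrier := {g | ∃ (b : Lam r) (k : ℤ), g = j b * z ^ k}
  mul_mem' := by
    rintro _ _ ⟨b, k, rfl⟩ ⟨b', k', rfl⟩
    refine ⟨b * b', k + k', ?_⟩
    have hcm : Commute z (j b') := (hc (j b')).symm
    have h1 : z ^ k * j b' = j b' * z ^ k := (hcm.zpow_left k).eq
    rw [map_mul, zpow_add, mul_assoc, ← mul_assoc (z ^ k), h1]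
    simp only [mul_assoc]
  one_mem' := ⟨1, 0, by simp⟩
  inv_mem' := by
    rintro _ ⟨b, k, rfl⟩
    refine ⟨b⁻¹, -k, ?_⟩
    have hcm : Commute z (j b⁻¹) := (hc (j b⁻¹)).symm
    have h1 : z ^ (-k) * j b⁻¹ = j b⁻¹ * z ^ (-k) := (hcm.zpow_left (-k)).eq
    rw [mul_inv_rev, ← zpow_neg, ← map_inv, h1]

private theorem YBox_uniq {p : ℕ} (hp : p.Prime) (hD : DomData p z j) {b b' : Lam r} {k k' : ℤ}
    (h : j b * z ^ k = j b' * z ^ k') : b = b' := by
  have hz : z ^ p = 1 := by rw [← hD.ord]; exact pow_orderOf_eq_one z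
  have h1 : j (b'⁻¹ * b) = z ^ (k' - k) := by
    rw [map_mul, map_inv, zpow_sub, eq_mul_inv_iff_mul_eq, mul_assoc, h, inv_mul_cancel_left]
  have h2 : (b'⁻¹ * b) ^ p = 1 := by
    apply hD.inj
    rw [map_pow, h1, map_one, ← zpow_natCast, ← zpow_mul, mul_comm, zpow_mul, zpow_natCast, hz,
      one_zpow]
  have h3 : Multiplicative.toAdd (b'⁻¹ * b) = 0 := by
    have h4 : p • Multiplicative.toAdd (b'⁻¹ * b) = 0 := by
      rw [← toAdd_pow, h2, toAdd_one]
    rcases smul_eq_zero.1 h4 with h5 | h5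
    · exact absurd h5 hp.ne_zero
    · exact h5
  have h6 : b'⁻¹ * b = 1 := toAdd_eq_zero.1 h3
  exact (inv_mul_eq_one.1 h6).symm

private theorem YBox_nonempty (p : ℕ) (hp : p.Prime) (hD : DomData p z j) :
    Nonempty (YY z j) := by
  classical
  set H := YBox_H z j hD.comm with hH
  let q : Γ → Quotient (QuotientGroup.rightRel H) := fun g => Quotient.mk _ g
  let t : Γ → Γ := fun g => (q g).out
  have ht : ∀ g, ∃ (b : Lam r) (k : ℤ), g = j b * z ^ k * t g := by
    intro g
    have h1 : (QuotientGroup.rightRel H) (q g).out g := Quotient.exact (Quotient.out_eq (q g))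
    rw [QuotientGroup.rightRel_apply] at h1
    obtain ⟨b, k, hbk⟩ := h1
    refine ⟨b, k, ?_⟩
    rw [← hbk]
    simp [t]
  have htH : ∀ h ∈ H, ∀ g, t (h * g) = t g := by
    intro h hh g
    have h1 : q (h * g) = q g := by
      apply Quotient.sound
      change (QuotientGroup.rightRel H) (h * g) g
      rw [QuotientGroup.rightRel_apply]
      have h2 : g * (h * g)⁻¹ = h⁻¹ := by group
      rw [h2]
      exact H.inv_mem hh
    change (q (h * g)).out = (q g).out
    rw [h1]
  choose β κ hβ using ht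
  refine ⟨⟨fun g => Multiplicative.toAdd (β g), fun b g => ?_, fun g => ?_⟩⟩
  · have h1 : j b ∈ H := ⟨b, 0, by simp⟩
    have h2 := hβ (j b * g)
    rw [htH _ h1] at h2
    have h3 : j b * g = j (b * β g) * z ^ κ g * t g := by
      rw [map_mul, mul_assoc, mul_assoc, ← mul_assoc (j (β g)), ← hβ g]
    have h4 : j (β (j b * g)) * z ^ κ (j b * g) = j (b * β g) * z ^ κ g := by
      apply mul_right_cancel (b := t g)
      rw [← h2, ← h3]
    change Multiplicative.toAdd (β (j b * g)) = Multiplicative.toAdd b + Multiplicative.toAdd (β g)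
    rw [YBox_uniq hp hD h4, toAdd_mul]
  · have h1 : z ∈ H := ⟨1, 1, by simp⟩
    have h2 := hβ (z * g)
    rw [htH _ h1] at h2
    have h3 : z * g = j (β g) * z ^ (κ g + 1) * t g := by
      rw [zpow_add, zpow_one]
      calc z * g = g * z := (hD.comm g).symm
        _ = j (β g) * z ^ κ g * t g * z := by rw [← hβ g]
        _ = j (β g) * (z ^ κ g * z) * t g := by
          rw [mul_assoc, hD.comm (t g)]
          simp only [mul_assoc]
    have h4 : j (β (z * g)) * z ^ κ (z * g) = j (β g) * z ^ (κ g + 1) := by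
      apply mul_right_cancel (b := t g)
      rw [← h2, ← h3]
    change Multiplicative.toAdd (β (z * g)) = Multiplicative.toAdd (β g)
    rw [YBox_uniq hp hD h4]

private theorem YBox_lt {a b : YY z j} (h : a < b) : ∃ g i, a.1 g i < b.1 g i := by
  by_contra hcon
  push Not at hcon
  exact absurd (show b ≤ a from fun g i => hcon g i) (not_le_of_gt h)

/-- `Y` is not empty and it is a box lattice. -/
theorem isBox (p : ℕ) (hp : p.Prime) (hD : DomData p z j) :
    Nonempty (YY z j) ∧ ∃ (ht : YY z j → YY z j → ℕ) (M : ℕ), IsBox (u z j) ht M := by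
  classical
  refine ⟨YBox_nonempty p hp hD, ?_⟩
  have hn : j.range.Normal := hD.normal
  have hfi : Finite (Γ ⧸ j.range) := by
    obtain ⟨a, ha⟩ := hD.index
    refine Nat.finite_of_card_ne_zero ?_
    change j.range.index ≠ 0
    rw [ha]
    exact pow_ne_zero _ hp.ne_zero
  have hft : Fintype (Γ ⧸ j.range) := Fintype.ofFinite _
  have hrep : ∀ g : Γ, ∃ b : Lam r, g = j b * Quotient.out (g : Γ ⧸ j.range) := by
    intro g
    set t := Quotient.out (g : Γ ⧸ j.range) with ht
    have h1 : (t : Γ ⧸ j.range) = g := QuotientGroup.out_eq' _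
    rw [QuotientGroup.eq] at h1
    have h2 := hn.conj_mem _ h1 t
    have h3 : t * (t⁻¹ * g) * t⁻¹ = g * t⁻¹ := by group
    rw [h3] at h2
    obtain ⟨b, hb⟩ := h2
    refine ⟨b, ?_⟩
    rw [hb]
    group
  refine ⟨fun a b => ∑ q : Γ ⧸ j.range, ∑ i : Fin r,
    (b.1 (Quotient.out q) i - a.1 (Quotient.out q) i).toNat,
    ∑ _q : Γ ⧸ j.range, ∑ _i : Fin r, 1, ?_, ?_, ?_⟩
  · intro a b c hab hbc
    have hbc' : ∀ g i, b.1 g i ≤ c.1 g i := fun g i => hbc.le g i
    have hab' : ∀ g i, a.1 g i ≤ b.1 g i := fun g i => hab g i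
    obtain ⟨g, i, hgi⟩ := YBox_lt hbc
    obtain ⟨β, hβ⟩ := hrep g
    have hlt : b.1 (Quotient.out (g : Γ ⧸ j.range)) i < c.1 (Quotient.out (g : Γ ⧸ j.range)) i := by
      rw [hβ, val_j, val_j] at hgi
      simpa using hgi
    have hle : ∀ (q : Γ ⧸ j.range) (i : Fin r),
        (b.1 (Quotient.out q) i - a.1 (Quotient.out q) i).toNat ≤
        (c.1 (Quotient.out q) i - a.1 (Quotient.out q) i).toNat := by
      intro q i
      have := hbc' (Quotient.out q) i
      omega
    refine Finset.sum_lt_sum (fun q _ => Finset.sum_le_sum fun i _ => hle q i)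
      ⟨(g : Γ ⧸ j.range), Finset.mem_univ _, ?_⟩
    refine Finset.sum_lt_sum (fun i _ => hle _ i) ⟨i, Finset.mem_univ _, ?_⟩
    have := hab' (Quotient.out (g : Γ ⧸ j.range)) i
    omega
  · intro a
    refine Finset.sum_le_sum fun q _ => Finset.sum_le_sum fun i _ => ?_
    have h1 : ((u z j) a).1 (Quotient.out q) i = a.1 (Quotient.out q) i + 1 := rfl
    rw [h1]
    omega
  · intro a b hab
    obtain ⟨g, i, hgi⟩ := YBox_lt hab
    have h1 : ∀ g i, ((u z j).symm b ⊔ a).1 g i = max (b.1 g i - 1) (a.1 g i) := fun _ _ => rfl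
    refine lt_of_le_of_ne (fun g i => ?_) fun h => ?_
    · change max (b.1 g i - 1) (a.1 g i) ≤ b.1 g i
      have h3 : a.1 g i ≤ b.1 g i := hab.le g i
      exact max_le (by omega) h3
    · have h2 := congrArg (fun x : YY z j => x.1 g i) h
      simp only [h1] at h2
      omega

/-- The stabilisers are finite `p`-groups. -/
theorem stab_finite (p : ℕ) (hp : p.Prime) (hD : DomData p z j) (φ : YY z j) (S : Subgroup Γ)
    (hS : ∀ γ ∈ S, γ • φ = φ) : Finite S ∧ IsPGroup p S := by
  have hn : j.range.Normal := hD.normal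
  have hfi : Finite (Γ ⧸ j.range) := by
    obtain ⟨a, ha⟩ := hD.index
    refine Nat.finite_of_card_ne_zero ?_
    change j.range.index ≠ 0
    rw [ha]
    exact pow_ne_zero _ hp.ne_zero
  have key : ∀ γ ∈ S, γ ∈ j.range → γ = 1 := by
    rintro γ hγ ⟨b, rfl⟩
    have h1 := smul_val (j b) φ 1
    rw [hS _ hγ, one_mul] at h1
    have h2 := val_j φ b 1
    rw [mul_one, ← h1] at h2
    have h3 : Multiplicative.toAdd b = 0 := by
      simpa using h2
    have h4 : b = 1 := toAdd_eq_zero.1 h3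
    rw [h4, map_one]
  constructor
  · refine Finite.of_injective (fun s : S => (s.1 : Γ ⧸ j.range)) fun s s' h => ?_
    rw [QuotientGroup.eq] at h
    have h1 := key _ (S.mul_mem (S.inv_mem s.2) s'.2) h
    exact Subtype.ext (inv_mul_eq_one.1 h1)
  · obtain ⟨a, ha⟩ := hD.index
    intro s
    refine ⟨a, ?_⟩
    have h1 : s.1 ^ (p ^ a) ∈ j.range := by
      rw [← ha]
      exact Subgroup.pow_index_mem _ _
    exact Subtype.ext (key _ (S.pow_mem s.2 _) h1)

end YY

end D687Dom
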