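import Pool.Agent.Lib_MP_d687bf_dom.LiftS
import Pool.Agent.Lib_MP_d687bf_dom.TwProj
import Pool.Agent.Lib_MP_d687bf_dom.YBox
import Pool.Agent.Lib_MP_d687bf_dom.ChainExact
import Pool.Agent.Lib_MP_d687bf_dom.PdComplex

/-!
# Piece N: left ideals of `Tw z ζ` have finite projective dimension

`C k := TwF (Chain (YY.u z j) k) N`, `d k := bdryR`, `bdryR_apply` transports `bdry_bdry`, `bdry_exact`,
`bdry_zero_surjective`, `chain_empty`. Projectivity of `C (k + 1)` by `twF_projective`: the stabiliser
of a chain of length `k + 1` fixes its vertices (it acts on the list by order automorphisms: here simply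
`l.map (g • ·) = l` gives `g • y = y` for the first element), contains `z`, is a finite `p`-group by
`YY.stab_finite`, so `liftProp_finite` applies. `C 0 ≃ N` because the only chain of length `0` is `[]`,
fixed by `Γ`.
-/

open CategoryTheory

namespace D687Dom

section

variable {O Γ : Type} [CommRing O] [Group Γ]

/-- chains of length zero: only the empty chain -/
private theorem twPd_chain_zero {Y : Type} [PartialOrder Y] (u : Y ≃o Y) (l l' : Chain u 0) :
    l = l' := by
  apply Subtype.ext
  rw [List.eq_nil_of_length_eq_zero l.2.1, List.eq_nil_of_length_eq_zero l'.2.1]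

/-- a vertex of a chain is fixed by the stabiliser of the chain -/
private theorem twPd_fix {Y : Type} [PartialOrder Y] [MulAction Γ Y] {u : Y ≃o Y} [BoxAct Γ u]
    {k : ℕ} (l : Chain u (k + 1)) : ∃ y : Y, ∀ γ : Γ, γ • l = l → γ • y = y := by
  obtain ⟨l, hl, hl2⟩ := l
  cases l with
  | nil => simp at hl
  | cons y l =>
    refine ⟨y, fun γ h => ?_⟩
    have h2 := congrArg Subtype.val h
    rw [Chain.smul_val] at h2
    exact (List.cons.inj h2).1

/-- the module of chains of length zero -/
private noncomputable def twPdEquiv (z : Γ) (ζ : O) (X N : Type) [AddCommGroup N]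
    [Module (Tw z ζ) N] [Module O N] [IsScalarTower O (Tw z ζ) N] [MulAction Γ X] [ZTriv z X]
    (x₀ : X) (hX : ∀ x : X, x = x₀) : TwF X N ≃ₗ[Tw z ζ] N :=
  LinearEquiv.ofBijective
    (Tw.toLinear (z := z) (ζ := ζ) ((Finsupp.lapply x₀ : (X →₀ N) →ₗ[O] N) ∘ₗ
      (TwF.e O X N).toLinearMap) (by
        intro g F
        have key : ((Finsupp.lapply x₀ : (X →₀ N) →ₗ[O] N) ∘ₗ (TwF.e O X N).toLinearMap) ∘ₗ
            TwF.act z ζ X N g = (DistribSMul.toLinearMap O N (Tw.of z ζ g)) ∘ₗ
              ((Finsupp.lapply x₀ : (X →₀ N) →ₗ[O] N) ∘ₗ (TwF.e O X N).toLinearMap) := by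
          refine TwF.hom_ext fun x n => ?_
          rw [LinearMap.comp_apply, LinearMap.comp_apply, TwF.act_single]
          change (TwF.e O X N (TwF.single (g • x) (Tw.of z ζ g • n))) x₀ =
            Tw.of z ζ g • (TwF.e O X N (TwF.single x n)) x₀
          rw [TwF.e_single, TwF.e_single, hX (g • x), hX x, Finsupp.single_eq_same,
            Finsupp.single_eq_same]
        rw [TwF.of_smul]
        exact LinearMap.congr_fun key F))
    (by
      constructor
      · intro F F' h
        apply (TwF.e O X N).injective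
        refine Finsupp.ext fun x => ?_
        rw [hX x]
        exact h
      · intro n
        refine ⟨TwF.single x₀ n, ?_⟩
        change (TwF.e O X N (TwF.single x₀ n)) x₀ = n
        rw [TwF.e_single, Finsupp.single_eq_same])

end

variable {O Γ : Type} [CommRing O] [IsDomain O] [IsDiscreteValuationRing O] [Group Γ]

theorem tw_pd (p : ℕ) [Fact p.Prime] (hp : p ≠ 2) {ζ : O} (hζ : IsZeta p ζ) {z : Γ} {r : ℕ}
    {j : Lam r →* Γ} (hD : DomData p z j) (N : Submodule (Tw z ζ) (Tw z ζ)) :
    ∃ n, HasProjectiveDimensionLT (ModuleCat.of (Tw z ζ) N) n := by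
  have hpp : p.Prime := Fact.out
  obtain ⟨hne, ht, M, hbox⟩ := YY.isBox (z := z) (j := j) p hpp hD
  haveI : Nonempty (YY z j) := hne
  haveI : ZTriv z (YY z j) := YY.ztriv hD.comm
  have hinj : ∀ (k : ℕ) (x y : TwF (Chain (YY.u z j) k) N),
      TwF.e O (Chain (YY.u z j) k) N x = TwF.e O (Chain (YY.u z j) k) N y → x = y :=
    fun k x y h => (TwF.e O (Chain (YY.u z j) k) N).injective h
  obtain ⟨n, hn⟩ := pd_of_complex (R := Tw z ζ) (fun k => TwF (Chain (YY.u z j) k) N)
    (fun k => bdryR z ζ (YY.u z j) N k)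
    (fun k x => by
      apply hinj
      rw [bdryR_apply, bdryR_apply, bdry_bdry, map_zero])
    (fun k x hx => by
      have h1 : bdry (YY.u z j) N k (TwF.e O _ N x) = 0 := by
        rw [← bdryR_apply z ζ, hx, map_zero]
      obtain ⟨y, hy⟩ := bdry_exact hbox N k _ h1
      refine ⟨(TwF.e O _ N).symm y, hinj _ _ _ ?_⟩
      rw [bdryR_apply, LinearEquiv.apply_symm_apply]
      exact hy)
    (fun x => by
      obtain ⟨y, hy⟩ := bdry_zero_surjective (YY.u z j) N (TwF.e O _ N x)
      refine ⟨(TwF.e O _ N).symm y, hinj _ _ _ ?_⟩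
      rw [bdryR_apply, LinearEquiv.apply_symm_apply]
      exact hy)
    (fun k => twF_projective z ζ _ N fun l => by
      obtain ⟨y, hy⟩ := twPd_fix (Γ := Γ) l
      obtain ⟨hf, hpg⟩ := YY.stab_finite p hpp hD y (MulAction.stabilizer Γ l)
        fun γ hγ => hy γ (MulAction.mem_stabilizer_iff.1 hγ)
      haveI := hf
      exact liftProp_finite p hp hζ z hD.comm hD.ord hD.tor (MulAction.stabilizer Γ l) hpg
        (MulAction.mem_stabilizer_iff.2 (ZTriv.smul_eq l)) N)
    (M + 1)
    (fun k hk => by
      haveI := chain_empty hbox k hk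
      exact inferInstanceAs (Subsingleton (Chain (YY.u z j) k →₀ N)))
  exact ⟨n, pd_of_equiv (twPdEquiv z ζ (Chain (YY.u z j) 0) N ⟨[], rfl, List.Pairwise.nil⟩
    fun x => twPd_chain_zero _ _ _) n hn⟩

end D687Dom
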