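import Pool.Agent.Lib_MP_d687bf_dom.RankAdd
import Pool.Agent.Lib_MP_d687bf_dom.TwPd

/-!
# Piece R: `Tw z ζ` is a domain

(1) For every `n` and every finitely generated `N` with `HasProjectiveDimensionLT N n`:
`rk R ∣ rk N` (induction on `n`; `n = 0`: zero module, `n = 1`: `rk_projective`; step: surjection
`R ^ k → N`, the kernel is finitely generated (`tw_noetherian`) with smaller projective dimension,
`rk_add`, `rk_pi`). (2) `a ≠ 0`: `N = R a` is a left ideal with finite projective dimension (`tw_pd`),
`0 < rk N ≤ rk R`, `rk R ∣ rk N`, so `rk N = rk R`; the kernel of `R → R a`, `x ↦ x a`, has rank `0` by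
`rk_add`, so it is `0` by `rk_pos`: `x a = 0 → x = 0`.
-/

open CategoryTheory

namespace D687Dom

variable {O Γ : Type} [CommRing O] [IsDomain O] [IsDiscreteValuationRing O] [Group Γ]

theorem rk_dvd_of_pd (p : ℕ) [Fact p.Prime] {ζ : O} (hζ : IsZeta p ζ) {z : Γ} {r : ℕ}
    {j : Lam r →* Γ} (hD : DomData p z j) (n : ℕ) (N : Type) [AddCommGroup N] [Module (Tw z ζ) N]
    [Module.Finite (Tw z ζ) N] (hN : HasProjectiveDimensionLT (ModuleCat.of (Tw z ζ) N) n) :
    rk z ζ j (Tw z ζ) ∣ rk z ζ j N := by
  have hprime : p.Prime := Fact.out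
  have hnoeth := tw_noetherian p hprime hD ζ hζ.pow
  induction n generalizing N with
  | zero =>
    have h0 := isZero_of_hasProjectiveDimensionLT_zero (ModuleCat.of (Tw z ζ) N)
    have h1 : Subsingleton N := ModuleCat.subsingleton_of_isZero h0
    have h2 : rk z ζ j N = 0 := by
      unfold rk
      let _ := modS z ζ j N
      exact Module.finrank_zero_of_subsingleton
    rw [h2]
    exact dvd_zero _
  | succ n ih =>
    rcases n with _ | n
    · have h1 : CategoryTheory.Projective (ModuleCat.of (Tw z ζ) N) :=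
        projective_iff_hasProjectiveDimensionLT_one.mpr hN
      have h2 : Module.Projective (Tw z ζ) N := (IsProjective.iff_projective N).mpr h1
      exact rk_projective p hζ hD N
    · obtain ⟨k, f, hf⟩ := Module.Finite.exists_fin' (Tw z ζ) N
      have hex := LinearMap.shortExact_shortComplexKer hf
      have hproj : CategoryTheory.Projective (ModuleCat.of (Tw z ζ) (Fin k → Tw z ζ)) :=
        (IsProjective.iff_projective (Fin k → Tw z ζ)).mp inferInstance
      have hker : HasProjectiveDimensionLT (ModuleCat.of (Tw z ζ) (LinearMap.ker f)) (n + 1) :=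
        (hex.hasProjectiveDimensionLT_X₃_iff n hproj).mp hN
      have hfin : Module.Finite (Tw z ζ) (LinearMap.ker f) := inferInstance
      have h1 := ih (LinearMap.ker f) hker
      have h2 := rk_add p hprime hζ.pow hD f hf
      have h3 := rk_pi p hprime hζ.pow hD k
      rw [h3] at h2
      have h4 : rk z ζ j (Tw z ζ) ∣ rk z ζ j (LinearMap.ker f) + rk z ζ j N := by
        rw [← h2]
        exact dvd_mul_left _ _
      exact (Nat.dvd_add_right h1).mp h4

theorem tw_noZeroDivisors (p : ℕ) [Fact p.Prime] (hp : p ≠ 2) {ζ : O} (hζ : IsZeta p ζ) {z : Γ}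
    {r : ℕ} {j : Lam r →* Γ} (hD : DomData p z j) : NoZeroDivisors (Tw z ζ) := by
  have hprime : p.Prime := Fact.out
  have hnoeth := tw_noetherian p hprime hD ζ hζ.pow
  refine ⟨fun {x a} hxa => ?_⟩
  by_cases ha : a = 0
  · exact Or.inr ha
  left
  let f : Tw z ζ →ₗ[Tw z ζ] Tw z ζ := LinearMap.toSpanSingleton (Tw z ζ) (Tw z ζ) a
  have hfa : ∀ y, f y = y * a := fun y => rfl
  have hsurj : Function.Surjective f.rangeRestrict := f.surjective_rangeRestrict
  have hne : LinearMap.range f ≠ ⊥ := by
    intro h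
    have h1 : f 1 ∈ LinearMap.range f := ⟨1, rfl⟩
    rw [h, Submodule.mem_bot, hfa, one_mul] at h1
    exact ha h1
  obtain ⟨n, hn⟩ := tw_pd p hp hζ hD (LinearMap.range f)
  have hdvd := rk_dvd_of_pd p hζ hD n (LinearMap.range f) hn
  have hpos := rk_pos p hprime hζ.pow hD (LinearMap.range f) hne
  have hle := rk_le p hprime hζ.pow hD (LinearMap.range f)
  have heq : rk z ζ j (LinearMap.range f) = rk z ζ j (Tw z ζ) :=
    le_antisymm hle (Nat.le_of_dvd hpos hdvd)
  have hadd := rk_add p hprime hζ.pow hD f.rangeRestrict hsurj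
  have hker : rk z ζ j (LinearMap.ker f.rangeRestrict) = 0 := by omega
  have hbot : LinearMap.ker f.rangeRestrict = ⊥ := by
    by_contra h
    have := rk_pos p hprime hζ.pow hD _ h
    omega
  have hx : x ∈ LinearMap.ker f.rangeRestrict := by
    rw [LinearMap.mem_ker]
    exact Subtype.ext hxa
  rw [hbot, Submodule.mem_bot] at hx
  exact hx

end D687Dom
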