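import Pool.Agent.Lib_MP_d687bf_dom.TwBasis
import Pool.Agent.Lib_MP_d687bf_dom.LamRing

/-!
# Piece D: `Tw z ζ` as a module over `S = O[Λ]`

`Λ = Lam r`, `S = MonoidAlgebra O (Lam r)` acts through `sigma`. `j Λ ∩ ⟨z⟩ = 1` (torsion-free), choose
representatives `t_i`, `i : I` finite, of the cosets `(j Λ ⟨z⟩) \ Γ`; then `e (i, b) = j b * t_i` satisfies
the hypothesis of `tw_basis` (`z` central), so `of (j b) * of (t_i)` is an `O`-basis of `Tw`, which
means that `of (t_i)` is an `S`-basis: `Tw` is finite and free over `S`.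
-/

namespace D687Dom

variable {O Γ : Type} [CommRing O] [Group Γ]

omit [CommRing O] in
/-- Representatives of the cosets `(j Λ ⟨z⟩) \ Γ`. -/
private theorem TwFree_reps (p : ℕ) (hp : p.Prime) {z : Γ} {r : ℕ} {j : Lam r →* Γ}
    (hD : DomData p z j) :
    ∃ (m : ℕ) (t : Fin m → Γ), ∀ g : Γ, ∃! ib : Fin m × Lam r, ∃ k : ℕ,
      g = (j ib.2 * t ib.1) * z ^ k := by
  classical
  have hc : ∀ g : Γ, Commute g z := fun g => hD.comm g
  -- powers of `z`
  have hfin : IsOfFinOrder z := by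
    rw [← orderOf_pos_iff, hD.ord]
    exact hp.pos
  have hz : ∀ k : ℤ, ∃ n : ℕ, z ^ k = z ^ n := by
    intro k
    have h1 : z ^ k ∈ Submonoid.powers z :=
      hfin.mem_powers_iff_mem_zpowers.mpr ⟨k, rfl⟩
    obtain ⟨n, hn⟩ := h1
    exact ⟨n, hn.symm⟩
  let H : Subgroup Γ :=
    { carrier := {g | ∃ (b : Lam r) (k : ℤ), g = j b * z ^ k}
      one_mem' := ⟨1, 0, by rw [map_one, zpow_zero, mul_one]⟩
      mul_mem' := by
        rintro _ _ ⟨b, k, rfl⟩ ⟨b', k', rfl⟩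
        refine ⟨b * b', k + k', ?_⟩
        rw [map_mul, zpow_add, mul_assoc, mul_assoc, ← mul_assoc (z ^ k) (j b'),
          ← ((hc (j b')).zpow_right k).eq, mul_assoc]
      inv_mem' := by
        rintro _ ⟨b, k, rfl⟩
        refine ⟨b⁻¹, -k, ?_⟩
        rw [mul_inv_rev, map_inv, zpow_neg, ← zpow_neg, ← ((hc (j b)⁻¹).zpow_right (-k)).eq] }
  have hHmem : ∀ g, g ∈ H ↔ ∃ (b : Lam r) (k : ℤ), g = j b * z ^ k := fun g => Iff.rfl
  have hle : j.range ≤ H := by
    rintro _ ⟨b, rfl⟩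
    exact ⟨b, 0, by rw [zpow_zero, mul_one]⟩
  obtain ⟨a, ha⟩ := hD.index
  have hfi : j.range.FiniteIndex := ⟨by rw [ha]; exact pow_ne_zero _ hp.ne_zero⟩
  have hfi2 : H.FiniteIndex := Subgroup.finiteIndex_of_le hle
  have hfi3 : Finite (Quotient (QuotientGroup.rightRel H)) :=
    Finite.of_equiv (Γ ⧸ H) (QuotientGroup.quotientRightRelEquivQuotientLeftRel H).symm
  obtain ⟨m, ⟨q⟩⟩ := Finite.exists_equiv_fin (Quotient (QuotientGroup.rightRel H))
  let t : Fin m → Γ := fun i => (q.symm i).out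
  have ht : ∀ i, (Quotient.mk (QuotientGroup.rightRel H) (t i)) = q.symm i :=
    fun i => Quotient.out_eq _
  have hmk : ∀ g i, (Quotient.mk (QuotientGroup.rightRel H) g) = q.symm i ↔ g * (t i)⁻¹ ∈ H := by
    intro g i
    rw [← ht i, eq_comm, Quotient.eq]
    exact QuotientGroup.rightRel_apply
  have hinj : ∀ (b b' : Lam r) (k k' : ℤ), j b * z ^ k = j b' * z ^ k' → b = b' := by
    intro b b' k k' h
    have h1 : j (b'⁻¹ * b) = z ^ (k' - k) := by
      rw [map_mul, map_inv, zpow_sub, inv_mul_eq_iff_eq_mul, ← mul_assoc, ← h, mul_assoc,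
        mul_inv_cancel, mul_one]
    have h2 : (j (b'⁻¹ * b)) ^ p = 1 := by
      rw [h1, ← zpow_natCast, ← zpow_mul, mul_comm, zpow_mul, zpow_natCast, ← hD.ord,
        pow_orderOf_eq_one, one_zpow]
    rw [← map_pow] at h2
    have h3 : (b'⁻¹ * b) ^ p = 1 := hD.inj (by rw [h2, map_one])
    have h4 : b'⁻¹ * b = 1 := by
      have h5 : p • Multiplicative.toAdd (b'⁻¹ * b) = 0 := by
        rw [← toAdd_pow, h3, toAdd_one]
      have h6 : Multiplicative.toAdd (b'⁻¹ * b) = 0 := by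
        funext i
        have h7 := congrFun h5 i
        rw [Pi.smul_apply, Pi.zero_apply, nsmul_eq_mul] at h7
        rcases mul_eq_zero.mp h7 with h8 | h8
        · exact absurd (Nat.cast_eq_zero.mp h8) hp.ne_zero
        · exact h8
      exact Multiplicative.toAdd.injective (by rw [h6, toAdd_one])
    exact (inv_mul_eq_one.mp h4).symm
  refine ⟨m, t, fun g => ?_⟩
  have hcz : ∀ (x : Γ) (k : ℤ), z ^ k * x = x * z ^ k := fun x k => ((hc x).zpow_right k).eq.symm
  obtain ⟨i, hi⟩ : ∃ i, (Quotient.mk (QuotientGroup.rightRel H) g) = q.symm i :=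
    ⟨q (Quotient.mk _ g), (q.symm_apply_apply _).symm⟩
  obtain ⟨b, k, hk⟩ := (hHmem _).mp ((hmk g i).mp hi)
  refine ⟨(i, b), ?_, ?_⟩
  · obtain ⟨n, hn⟩ := hz k
    refine ⟨n, ?_⟩
    change g = j b * t i * z ^ n
    rw [← hn, mul_assoc, ← hcz, ← mul_assoc, ← hk, inv_mul_cancel_right]
  · rintro ⟨i', b'⟩ ⟨n, hn⟩
    change g = j b' * t i' * z ^ n at hn
    have h1 : g * (t i')⁻¹ = j b' * z ^ (n : ℤ) := by
      rw [hn, zpow_natCast, mul_assoc, mul_assoc, ← zpow_natCast, ← mul_assoc (t i'), ← hcz,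
        mul_assoc, mul_inv_cancel, mul_one]
    have h2 : (Quotient.mk (QuotientGroup.rightRel H) g) = q.symm i' :=
      (hmk g i').mpr ⟨b', n, h1⟩
    have h3 : i' = i := q.symm.injective (h2.symm.trans hi)
    subst h3
    have h4 : b' = b := hinj b' b n k (h1.symm.trans hk)
    rw [h4]

/-- Coordinates of `∑ σ(a_i) c_i`. -/
private theorem TwFree_repr {z : Γ} {ζ : O} {r : ℕ} {j : Lam r →* Γ} {m : ℕ} {t : Fin m → Γ}
    (B : Module.Basis (Fin m × Lam r) O (Tw z ζ))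
    (hB : ∀ ib, B ib = Tw.of z ζ (j ib.2 * t ib.1)) (a : Fin m → MonoidAlgebra O (Lam r))
    (i0 : Fin m) (b0 : Lam r) :
    B.repr (∑ i, sigma z ζ j (a i) * Tw.of z ζ (t i)) (i0, b0) = (a i0).coeff b0 := by
  classical
  have h1 : ∀ (s : MonoidAlgebra O (Lam r)) (i : Fin m),
      B.repr (sigma z ζ j s * Tw.of z ζ (t i)) (i0, b0) = if i = i0 then s.coeff b0 else 0 := by
    intro s i
    induction s using MonoidAlgebra.induction_linear with
    | zero =>
      rw [map_zero, zero_mul, map_zero, Finsupp.zero_apply]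
      split_ifs <;> rfl
    | add s s' hs hs' =>
      rw [map_add, add_mul, map_add, Finsupp.add_apply, hs, hs']
      split_ifs
      · rfl
      · rw [add_zero]
    | single b c =>
      have h2 : sigma z ζ j (MonoidAlgebra.single b c) = c • Tw.of z ζ (j b) := by
        rw [sigma, MonoidAlgebra.lift_single]
        rfl
      rw [h2, smul_mul_assoc, ← map_mul, map_smul, ← hB (i, b), B.repr_self,
        Finsupp.smul_apply, Finsupp.single_apply, MonoidAlgebra.coeff_single,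
        Finsupp.single_apply, smul_eq_mul]
      by_cases hi : i = i0
      · subst hi
        by_cases hb : b = b0
        · subst hb
          rw [if_pos rfl, if_pos rfl, if_pos rfl, mul_one]
        · rw [if_neg (fun h => hb (congrArg Prod.snd h)), if_pos rfl, if_neg hb, mul_zero]
      · rw [if_neg (fun h => hi (congrArg Prod.fst h)), if_neg hi, mul_zero]
  rw [map_sum, Finsupp.finsetSum_apply]
  rw [Finset.sum_congr rfl fun i _ => h1 (a i) i, Finset.sum_ite_eq' Finset.univ i0]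
  rw [if_pos (Finset.mem_univ _)]

/-- the basis together with the representatives -/
private theorem TwFree_basis (p : ℕ) (hp : p.Prime) {z : Γ} {r : ℕ} {j : Lam r →* Γ}
    (hD : DomData p z j) (ζ : O) (hζ : ζ ^ p = 1) :
    ∃ (m : ℕ) (t : Fin m → Γ) (B : Module.Basis (Fin m × Lam r) O (Tw z ζ)),
      (∀ g : Γ, ∃! ib : Fin m × Lam r, ∃ k : ℕ, g = (j ib.2 * t ib.1) * z ^ k) ∧
      ∀ ib, B ib = Tw.of z ζ (j ib.2 * t ib.1) := by
  obtain ⟨m, t, ht⟩ := TwFree_reps p hp hD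
  obtain ⟨B, hB⟩ := tw_basis p hp.pos z hD.comm hD.ord ζ hζ
    (fun ib : Fin m × Lam r => j ib.2 * t ib.1) ht
  exact ⟨m, t, B, ht, hB⟩

/-- `Tw z ζ` is a finitely generated free module over the group ring of `Lam r`. -/
theorem tw_free (p : ℕ) (hp : p.Prime) {z : Γ} {r : ℕ} {j : Lam r →* Γ} (hD : DomData p z j)
    (ζ : O) (hζ : ζ ^ p = 1) :
    ∃ (m : ℕ) (c : Fin m → Tw z ζ), ∀ x : Tw z ζ, ∃! a : Fin m → MonoidAlgebra O (Lam r),
      x = ∑ i, sigma z ζ j (a i) * c i := by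
  classical
  obtain ⟨m, t, B, -, hB⟩ := TwFree_basis p hp hD ζ hζ
  refine ⟨m, fun i => Tw.of z ζ (t i), fun x => ?_⟩
  refine ⟨fun i => MonoidAlgebra.ofCoeff ((B.repr x).curry i), ?_, ?_⟩
  · apply B.repr.injective
    ext ⟨i0, b0⟩
    rw [TwFree_repr B hB, MonoidAlgebra.coeff_ofCoeff, Finsupp.curry_apply]
  · intro a ha
    have ha' : x = ∑ i, sigma z ζ j (a i) * Tw.of z ζ (t i) := ha
    funext i0
    apply MonoidAlgebra.coeff_injective
    ext b0
    rw [MonoidAlgebra.coeff_ofCoeff, Finsupp.curry_apply, ha', TwFree_repr B hB]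

/-- no torsion over the group ring of `Lam r` -/
theorem tw_torsionFree [IsDomain O] (p : ℕ) (hp : p.Prime) {z : Γ} {r : ℕ} {j : Lam r →* Γ}
    (hD : DomData p z j) (ζ : O) (hζ : ζ ^ p = 1) (s : MonoidAlgebra O (Lam r)) (hs : s ≠ 0)
    (x : Tw z ζ) (hx : sigma z ζ j s * x = 0) : x = 0 := by
  have := lam_isDomain (O := O) r
  obtain ⟨m, c, hc⟩ := tw_free p hp hD ζ hζ
  obtain ⟨a, ha, -⟩ := hc x
  obtain ⟨a0, ha0, huniq⟩ := hc 0
  have h1 : (fun i => s * a i) = a0 := by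
    apply huniq
    rw [← hx, ha, Finset.mul_sum]
    refine Finset.sum_congr rfl fun i _ => ?_
    rw [map_mul, mul_assoc]
  have h2 : (fun _ => 0) = a0 := by
    apply huniq
    rw [Finset.sum_eq_zero]
    intro i _
    rw [map_zero, zero_mul]
  rw [ha]
  refine Finset.sum_eq_zero fun i _ => ?_
  have h3 : s * a i = 0 := by
    have := congrFun (h1.trans h2.symm) i
    exact this
  rcases mul_eq_zero.mp h3 with h4 | h4
  · exact absurd h4 hs
  · rw [h4, map_zero, zero_mul]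

/-- `Tw z ζ` is left Noetherian. -/
theorem tw_noetherian [IsNoetherianRing O] (p : ℕ) (hp : p.Prime) {z : Γ} {r : ℕ} {j : Lam r →* Γ}
    (hD : DomData p z j) (ζ : O) (hζ : ζ ^ p = 1) : IsNoetherianRing (Tw z ζ) := by
  have hN := lam_noetherian (O := O) r
  obtain ⟨m, c, hc⟩ := tw_free p hp hD ζ hζ
  let _ : Module (MonoidAlgebra O (Lam r)) (Tw z ζ) :=
    Module.compHom (Tw z ζ) (sigma z ζ j : MonoidAlgebra O (Lam r) →+* Tw z ζ)
  have hsmul : ∀ (s : MonoidAlgebra O (Lam r)) (x : Tw z ζ), s • x = sigma z ζ j s * x :=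
    fun _ _ => rfl
  have : IsScalarTower (MonoidAlgebra O (Lam r)) (Tw z ζ) (Tw z ζ) := ⟨fun s x y => by
    rw [hsmul, hsmul, smul_eq_mul, smul_eq_mul, mul_assoc]⟩
  have : Module.Finite (MonoidAlgebra O (Lam r)) (Tw z ζ) := by
    refine Module.Finite.of_surjective (Fintype.linearCombination (MonoidAlgebra O (Lam r)) c) ?_
    intro x
    obtain ⟨a, ha, -⟩ := hc x
    refine ⟨a, ?_⟩
    rw [Fintype.linearCombination_apply]
    exact ha.symm
  have : IsNoetherian (MonoidAlgebra O (Lam r)) (Tw z ζ) := inferInstance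
  exact isNoetherian_of_tower (MonoidAlgebra O (Lam r)) this

/-- `Γ` embeds. -/
theorem tw_of_injective [IsDomain O] (p : ℕ) (hp : p.Prime) {z : Γ} {r : ℕ} {j : Lam r →* Γ}
    (hD : DomData p z j) (ζ : O) (hζ : ζ ^ p = 1) (hζ1 : ζ ≠ 1) :
    Nontrivial (Tw z ζ) ∧ Function.Injective (Tw.of z ζ) := by
  classical
  obtain ⟨m, t, B, ht, hB⟩ := TwFree_basis (O := O) p hp hD ζ hζ
  have hof : ∀ (ib : Fin m × Lam r) (k : ℕ),
      Tw.of z ζ ((j ib.2 * t ib.1) * z ^ k) = ζ ^ k • B ib := by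
    intro ib k
    rw [map_mul, map_pow, Tw.of_z, ← map_pow, ← Algebra.commutes, ← Algebra.smul_def, hB]
  obtain ⟨ib1, ⟨k1, hk1⟩, -⟩ := ht 1
  refine ⟨⟨B ib1, 0, B.ne_zero ib1⟩, ?_⟩
  intro g h hgh
  obtain ⟨ib, ⟨k, hk⟩, -⟩ := ht g
  obtain ⟨ib', ⟨k', hk'⟩, -⟩ := ht h
  have h1 : ζ ^ k • B ib = ζ ^ k' • B ib' := by
    rw [← hof, ← hof, ← hk, ← hk', hgh]
  have hunit : ∀ k : ℕ, ζ ^ k ≠ 0 := by
    intro k h0
    have h2 : ζ ≠ 0 := by
      rintro rfl
      rw [zero_pow hp.ne_zero] at hζ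
      exact zero_ne_one hζ
    exact pow_ne_zero k h2 h0
  have h3 : Finsupp.single ib (ζ ^ k) = (Finsupp.single ib' (ζ ^ k') : Fin m × Lam r →₀ O) := by
    have h4 := congrArg B.repr h1
    rwa [map_smul, map_smul, B.repr_self, B.repr_self, Finsupp.smul_single, Finsupp.smul_single,
      smul_eq_mul, smul_eq_mul, mul_one, mul_one] at h4
  have h5 : ib = ib' ∧ ζ ^ k = ζ ^ k' := by
    rcases (Finsupp.single_eq_single_iff _ _ _ _).mp h3 with h6 | h6
    · exact h6
    · exact absurd h6.1 (hunit k)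
  obtain ⟨u, hu⟩ : IsUnit ζ := IsUnit.of_pow_eq_one hζ hp.ne_zero
  have h7 : orderOf u = p := by
    have : Fact p.Prime := ⟨hp⟩
    rw [← orderOf_units, hu]
    exact orderOf_eq_prime hζ hζ1
  have h8 : z ^ k = z ^ k' := by
    rw [pow_eq_pow_iff_modEq, hD.ord, ← h7, ← pow_eq_pow_iff_modEq]
    apply Units.ext
    rw [Units.val_pow_eq_pow_val, Units.val_pow_eq_pow_val, hu]
    exact h5.2
  rw [hk, hk', h5.1, h8]

end D687Dom
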